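import Pool.Agent.MZG.Defs

set_option autoImplicit false

/-!
# MZG, module BASE: the explicit base of `u`
-/

namespace Pool.Agent.MZG

theorem BASE : St_BASE := by
  intro k G h u i₀ p hk hG hp hu hh
  obtain ⟨e, he⟩ : ∃ e : Fin k → ℕ, e = fun m : Fin k => 2 * h * (k - m) + 2 * p (i₀.succAbove m) :=
    ⟨_, rfl⟩
  have hb : base h i₀ u p = Fin.cons (u - ∑ m : Fin k, e m) e := by
    rw [he]
    rfl
  have he0 : ∀ m, e m = 2 * h * (k - m) + 2 * p (i₀.succAbove m) := fun m => by rw [he]
  have he1 : ∀ m, 2 * h ≤ e m := by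
    intro m
    rw [he0]
    have h1 : 1 ≤ k - (m : ℕ) := by omega
    have h2 := Nat.mul_le_mul_left (2 * h) h1
    omega
  have he2 : ∀ m, e m ≤ 2 * h * (k - m) + h := by
    intro m
    rw [he0]
    have := hp (i₀.succAbove m)
    omega
  have he3 : ∀ m, e m ≤ 2 * h * k + h := by
    intro m
    have h1 := Nat.mul_le_mul_left (2 * h) (Nat.sub_le k (m : ℕ))
    have h2 := he2 m
    omega
  have he4 : ∀ m, Even (e m) := by
    intro m
    rw [he0]
    refine Even.add ?_ (even_two_mul _)
    rw [mul_assoc]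
    exact even_two_mul _
  have hs1 : ∑ m, e m ≤ k * (2 * h * k + h) := by
    have := Finset.sum_le_card_nsmul Finset.univ e (2 * h * k + h) fun m _ => he3 m
    simpa using this
  have hs2 : k * (2 * h * k + h) + (2 * h * k + h + h) ≤ u := by
    refine le_trans ?_ hh
    nlinarith [Nat.zero_le (k * k * h), Nat.zero_le (k * h), Nat.zero_le h]
  have hs3 : Even (∑ m, e m) := by
    refine Finset.even_sum _ fun m _ => he4 m
  have hs4 : 2 * h * k + h + G ≤ u - ∑ m, e m := by omega
  have hdec : ∀ m m' : Fin k, m < m' → e m' + G ≤ e m := by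
    intro m m' hmm
    have h1 : (m : ℕ) < m' := hmm
    have h2 : k - (m' : ℕ) + 1 ≤ k - (m : ℕ) := by
      have := m'.isLt
      omega
    have h3 := Nat.mul_le_mul_left (2 * h) h2
    rw [mul_add, mul_one] at h3
    have h4 := he2 m'
    have h5 : 2 * h * (k - m) ≤ e m := by
      rw [he0]
      omega
    omega
  rw [hb]
  refine ⟨?_, ?_, ?_, ?_⟩
  · rw [Fin.sum_cons]
    omega
  · intro m
    refine Fin.cases ?_ (fun j => ?_) m
    · rw [Fin.cons_zero]
      exact (Nat.even_sub (by omega)).2 ⟨fun _ => hs3, fun _ => hu⟩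
    · rw [Fin.cons_succ]
      exact he4 j
  · intro m
    refine Fin.cases ?_ (fun j => ?_) m
    · rw [Fin.cons_zero]
      omega
    · rw [Fin.cons_succ]
      have := he1 j
      omega
  · intro m m'
    refine Fin.cases ?_ (fun j => ?_) m'
    · intro h1
      exact absurd h1 (Fin.not_lt_zero m)
    · refine Fin.cases ?_ (fun i => ?_) m
      · intro _
        rw [Fin.cons_zero, Fin.cons_succ]
        have := he3 j
        omega
      · intro h1
        rw [Fin.cons_succ, Fin.cons_succ]
        exact hdec i j (Fin.succ_lt_succ_iff.1 h1)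

end Pool.Agent.MZG
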