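import Mathlib
import Pool.Agent.MZA.St
import Pool.Agent.MZA.Stf
import Pool.Agent.MZA.Zev
import Pool.Agent.MZA.Tup

set_option autoImplicit false

/-!
# MZG: every depth `r ≥ 3`, every weight (statements of the modules)
-/

namespace Pool.Agent.MZG

open Pool.Agent.Helper21 (mzv H zl Adm)
open Pool.Agent.MZA

/-- `ζ(a)` -/
noncomputable def z (a : ℕ) : ℝ := zl [a]

/-- the sum over injective maps -/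
noncomputable def J {k : ℕ} (x : Fin k → ℕ) : ℝ :=
  ∑' n : Fin k ↪ ℕ, ∏ i, (1 / ((n i : ℝ) + 1)) ^ (x i)

/-- MODULE J0 -/
def St_J0 : Prop := ∀ (k : ℕ) (x : Fin k → ℕ), (∀ i, 2 ≤ x i) →
  Summable (fun n : Fin k ↪ ℕ => ∏ i, (1 / ((n i : ℝ) + 1)) ^ (x i))

/-- MODULE J1: the sum over all orderings -/
def St_J1 : Prop := ∀ (k : ℕ) (x : Fin k → ℕ), (∀ i, 2 ≤ x i) →
  J x = ∑ σ : Equiv.Perm (Fin k), zl (List.ofFn (x ∘ σ))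

/-- MODULE J2: the product rule -/
def St_J2 : Prop := ∀ (k : ℕ) (x : Fin k → ℕ) (a : ℕ), (∀ i, 2 ≤ x i) → 2 ≤ a →
  J (Fin.cons a x : Fin (k + 1) → ℕ) = z a * J x - ∑ i, J (Function.update x i (x i + a))

/-- MODULE J3 (from J2, Zev) -/
def St_J3 : Prop := ∀ (k : ℕ) (x : Fin k → ℕ), (∀ i, 2 ≤ x i) → (∀ i, Even (x i)) →
  ∃ q : ℚ, J x = q * Real.pi ^ (∑ i, x i)

/-- `x + 2 * 1_S` -/
def sh {k : ℕ} (x : Fin k → ℕ) (S : Finset (Fin k)) : Fin k → ℕ :=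
  fun i => x i + if i ∈ S then 2 else 0

/-- all orderings of `n - ∑ x, x 0, x 1, ..` have their values in `V` -/
def Clean (V : Submodule ℚ ℝ) (n : ℕ) {k : ℕ} (x : Fin k → ℕ) : Prop :=
  ∀ σ : Equiv.Perm (Fin (k + 1)),
    zl (List.ofFn ((Fin.cons (n - ∑ i, x i) x : Fin (k + 1) → ℕ) ∘ σ)) ∈ V

/-- MODULE CUBE (from J1, J2) -/
def St_CUBE : Prop := ∀ (V : Submodule ℚ ℝ) (n k : ℕ) (x : Fin k → ℕ), (∀ i, 2 ≤ x i) →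
  ∑ i, x i + 2 * k + 2 ≤ n → (∀ S : Finset (Fin k), Clean V n (sh x S)) →
  ∑ S : Finset (Fin k), (-1 : ℝ) ^ S.card * (J (sh x S) * z (n - (∑ i, x i + 2 * S.card))) ∈ V

/-- MODULE EST (from J0) -/
def St_EST : Prop := ∀ K : ℕ, ∃ G : ℕ, ∀ x : Fin K → ℕ, (∀ m, G ≤ x m) →
  (∀ m m' : Fin K, m < m' → x m' + G ≤ x m) → ∀ j : Fin (K + 1), ∃ η : ℝ, |η| ≤ 1 / 10 ∧
  ∑ S : Finset (Fin K), (-(((j : ℕ) : ℝ) + 1) ^ 2) ^ S.card * J (sh x S) =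
    (∏ m : Fin K, (1 - (((j : ℕ) : ℝ) + 1) ^ 2 / (((j.succAbove m : ℕ) : ℝ) + 1) ^ 2)) *
      (∏ m : Fin K, (1 / (((j.succAbove m : ℕ) : ℝ) + 1)) ^ (x m)) * (1 + η)

/-- MODULE TROP -/
def St_TROP : Prop := ∀ (N : ℕ) (ρ : ℝ), 1 < ρ → ∃ C : ℕ, 0 < C ∧ Even C ∧
  ∀ (v B : Fin N → ℝ) (η : Fin N → Fin N → ℝ) (μ : Fin N → ℝ), (∀ j, 0 < v j) → (∀ j, B j ≠ 0) →
  (∀ j l, j ≠ l → ρ * v j ≤ v l ∨ ρ * v l ≤ v j) → (∀ i j, |η i j| ≤ 1 / 10) →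
  (∀ i : Fin N, ∑ j, B j * (v j) ^ (C * (i : ℕ)) * (1 + η i j) * μ j = 0) → ∀ j, μ j = 0

/-- the rows: the first entry goes up, the others go down -/
def row {k : ℕ} (C : ℕ) (b : Fin (k + 1) → ℕ) (i : ℕ) : Fin (k + 1) → ℕ :=
  fun m => if m = 0 then b m + k * C * i else b m - C * i

/-- MODULE DET (from EST, TROP) -/
def St_DET : Prop := ∀ k : ℕ, 1 ≤ k → ∃ C G : ℕ, 0 < C ∧ Even C ∧ ∀ b : Fin (k + 1) → ℕ,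
  (∀ m, G ≤ b m) → (∀ m m' : Fin (k + 1), m < m' → b m' + G ≤ b m) →
  ∀ lam : ℕ → ℝ, (∀ i : ℕ, i ≤ k + 1 → ∑ S : Finset (Fin (k + 1)),
    (-1 : ℝ) ^ S.card * (J (sh (row C b i) S) * lam S.card) = 0) → ∀ t, t ≤ k + 1 → lam t = 0

/-- MODULE GOOD (from CUBE, DET, J3, Zev); `G` can be taken larger -/
def St_GOOD : Prop := ∀ k : ℕ, 1 ≤ k → ∃ C G : ℕ, 0 < C ∧ Even C ∧
  ∀ (V : Submodule ℚ ℝ) (n : ℕ) (b : Fin (k + 1) → ℕ),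
  (∀ m, Even (b m)) → (∀ m, G ≤ b m) → (∀ m m' : Fin (k + 1), m < m' → b m' + G ≤ b m) →
  ∑ m, b m + 2 * k + 6 ≤ n → (∀ i : ℕ, i ≤ k + 1 → ∀ S, Clean V n (sh (row C b i) S)) →
  z (∑ m, b m) * z (n - ∑ m, b m) ∈ V

/-- the list form -/
noncomputable def JL (L : List ℕ) : ℝ := J L.get

/-- all lists in which one entry is increased by `a` -/
def bumps (a : ℕ) : List ℕ → List (List ℕ)
  | [] => []
  | b :: L => ((b + a) :: L) :: (bumps a L).map (fun w => b :: w)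

/-- MODULE JL (from J2) -/
def St_JL : Prop := ∀ (a : ℕ) (L : List ℕ), 2 ≤ a → (∀ y ∈ L, 2 ≤ y) →
  JL (a :: L) = z a * JL L - ((bumps a L).map JL).sum

/-- MODULE PERM -/
def St_PERM : Prop := (∀ L L' : List ℕ, L.Perm L' → JL L = JL L') ∧
  ∀ (k : ℕ) (x : Fin k → ℕ), JL (List.ofFn x) = J x

/-- `ζ(m) π^(n-m)` is in `V` -/
def Gd (V : Submodule ℚ ℝ) (n m : ℕ) : Prop := z m * Real.pi ^ (n - m) ∈ V

/-- MODULE ZN (from JL, Zev) -/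
def St_ZN : Prop := ∀ (V : Submodule ℚ ℝ) (n d : ℕ) (x : List ℕ), 2 ≤ d →
  (∀ y ∈ x, 2 ≤ y ∧ Even y) → x.sum + d = n →
  (∀ l : List ℕ, l.Sublist x → l.sum ≠ x.sum → Gd V n (d + l.sum)) →
  JL (x ++ [d]) ∈ V → z n ∈ V

/-- MODULE TT (from JL, Zev, `z a → 1`) -/
def St_TT : Prop := ∀ s : ℕ, ∃ L : ℕ, ∀ (V : Submodule ℚ ℝ) (n v₁ v₂ v₃ : ℕ) (x : List ℕ),
  x.length = s → (∀ y ∈ x, L ≤ y ∧ Even y) → L ≤ v₁ → L ≤ v₂ → L ≤ v₃ →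
  Odd v₁ → Odd v₂ → Odd v₃ → x.sum + (v₁ + v₂ + v₃) = n →
  (∀ l : List ℕ, l.Sublist x → Gd V n (v₁ + l.sum) ∧ Gd V n (v₂ + l.sum) ∧
    Gd V n (v₃ + l.sum) ∧ Gd V n (v₁ + v₂ + v₃ + l.sum)) →
  JL (x ++ [v₁, v₂, v₃]) ∈ V → ∃ T ∈ V, T ≠ 0 ∧ Real.pi ^ (2 * n) * T ∈ V * V * V

/-- words of weight `n` and depth `r` with value outside `V` -/
def Out (V : Submodule ℚ ℝ) (n r : ℕ) : Set (List ℕ) :=
  {w | w ∈ Idx n ∧ w.length = r ∧ zl w ∉ V}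

/-- MODULE F (counting) -/
def St_F : Prop := ∀ (V : Submodule ℚ ℝ) (n k N : ℕ) (T : Type) [Fintype T]
  (f : T → (Fin k → ℕ) → (Fin k → ℕ)),
  (∀ t p, (∀ i, 1 ≤ p i ∧ p i ≤ N) → (∀ i, 2 ≤ f t p i) ∧ ∑ i, f t p i + 2 ≤ n) →
  (∀ t p p', (∀ i, 1 ≤ p i ∧ p i ≤ N) → (∀ i, 1 ≤ p' i ∧ p' i ≤ N) → f t p = f t p' → p = p') →
  (∀ p, (∀ i, 1 ≤ p i ∧ p i ≤ N) → ∃ t, ¬ Clean V n (f t p)) →
  N ^ k ≤ (k + 1).factorial * Fintype.card T * (Out V n (k + 1)).ncard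

/-- the base of `u`: `k + 1` even entries of sum `u` which together determine `p` -/
def base {k : ℕ} (h : ℕ) (i₀ : Fin (k + 1)) (u : ℕ) (p : Fin (k + 1) → ℕ) : Fin (k + 1) → ℕ :=
  Fin.cons (u - ∑ m : Fin k, (2 * h * (k - m) + 2 * p (i₀.succAbove m)))
    (fun m : Fin k => 2 * h * (k - m) + 2 * p (i₀.succAbove m))

/-- MODULE BASE -/
def St_BASE : Prop := ∀ (k G h u : ℕ) (i₀ : Fin (k + 1)) (p : Fin (k + 1) → ℕ), 1 ≤ k → G ≤ h →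
  (∀ i, 2 * p i ≤ h) → Even u → 4 * (k + 1) ^ 2 * h ≤ u →
  ∑ m, base h i₀ u p m = u ∧ (∀ m, Even (base h i₀ u p m)) ∧ (∀ m, G ≤ base h i₀ u p m) ∧
    ∀ m m' : Fin (k + 1), m < m' → base h i₀ u p m' + G ≤ base h i₀ u p m

/-- the condition on `V` and `n` -/
def NP (V : Submodule ℚ ℝ) (n : ℕ) : Prop :=
  ∀ T ∈ V, T ≠ 0 → Real.pi ^ (2 * n) * T ∉ V * V * V

/-- MODULE ODD (from GOOD, ZN, TT, PERM, J1, F, BASE) -/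
def St_ODD : Prop := ∀ k : ℕ, 2 ≤ k → ∃ M n₀ : ℕ, 0 < M ∧ ∀ (V : Submodule ℚ ℝ) (n : ℕ), n₀ ≤ n →
  Odd n → NP V n → n ^ k ≤ M * (Out V n (k + 1)).ncard

/-- MODULE EVEN (from J3, J1, F) -/
def St_EVEN : Prop := ∀ k : ℕ, 2 ≤ k → ∃ M n₀ : ℕ, 0 < M ∧ ∀ (V : Submodule ℚ ℝ) (n : ℕ), n₀ ≤ n →
  Even n → NP V n → n ^ k ≤ M * (Out V n (k + 1)).ncard

end Pool.Agent.MZG
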