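import Mathlib
import Pool.Agent.MZG.Defs

set_option autoImplicit false

/-!
# MZG ODD: the configuration
-/

namespace Pool.Agent.MZG

open Finset

/-- the even entries -/
def ee {k : ℕ} (E : ℕ) (p : Fin k → ℕ) (i : Fin k) : ℕ := E + 2 * p i

/-- the triple tuple: the last two entries are odd -/
def yy {s : ℕ} (E : ℕ) (p : Fin (s + 2) → ℕ) (i : Fin (s + 2)) : ℕ :=
  ee E p i + if s ≤ (i : ℕ) then 1 else 0

/-- the even numbers `u` for which `z u * z (n - u) ∈ V` is needed -/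
def uu {k : ℕ} (n E : ℕ) (p : Fin k → ℕ) (c : Fin 3) (A : Finset (Fin k)) : ℕ :=
  if c = 0 then ∑ i ∈ A, ee E p i else if c = 1 then ∑ i ∈ A, ee E p i + 2
  else n - 1 - ∑ i ∈ A, ee E p i

/-- MODULE CONF (from ZN, TT, PERM, J1, Zev): one point `p` -/
def St_CONF : Prop := ∀ s : ℕ, ∃ L : ℕ, ∀ (V : Submodule ℚ ℝ) (n E : ℕ) (p : Fin (s + 2) → ℕ),
  Odd n → Even E → L ≤ E → ∑ i, ee E p i + 2 + L ≤ n → NP V n →
  (∀ (c : Fin 3) (A : Finset (Fin (s + 2))), A.Nonempty →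
    z (uu n E p c A) * z (n - uu n E p c A) ∈ V) →
  Clean V n (ee E p) → Clean V n (yy E p) → False

end Pool.Agent.MZG
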