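import Mathlib
import Pool.Agent.MZG.Defs
import Pool.Agent.MZG.OddDefs
import Pool.Agent.MZA.Zev

set_option autoImplicit false

/-!
# MZG CONF: one configuration (from ZN, TT, PERM, J1, Zev)
-/

namespace Pool.Agent.MZG

open Finset
open Pool.Agent.Helper21 (mzv H zl Adm)
open Pool.Agent.MZA

namespace ConfAux

/-- the sum of a sublist -/
theorem sub_ofFn : ∀ (k : ℕ) (f : Fin k → ℕ) (l : List ℕ), l.Sublist (List.ofFn f) →
    ∃ A : Finset (Fin k), l.sum = ∑ i ∈ A, f i := by
  intro k
  induction k with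
  | zero =>
    intro f l hl
    rw [List.ofFn_zero] at hl
    have h := List.sublist_nil.1 hl
    subst h
    exact ⟨∅, by simp⟩
  | succ k ih =>
    intro f l hl
    rw [List.ofFn_succ] at hl
    rcases List.sublist_cons_iff.1 hl with h | ⟨r, hr, h⟩
    · obtain ⟨A, hA⟩ := ih _ l h
      exact ⟨A.map (Fin.succEmb k), by rw [hA, Finset.sum_map]; rfl⟩
    · obtain ⟨A, hA⟩ := ih _ r h
      subst hr
      refine ⟨insert 0 (A.map (Fin.succEmb k)), ?_⟩
      have h0 : (0 : Fin (k + 1)) ∉ A.map (Fin.succEmb k) := by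
        intro h1
        obtain ⟨a, -, ha⟩ := Finset.mem_map.1 h1
        exact Fin.succ_ne_zero a ha
      rw [List.sum_cons, hA, Finset.sum_insert h0, Finset.sum_map]
      rfl

theorem gd_of {V : Submodule ℚ ℝ} {n u m : ℕ} (hu : Even u) (h2 : 2 ≤ u) (hm : m + u = n)
    (h : z u * z (n - u) ∈ V) : Gd V n m := by
  obtain ⟨j, hj⟩ := hu
  obtain ⟨q, hq, hqz⟩ := thm_Zev j (by omega)
  have e1 : n - u = m := by omega
  have e2 : n - m = u := by omega
  have e3 : z u = q * Real.pi ^ u := by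
    have : u = 2 * j := by omega
    rw [this]
    exact hqz
  have hq0 : (q : ℝ) ≠ 0 := by exact_mod_cast hq.ne'
  have h3 := V.smul_mem (q⁻¹) h
  unfold Gd
  rw [e2]
  rw [e1, e3, Rat.smul_def] at h3
  have e4 : ((q⁻¹ : ℚ) : ℝ) * ((q : ℝ) * Real.pi ^ u * z m) = z m * Real.pi ^ u := by
    push_cast
    field_simp
  rwa [e4] at h3

theorem jc (hJ1 : St_J1) (hP : St_PERM) {V : Submodule ℚ ℝ} {n k : ℕ} {x : Fin k → ℕ}
    (hx : ∀ i, 2 ≤ x i) (hd : 2 ≤ n - ∑ i, x i) (hc : Clean V n x) :
    JL (List.ofFn x ++ [n - ∑ i, x i]) ∈ V := by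
  have h1 : (List.ofFn x ++ [n - ∑ i, x i]).Perm
      (List.ofFn (Fin.cons (n - ∑ i, x i) x : Fin (k + 1) → ℕ)) := by
    rw [List.ofFn_succ]
    simp only [Fin.cons_zero, Fin.cons_succ]
    exact List.perm_append_singleton _ _
  rw [hP.1 _ _ h1, hP.2, hJ1]
  · exact Submodule.sum_mem V fun σ _ => hc σ
  · intro i
    refine Fin.cases ?_ (fun i => ?_) i
    · simpa using hd
    · simpa using hx i

end ConfAux

open ConfAux in
theorem CONF (hJ1 : St_J1) (hP : St_PERM) (hZN : St_ZN) (hTT : St_TT) : St_CONF := by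
  classical
  intro s
  obtain ⟨L, hL⟩ := hTT s
  refine ⟨L + 2, fun V n E p hn hE hLE hsum hNP hz hc1 hc2 => ?_⟩
  set e : Fin (s + 2) → ℕ := ee E p with he
  have hev : ∀ i, Even (e i) := fun i => by
    obtain ⟨q, hq⟩ := hE
    exact ⟨q + p i, by simp only [he, ee]; omega⟩
  have hge : ∀ i, L + 2 ≤ e i := fun i => by
    simp only [he, ee]
    omega
  have hsev : ∀ A : Finset (Fin (s + 2)), Even (∑ i ∈ A, e i) := fun A => by
    rw [Finset.even_sum_iff_even_card_odd]
    have : A.filter (fun i => Odd (e i)) = ∅ := by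
      rw [Finset.filter_eq_empty_iff]
      intro i _ h
      exact (Nat.not_odd_iff_even.2 (hev i)) h
    rw [this]
    simp
  have hsle : ∀ A : Finset (Fin (s + 2)), ∑ i ∈ A, e i ≤ ∑ i, e i := fun A =>
    Finset.sum_le_sum_of_subset (Finset.subset_univ A)
  have hsge : ∀ A : Finset (Fin (s + 2)), A.Nonempty → 2 ≤ ∑ i ∈ A, e i := by
    rintro A ⟨a, ha⟩
    have h1 := Finset.single_le_sum (f := e) (fun i _ => Nat.zero_le _) ha
    have h2 := hge a
    omega
  have hnodd := Nat.odd_iff.1 hn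
  have hg0 : ∀ A : Finset (Fin (s + 2)), A.Nonempty → ∀ m, m + ∑ i ∈ A, e i = n → Gd V n m := by
    intro A hA m hm
    have h1 := hz 0 A hA
    have h2 : uu n E p 0 A = ∑ i ∈ A, e i := by
      unfold uu
      rw [if_pos rfl]
    rw [h2] at h1
    exact gd_of (hsev A) (hsge A hA) hm h1
  have hg1 : ∀ A : Finset (Fin (s + 2)), A.Nonempty → ∀ m, m + (∑ i ∈ A, e i + 2) = n → Gd V n m := by
    intro A hA m hm
    have h1 := hz 1 A hA
    have h2 : uu n E p 1 A = ∑ i ∈ A, e i + 2 := by
      unfold uu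
      rw [if_neg (by decide), if_pos rfl]
    rw [h2] at h1
    exact gd_of ((hsev A).add (by decide)) (by omega) hm h1
  have hg2 : ∀ A : Finset (Fin (s + 2)), A.Nonempty → Gd V n (1 + ∑ i ∈ A, e i) := by
    intro A hA
    have h1 := hz 2 A hA
    have h2 : uu n E p 2 A = n - 1 - ∑ i ∈ A, e i := by
      unfold uu
      rw [if_neg (by decide), if_neg (by decide)]
    rw [h2] at h1
    have h3 := hsle A
    have h4 := Nat.even_iff.1 (hsev A)
    refine gd_of (u := n - 1 - ∑ i ∈ A, e i) (Nat.even_iff.2 (by omega)) (by omega) (by omega) h1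
  -- `z n`
  have hzn : z n ∈ V := by
    refine hZN V n (n - ∑ i, e i) (List.ofFn e) (by omega) ?_ ?_ ?_ ?_
    · intro y hy
      obtain ⟨i, rfl⟩ := (List.mem_ofFn' e y).1 hy
      have := hge i
      exact ⟨by omega, hev i⟩
    · rw [List.sum_ofFn]
      omega
    · intro l hl hne
      obtain ⟨A, hA⟩ := sub_ofFn _ _ _ hl
      rw [List.sum_ofFn, hA] at hne
      have h1 := Finset.sum_add_sum_compl A e
      have hne2 : (Aᶜ).Nonempty := by
        by_contra h
        rw [Finset.not_nonempty_iff_eq_empty] at h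
        rw [h, Finset.sum_empty, add_zero] at h1
        exact hne h1
      refine hg0 Aᶜ hne2 _ ?_
      rw [hA]
      omega
    · exact jc hJ1 hP (fun i => by have := hge i; omega) (by omega) hc1
  -- the triple tuple
  set i1 : Fin (s + 2) := Fin.natAdd s (0 : Fin 2) with hi1
  set i2 : Fin (s + 2) := Fin.natAdd s (1 : Fin 2) with hi2
  have hi12 : i1 ≠ i2 := by
    intro h
    have := congrArg Fin.val h
    simp [hi1, hi2] at this
  set x : List ℕ := List.ofFn (fun i : Fin s => e (Fin.castAdd 2 i)) with hx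
  have hsplit : ∑ i, e i = ∑ i : Fin s, e (Fin.castAdd 2 i) + (e i1 + e i2) := by
    rw [Fin.sum_univ_add, Fin.sum_univ_two]
  have hxsum : x.sum = ∑ i : Fin s, e (Fin.castAdd 2 i) := List.sum_ofFn
  have hyy1 : ∀ i : Fin s, yy E p (Fin.castAdd 2 i) = e (Fin.castAdd 2 i) := fun i => by
    unfold yy
    rw [if_neg (by simp), add_zero]
  have hyy2 : ∀ j : Fin 2, yy E p (Fin.natAdd s j) = e (Fin.natAdd s j) + 1 := fun j => by
    unfold yy
    rw [if_pos (by simp)]
  have hysum : ∑ i, yy E p i = ∑ i, e i + 2 := by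
    rw [hsplit, Fin.sum_univ_add, Fin.sum_univ_two]
    simp only [hyy1, hyy2]
    change ∑ i : Fin s, e (Fin.castAdd 2 i) + (e i1 + 1 + (e i2 + 1)) =
      ∑ i : Fin s, e (Fin.castAdd 2 i) + (e i1 + e i2) + 2
    omega
  have hyofn : List.ofFn (yy E p) = x ++ [e i1 + 1, e i2 + 1] := by
    rw [List.ofFn_add]
    congr 1
    · exact congrArg List.ofFn (funext hyy1)
    · rw [show (fun j : Fin 2 => yy E p (Fin.natAdd s j)) = fun j => e (Fin.natAdd s j) + 1 from
        funext hyy2]
      simp [List.ofFn_succ, hi1, hi2]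
  have he1 := Nat.even_iff.1 (hev i1)
  have he2 := Nat.even_iff.1 (hev i2)
  have hse := Nat.even_iff.1 (hsev univ)
  have hge1 := hge i1
  have hge2 := hge i2
  have hA' : ∀ A : Finset (Fin s), ∑ i ∈ A.map (Fin.castAddEmb 2), e i =
      ∑ i ∈ A, e (Fin.castAdd 2 i) := fun A => by
    rw [Finset.sum_map]
    rfl
  have hnot1 : ∀ A : Finset (Fin s), ∀ j : Fin 2, Fin.natAdd s j ∉ A.map (Fin.castAddEmb 2) := by
    intro A j h
    obtain ⟨a, -, ha⟩ := Finset.mem_map.1 h
    have h1 := congrArg Fin.val ha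
    have h2 := a.2
    simp at h1
    omega
  obtain ⟨T, hTV, hT0, hT⟩ := hL V n (e i1 + 1) (e i2 + 1) (n - (∑ i, e i + 2)) x
    (by rw [hx, List.length_ofFn]) (by
      intro y hy
      obtain ⟨i, rfl⟩ := (List.mem_ofFn' _ y).1 hy
      have := hge (Fin.castAdd 2 i)
      exact ⟨by change L ≤ e (Fin.castAdd 2 i); omega, hev _⟩) (by omega) (by omega) (by omega)
    (Nat.odd_iff.2 (by omega)) (Nat.odd_iff.2 (by omega)) (Nat.odd_iff.2 (by omega))
    (by rw [hxsum]; omega) (by
      intro l hl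
      obtain ⟨A, hA⟩ := sub_ofFn _ _ _ hl
      have hlA : l.sum = ∑ i ∈ A.map (Fin.castAddEmb 2), e i := by
        rw [hA, hA']
      refine ⟨?_, ?_, ?_, ?_⟩
      · have h1 := hg2 (insert i1 (A.map (Fin.castAddEmb 2))) (Finset.insert_nonempty _ _)
        rw [Finset.sum_insert (hnot1 A 0)] at h1
        have h2 : e i1 + 1 + l.sum = 1 + (e i1 + ∑ i ∈ A.map (Fin.castAddEmb 2), e i) := by
          rw [hlA]
          ring
        rw [h2]
        exact h1
      · have h1 := hg2 (insert i2 (A.map (Fin.castAddEmb 2))) (Finset.insert_nonempty _ _)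
        rw [Finset.sum_insert (hnot1 A 1)] at h1
        have h2 : e i2 + 1 + l.sum = 1 + (e i2 + ∑ i ∈ A.map (Fin.castAddEmb 2), e i) := by
          rw [hlA]
          ring
        rw [h2]
        exact h1
      · have h3 := Finset.sum_add_sum_compl (A.map (Fin.castAddEmb 2)) e
        refine hg1 (A.map (Fin.castAddEmb 2))ᶜ ⟨i1, Finset.mem_compl.2 (hnot1 A 0)⟩ _ ?_
        rw [hlA]
        omega
      · have h3 := Finset.sum_add_sum_compl A (fun i => e (Fin.castAdd 2 i))
        by_cases hAc : (Aᶜ).Nonempty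
        · refine hg0 (Aᶜ.map (Fin.castAddEmb 2)) (hAc.map) _ ?_
          rw [hA' Aᶜ, hA]
          omega
        · rw [Finset.not_nonempty_iff_eq_empty] at hAc
          rw [hAc, Finset.sum_empty, add_zero] at h3
          have h4 : e i1 + 1 + (e i2 + 1) + (n - (∑ i, e i + 2)) + l.sum = n := by
            rw [hA]
            omega
          rw [h4]
          unfold Gd
          rw [Nat.sub_self, pow_zero, mul_one]
          exact hzn) (by
      have h1 := jc hJ1 hP (x := yy E p) (n := n) (V := V) (fun i => by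
        have h9 : L + 2 ≤ ee E p i := hge i
        unfold yy
        omega) (by rw [hysum]; omega) hc2
      rw [hyofn, hysum, List.append_assoc] at h1
      exact h1)
  exact hNP T hTV hT0 hT

end Pool.Agent.MZG
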