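import Pool.Agent.MZG.Defs
import Pool.Agent.TRO.Cube

/-!
# MZG: CUBE
-/

set_option autoImplicit false

namespace Pool.Agent.MZG

open Pool.Agent.Helper21 (mzv H zl Adm)
open Pool.Agent.MZA

theorem up_eq_sh {k : ℕ} (x : Fin k → ℕ) (S : Finset (Fin k)) :
    Pool.Agent.TRO.up x S = sh x S := by
  funext i
  unfold Pool.Agent.TRO.up sh
  split_ifs <;> rfl

theorem sum_sh {k : ℕ} (x : Fin k → ℕ) (S : Finset (Fin k)) :
    ∑ i, sh x S i = ∑ i, x i + 2 * S.card := by
  unfold sh
  rw [Finset.sum_add_distrib, Finset.sum_ite_mem, Finset.univ_inter, Finset.sum_const, smul_eq_mul,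
    mul_comm]

theorem CUBE (hJ1 : St_J1) (hJ2 : St_J2) : St_CUBE := by
  intro V n k x hx hn hC
  have hcard : ∀ S : Finset (Fin k), S.card ≤ k := fun S => by
    have := Finset.card_le_univ S
    simpa using this
  have h2 : ∀ (S : Finset (Fin k)) i, 2 ≤ sh x S i := by
    intro S i
    have := hx i
    unfold sh
    omega
  have hmem : ∀ S : Finset (Fin k),
      J (Fin.cons (n - ∑ i, x i - 2 * S.card) (sh x S) : Fin (k + 1) → ℕ) ∈ V := by
    intro S
    have hle := hcard S
    have e1 : n - ∑ i, x i - 2 * S.card = n - ∑ i, sh x S i := by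
      rw [sum_sh]
      omega
    rw [e1, hJ1 (k + 1) _ (by
      intro i
      refine Fin.cases ?_ (fun i => ?_) i
      · rw [Fin.cons_zero, sum_sh]
        omega
      · rw [Fin.cons_succ]
        exact h2 S i)]
    exact V.sum_mem fun σ _ => hC S σ
  have hcube := Pool.Agent.TRO.cube (k := k) (J1 := fun y => J y) (J0 := fun y => J y) (z := z)
    (fun c y hc hy => hJ2 k y c hy hc) (n - ∑ i, x i) x (by omega) hx
  have hsum : ∑ S : Finset (Fin k), (-1 : ℝ) ^ S.card *
      J (Fin.cons (n - ∑ i, x i - 2 * S.card) (sh x S) : Fin (k + 1) → ℕ) ∈ V := by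
    refine V.sum_mem fun S _ => ?_
    have h3 := V.smul_mem ((-1 : ℚ) ^ S.card) (hmem S)
    have h4 : ((-1 : ℚ) ^ S.card) •
        J (Fin.cons (n - ∑ i, x i - 2 * S.card) (sh x S) : Fin (k + 1) → ℕ) =
        (-1 : ℝ) ^ S.card *
        J (Fin.cons (n - ∑ i, x i - 2 * S.card) (sh x S) : Fin (k + 1) → ℕ) := by
      rw [Rat.smul_def]
      push_cast
      rfl
    rwa [h4] at h3
  simp only [up_eq_sh] at hcube
  rw [hcube] at hsum
  have h5 : ∑ S : Finset (Fin k), (-1 : ℝ) ^ S.card *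
      (J (sh x S) * z (n - (∑ i, x i + 2 * S.card))) =
      ∑ S : Finset (Fin k), (-1 : ℝ) ^ S.card *
      (z (n - ∑ i, x i - 2 * S.card) * J (sh x S)) := by
    refine Finset.sum_congr rfl fun S _ => ?_
    rw [Nat.sub_sub, mul_comm (J _)]
  rw [h5]
  exact hsum

end Pool.Agent.MZG
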