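import Mathlib
import Pool.Agent.MZG.Defs
import Pool.Agent.TRO.Mat

/-!
# MZG DET: the rows determine the unknowns (from EST)
-/

set_option autoImplicit false

namespace Pool.Agent.MZG

open Finset Pool.Agent.TRO

theorem mm_succAbove {K : ℕ} (j : Fin (K + 1)) (m : Fin K) :
    (mm ((j : ℕ) + 1) (m : ℕ) : ℝ) = ((j.succAbove m : ℕ) : ℝ) + 1 := by
  have h : mm ((j : ℕ) + 1) (m : ℕ) = (j.succAbove m : ℕ) + 1 := by
    unfold mm
    rcases lt_or_ge m.castSucc j with h | h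
    · rw [Fin.succAbove_of_castSucc_lt _ _ h, if_pos (by
        have : (m : ℕ) < j := h
        omega)]
      rfl
    · rw [Fin.succAbove_of_le_castSucc _ _ h, if_neg (by
        have : (j : ℕ) ≤ m := h
        omega)]
      rfl
  rw [h]
  push_cast
  ring

theorem mainT_succAbove {K : ℕ} (j : Fin (K + 1)) (x : Fin K → ℕ) :
    mainT K ((j : ℕ) + 1) x =
      (∏ m : Fin K, (1 - (((j : ℕ) : ℝ) + 1) ^ 2 / (((j.succAbove m : ℕ) : ℝ) + 1) ^ 2)) *
      (∏ m : Fin K, (1 / (((j.succAbove m : ℕ) : ℝ) + 1)) ^ (x m)) := by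
  rw [mainT_eq]
  unfold BB WW
  simp only [mm_succAbove]
  push_cast
  rfl

theorem DET (hE : St_EST) : St_DET := by
  intro k hk
  obtain ⟨G₁, h₁⟩ := mat k hk
  obtain ⟨G₂, h₂⟩ := hE (k + 1)
  obtain ⟨C, hC⟩ : ∃ C, C = 2 * (G₁ + 1) := ⟨_, rfl⟩
  refine ⟨C, G₂ + C * (k + 1), by omega, ⟨G₁ + 1, by omega⟩, ?_⟩
  intro b hb1 hb2 lam hlam
  obtain ⟨x, hx⟩ : ∃ x : Fin (k + 2) → Fin (k + 1) → ℕ, ∀ i, x i = row C b (k + 1 - i) :=
    ⟨_, fun _ => rfl⟩
  have hCi : ∀ i : ℕ, i ≤ k + 1 → C * i ≤ C * (k + 1) := fun i hi => Nat.mul_le_mul_left _ hi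
  have hrow0 : ∀ i, row C b i 0 = b 0 + k * C * i := fun i => by
    unfold row
    rw [if_pos rfl]
  have hrow1 : ∀ i m, m ≠ 0 → row C b i m = b m - C * i := fun i m hm => by
    unfold row
    rw [if_neg hm]
  have hr1 : ∀ i, i ≤ k + 1 → ∀ m, G₂ ≤ row C b i m := by
    intro i hi m
    by_cases hm : m = 0
    · rw [hm, hrow0]
      have := hb1 0
      omega
    · rw [hrow1 _ _ hm]
      have := hb1 m
      have := hCi i hi
      omega
  have hr2 : ∀ i, i ≤ k + 1 → ∀ m m' : Fin (k + 1), m < m' →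
      row C b i m' + G₂ ≤ row C b i m := by
    intro i hi m m' hmm
    have h3 := hb2 m m' hmm
    have hm' : m' ≠ 0 := fun h => by
      rw [h] at hmm
      exact absurd hmm (Fin.not_lt_zero m)
    have h4 := hCi i hi
    have h5 := hb1 m'
    rw [hrow1 _ _ hm']
    by_cases hm : m = 0
    · rw [hm] at h3 ⊢
      rw [hrow0]
      omega
    · rw [hrow1 _ _ hm]
      omega
  have hdet := h₁ x (by
    intro i i' hii l hl
    rw [hx, hx, hrow1 _ _ hl, hrow1 _ _ hl]
    have h3 : (i : ℕ) < i' := hii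
    have h4 := i'.isLt
    have h5 : C * (k + 1 - i') + C ≤ C * (k + 1 - i) := by
      rw [← Nat.mul_succ]
      exact Nat.mul_le_mul_left _ (by omega)
    have h6 := hCi (k + 1 - i) (by omega)
    have h7 := hb1 l
    omega) (by
    intro i i'
    have key : ∀ a, a ≤ k + 1 → ∑ l, row C b a l = ∑ l, b l := by
      intro a ha
      rw [Fin.sum_univ_succ, Fin.sum_univ_succ, hrow0]
      have h3 : ∑ l : Fin k, row C b a l.succ + k * (C * a) = ∑ l : Fin k, b l.succ := by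
        have e : k * (C * a) = ∑ _l : Fin k, C * a := by simp
        rw [e, ← sum_add_distrib]
        refine sum_congr rfl fun l _ => ?_
        rw [hrow1 _ _ (Fin.succ_ne_zero l)]
        have h6 := hCi a ha
        have h7 := hb1 l.succ
        omega
      rw [← h3]
      ring
    rw [hx, hx, key _ (by omega), key _ (by omega)])
    (fun i j => ∑ S : Finset (Fin (k + 1)), (-(((j : ℕ) : ℝ) + 1) ^ 2) ^ S.card * J (sh (x i) S))
    (by
      intro i j
      obtain ⟨η, hη, he⟩ := h₂ (x i) (by rw [hx]; exact hr1 _ (by omega))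
        (by rw [hx]; exact hr2 _ (by omega)) j
      rw [he, ← mainT_succAbove, mul_add, mul_one, add_sub_cancel_left, abs_mul, mul_comm]
      exact mul_le_mul_of_nonneg_right (by linarith) (abs_nonneg _))
  obtain ⟨g, hg⟩ : ∃ g : Finset (Fin (k + 1)) → Fin (k + 2), ∀ S, ((g S : Fin (k + 2)) : ℕ) = S.card :=
    ⟨fun S => ⟨S.card, by
      have := card_finset_fin_le S
      omega⟩, fun _ => rfl⟩
  obtain ⟨cm, hcm⟩ : ∃ cm : Matrix (Fin (k + 2)) (Fin (k + 2)) ℝ, ∀ i s, cm i s =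
      ∑ S ∈ univ.filter (fun S => g S = s), (-1 : ℝ) ^ S.card * J (sh (x i) S) :=
    ⟨fun i s => ∑ S ∈ univ.filter (fun S => g S = s), (-1 : ℝ) ^ S.card * J (sh (x i) S),
      fun _ _ => rfl⟩
  have hfib : ∀ (i : Fin (k + 2)) (u : ℕ → ℝ), ∑ s : Fin (k + 2), cm i s * u s =
      ∑ S : Finset (Fin (k + 1)), (-1 : ℝ) ^ S.card * (J (sh (x i) S) * u S.card) := by
    intro i u
    rw [← sum_fiberwise univ g]
    refine sum_congr rfl fun s _ => ?_
    rw [hcm, sum_mul]
    refine sum_congr rfl fun S hS => ?_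
    rw [mem_filter] at hS
    have h3 := hg S
    rw [hS.2] at h3
    rw [h3]
    ring
  have hmul : (Matrix.of fun i j : Fin (k + 2) => ∑ S : Finset (Fin (k + 1)),
      (-(((j : ℕ) : ℝ) + 1) ^ 2) ^ S.card * J (sh (x i) S)) =
      cm * Matrix.of fun s j : Fin (k + 2) => ((((j : ℕ) : ℝ) + 1) ^ 2) ^ (s : ℕ) := by
    ext i j
    rw [Matrix.mul_apply, Matrix.of_apply]
    simp only [Matrix.of_apply]
    rw [hfib i (fun s => ((((j : ℕ) : ℝ) + 1) ^ 2) ^ s)]
    refine sum_congr rfl fun S _ => ?_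
    rw [neg_pow]
    ring
  rw [hmul, Matrix.det_mul] at hdet
  have hcdet : cm.det ≠ 0 := left_ne_zero_of_mul hdet
  have hz : cm.mulVec (fun s => lam s) = 0 := by
    funext i
    show ∑ s : Fin (k + 2), cm i s * lam s = 0
    rw [hfib i lam, hx]
    exact hlam (k + 1 - i) (by omega)
  have h0 := Matrix.eq_zero_of_mulVec_eq_zero hcdet hz
  intro t ht
  exact congrFun h0 ⟨t, by omega⟩

end Pool.Agent.MZG
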