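import Pool.Agent.MZG.Defs
import Pool.Agent.EDW.Est

set_option autoImplicit false

/-!
# MZG EST: the entries of the matrix
-/

namespace Pool.Agent.MZG

open Finset Filter
open Pool.Agent.EDW

namespace EstAux

/-- the injective maps with values less than `N` -/
noncomputable def FN (K N : ℕ) : Finset (Fin K ↪ ℕ) :=
  open Classical in
  ((Fintype.piFinset fun _ : Fin K => range N).filter Function.Injective).attach.map
    ⟨fun f => ⟨f.1, (Finset.mem_filter.1 f.2).2⟩, fun f g h => Subtype.ext (by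
      have h1 := congrArg (fun e : Fin K ↪ ℕ => (e : Fin K → ℕ)) h
      exact h1)⟩

theorem mem_FN (K N : ℕ) (n : Fin K ↪ ℕ) : n ∈ FN K N ↔ ∀ i, n i < N := by
  classical
  unfold FN
  rw [Finset.mem_map]
  constructor
  · rintro ⟨f, -, rfl⟩ i
    have h := (Finset.mem_filter.1 f.2).1
    rw [Fintype.mem_piFinset] at h
    exact Finset.mem_range.1 (h i)
  · intro h
    refine ⟨⟨n, ?_⟩, Finset.mem_attach _ _, ?_⟩
    · rw [Finset.mem_filter, Fintype.mem_piFinset]
      exact ⟨fun i => Finset.mem_range.2 (h i), n.injective⟩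
    · ext i
      rfl

theorem sum_FN (K j N : ℕ) (x : Fin K → ℕ) : ∑ n ∈ FN K N, tm K j x n = PN K j N x := by
  classical
  unfold FN PN
  rw [Finset.sum_map]
  exact Finset.sum_attach ((Fintype.piFinset fun _ : Fin K => range N).filter Function.Injective)
    (fun f => tm K j x f)

theorem tend_FN (K : ℕ) : Tendsto (FN K) atTop atTop := by
  refine tendsto_atTop_finset_of_monotone ?_ ?_
  · intro N N' h n hn
    rw [mem_FN] at hn ⊢
    exact fun i => lt_of_lt_of_le (hn i) h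
  · intro n
    refine ⟨(Finset.univ.sup fun i => n i) + 1, ?_⟩
    rw [mem_FN]
    intro i
    exact Nat.lt_succ_of_le (Finset.le_sup (f := fun i => n i) (Finset.mem_univ i))

/-- the product expanded -/
theorem tm_eq (K j : ℕ) (x : Fin K → ℕ) (n : Fin K ↪ ℕ) : tm K j x n =
    ∑ S : Finset (Fin K), (-((j : ℝ)) ^ 2) ^ S.card * ∏ i, (1 / ((n i : ℝ) + 1)) ^ (sh x S i) := by
  classical
  have h1 : ∀ S : Finset (Fin K), ∏ i, (1 / ((n i : ℝ) + 1)) ^ (sh x S i) =
      (∏ i, (1 / ((n i : ℝ) + 1)) ^ x i) * ∏ i ∈ S, (1 / ((n i : ℝ) + 1)) ^ 2 := by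
    intro S
    have h2 : ∏ i ∈ S, (1 / ((n i : ℝ) + 1)) ^ 2 =
        ∏ i, (if i ∈ S then (1 / ((n i : ℝ) + 1)) ^ 2 else 1) := by
      rw [Finset.prod_ite_mem, Finset.univ_inter]
    rw [h2, ← Finset.prod_mul_distrib]
    refine Finset.prod_congr rfl fun i _ => ?_
    unfold sh
    split_ifs
    · rw [pow_add]
    · rw [add_zero, mul_one]
  have h3 : tm K j x n = (∏ i, (1 / ((n i : ℝ) + 1)) ^ x i) *
      ∏ i : Fin K, (1 + -((j : ℝ)) ^ 2 * (1 / ((n i : ℝ) + 1)) ^ 2) := by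
    unfold tm
    rw [← Finset.prod_mul_distrib]
    refine Finset.prod_congr rfl fun i _ => ?_
    congr 1
    rw [one_div_pow]
    ring
  rw [h3, Finset.prod_one_add, Finset.mul_sum]
  rw [Finset.powerset_univ]
  refine Finset.sum_congr rfl fun S _ => ?_
  rw [h1, Finset.prod_mul_distrib, Finset.prod_const]
  ring

end EstAux

open EstAux

/-- EST -/
theorem EST (hJ0 : St_J0) : St_EST := by
  classical
  intro K
  have h : ∀ j : Fin (K + 1), ∃ G : ℕ, ∀ x : Fin K → ℕ, (∀ i, G ≤ x i) →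
      (∀ i i' : Fin K, i < i' → x i' + G ≤ x i) → ∀ N, K + 2 ≤ N →
        |PN K ((j : ℕ) + 1) N x - tm K ((j : ℕ) + 1) x (f0 K ((j : ℕ) + 1))| ≤
          1 / 10 * |tm K ((j : ℕ) + 1) x (f0 K ((j : ℕ) + 1))| :=
    fun j => est K ((j : ℕ) + 1) (by omega) (1 / 10) (by norm_num)
  choose G hG using h
  refine ⟨(Finset.univ.sup G) + 2, fun x hx1 hx2 j => ?_⟩
  have hGj : G j ≤ (Finset.univ.sup G) + 2 :=
    (Finset.le_sup (f := G) (Finset.mem_univ j)).trans (Nat.le_add_right _ _)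
  have hb := hG j x (fun i => hGj.trans (hx1 i))
    (fun i i' hii => (Nat.add_le_add_left hGj _).trans (hx2 i i' hii))
  have hcast : (((j : ℕ) + 1 : ℕ) : ℝ) = ((j : ℕ) : ℝ) + 1 := by push_cast; ring
  have hsum : ∀ S : Finset (Fin K), Summable (fun n : Fin K ↪ ℕ =>
      ∏ i, (1 / ((n i : ℝ) + 1)) ^ (sh x S i)) := by
    intro S
    refine hJ0 K (sh x S) fun i => ?_
    have := hx1 i
    unfold sh
    omega
  have htm : HasSum (fun n : Fin K ↪ ℕ => tm K ((j : ℕ) + 1) x n)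
      (∑ S : Finset (Fin K), (-(((j : ℕ) : ℝ) + 1) ^ 2) ^ S.card * J (sh x S)) := by
    have h1 : (fun n : Fin K ↪ ℕ => tm K ((j : ℕ) + 1) x n) = fun n =>
        ∑ S : Finset (Fin K), (-(((j : ℕ) : ℝ) + 1) ^ 2) ^ S.card *
          ∏ i, (1 / ((n i : ℝ) + 1)) ^ (sh x S i) := by
      funext n
      rw [tm_eq, hcast]
    rw [h1]
    refine hasSum_sum fun S _ => ?_
    exact (hsum S).hasSum.mul_left _
  set P : ℝ := ∑ S : Finset (Fin K), (-(((j : ℕ) : ℝ) + 1) ^ 2) ^ S.card * J (sh x S) with hP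
  set A : ℝ := tm K ((j : ℕ) + 1) x (f0 K ((j : ℕ) + 1)) with hA
  have hlim : Tendsto (fun N => PN K ((j : ℕ) + 1) N x) atTop (nhds P) := by
    have h1 := htm.comp (tend_FN K)
    refine h1.congr fun N => ?_
    exact sum_FN K ((j : ℕ) + 1) N x
  have hPA : |P - A| ≤ 1 / 10 * |A| := by
    refine le_of_tendsto ((hlim.sub_const A).abs) ?_
    filter_upwards [eventually_ge_atTop (K + 2)] with N hN
    exact hb N hN
  have hA0 : A ≠ 0 := by
    have h1 := tm_f0 K ((j : ℕ) + 1) x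
    have h2 := cj_pos K ((j : ℕ) + 1)
    have h3 : 0 < ∏ i : Fin K, (1 / (mm ((j : ℕ) + 1) i : ℝ)) ^ x i := by
      refine Finset.prod_pos fun i _ => ?_
      have : (0 : ℝ) < (mm ((j : ℕ) + 1) i : ℝ) := by exact_mod_cast mm_pos _ _
      positivity
    have h4 : 0 < |A| := by
      rw [hA, h1]
      exact mul_pos h3 h2
    exact abs_pos.1 h4
  have hmm : ∀ m : Fin K, (((j.succAbove m : Fin (K + 1)) : ℕ) : ℝ) + 1 =
      (mm ((j : ℕ) + 1) m : ℝ) := by
    intro m
    have h1 : ((j.succAbove m : Fin (K + 1)) : ℕ) + 1 = mm ((j : ℕ) + 1) m := by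
      unfold mm
      rcases Nat.lt_or_ge (m : ℕ) (j : ℕ) with h | h
      · rw [Fin.succAbove_of_castSucc_lt _ _ (by
          rw [Fin.lt_def]
          exact h), if_pos (by omega)]
        rfl
      · rw [Fin.succAbove_of_le_castSucc _ _ (by
          rw [Fin.le_def]
          exact h), if_neg (by omega)]
        rfl
    exact_mod_cast h1
  have hmain : (∏ m : Fin K, (1 - (((j : ℕ) : ℝ) + 1) ^ 2 / (((j.succAbove m : ℕ) : ℝ) + 1) ^ 2)) *
      (∏ m : Fin K, (1 / (((j.succAbove m : ℕ) : ℝ) + 1)) ^ (x m)) = A := by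
    rw [hA, tm, mul_comm, ← Finset.prod_mul_distrib]
    refine Finset.prod_congr rfl fun m _ => ?_
    rw [f0_cast, hcast, hmm]
  refine ⟨(P - A) / A, ?_, ?_⟩
  · rw [abs_div, div_le_iff₀ (abs_pos.2 hA0)]
    exact hPA
  · rw [hmain]
    field_simp
    ring

end Pool.Agent.MZG
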