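import Pool.Agent.MZG.Defs

set_option autoImplicit false

/-!
# MZG EVEN: the even weights (from J1, J3 and F)
-/

namespace Pool.Agent.MZG

open Pool.Agent.Helper21 (mzv H zl Adm)
open Pool.Agent.MZA

theorem even_notClean (hJ1 : St_J1) (hJ3 : St_J3) (V : Submodule ℚ ℝ) (n k : ℕ) (hn : Even n)
    (hNP : NP V n) (x : Fin k → ℕ) (hx : ∀ i, 2 ≤ x i) (hxe : ∀ i, Even (x i))
    (hs : ∑ i, x i + 2 ≤ n) : ¬ Clean V n x := by
  intro hc
  set y : Fin (k + 1) → ℕ := Fin.cons (n - ∑ i, x i) x with hy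
  have hy2 : ∀ i, 2 ≤ y i := by
    intro i
    refine Fin.cases ?_ (fun j => ?_) i
    · rw [hy, Fin.cons_zero]; omega
    · rw [hy, Fin.cons_succ]; exact hx j
  have hse : Even (∑ i, x i) := Finset.even_sum _ (fun i _ => hxe i)
  have hye : ∀ i, Even (y i) := by
    intro i
    refine Fin.cases ?_ (fun j => ?_) i
    · rw [hy, Fin.cons_zero]
      obtain ⟨a, ha⟩ := hse
      obtain ⟨b, hb⟩ := hn
      exact ⟨b - a, by omega⟩
    · rw [hy, Fin.cons_succ]; exact hxe j
  have hsum : ∑ i, y i = n := by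
    rw [hy, Fin.sum_univ_succ, Fin.cons_zero]
    simp only [Fin.cons_succ]
    omega
  obtain ⟨q, hq⟩ := hJ3 (k + 1) y hy2 hye
  rw [hsum] at hq
  have h1 := hJ1 (k + 1) y hy2
  have hpos : 0 < J y := by
    rw [h1]
    apply Finset.sum_pos
    · intro σ _
      apply main_zl_pos
      have hmem : ∀ a ∈ List.ofFn (y ∘ σ), 2 ≤ a := by
        intro a ha
        rw [List.mem_ofFn] at ha
        obtain ⟨i, hi⟩ := ha
        rw [← hi]
        exact hy2 _
      refine ⟨fun a ha => by have := hmem a ha; omega, fun a t hat => hmem a (by rw [hat]; simp)⟩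
    · exact Finset.univ_nonempty
  have hJV : J y ∈ V := by
    rw [h1]
    exact V.sum_mem (fun σ _ => hc σ)
  have hq0 : q ≠ 0 := by
    rintro rfl
    rw [hq] at hpos
    simp at hpos
  have hqr : (q : ℝ) ≠ 0 := by exact_mod_cast hq0
  have hpi : Real.pi ^ n ∈ V := by
    have h2 : Real.pi ^ n = (q⁻¹ : ℚ) • J y := by
      rw [hq, Rat.smul_def]
      push_cast
      field_simp
    rw [h2]
    exact V.smul_mem _ hJV
  apply hNP _ hpi (pow_ne_zero _ Real.pi_ne_zero)
  have h3 : Real.pi ^ (2 * n) * Real.pi ^ n = Real.pi ^ n * Real.pi ^ n * Real.pi ^ n := by ring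
  rw [h3]
  exact Submodule.mul_mem_mul (Submodule.mul_mem_mul hpi hpi) hpi

theorem EVEN (hJ1 : St_J1) (hJ3 : St_J3) (hF : St_F) : St_EVEN := by
  intro k hk
  refine ⟨(4 * k + 2) ^ k * (k + 1).factorial, 2 * k + 2, by positivity, ?_⟩
  intro V n hn he hNP
  obtain ⟨N, hN⟩ : ∃ N, N = (n - 2) / (2 * k) := ⟨_, rfl⟩
  have hk0 : 0 < 2 * k := by omega
  have hN1 : 2 * k * N ≤ n - 2 := by
    rw [hN]; exact Nat.mul_div_le _ _
  have hN2 : n - 2 < 2 * k * (N + 1) := by
    rw [hN]; exact Nat.lt_mul_div_succ _ hk0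
  have hN3 : 1 ≤ N := by
    rw [hN, Nat.one_le_div_iff hk0]; omega
  have hsum : ∀ p : Fin k → ℕ, (∀ i, 1 ≤ p i ∧ p i ≤ N) → ∑ i, 2 * p i + 2 ≤ n := by
    intro p hp
    have h1 : ∑ i, 2 * p i ≤ ∑ _i : Fin k, 2 * N :=
      Finset.sum_le_sum (fun i _ => by have := (hp i).2; omega)
    rw [Finset.sum_const, Finset.card_univ, Fintype.card_fin, smul_eq_mul] at h1
    have h2 : k * (2 * N) = 2 * k * N := by ring
    omega
  have h1 := hF V n k N Unit (fun _ p i => 2 * p i)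
    (fun _ p hp => ⟨fun i => by have := (hp i).1; show 2 ≤ 2 * p i; omega, hsum p hp⟩)
    (fun _ p p' _ _ h => by
      funext i
      have h2 : 2 * p i = 2 * p' i := congrFun h i
      omega)
    (fun p hp => ⟨(), even_notClean hJ1 hJ3 V n k he hNP _
      (fun i => by have := (hp i).1; show 2 ≤ 2 * p i; omega)
      (fun i => even_two_mul _) (hsum p hp)⟩)
  rw [Fintype.card_unit, mul_one] at h1
  have h2 : n ≤ (4 * k + 2) * N := by
    have h3 : 2 * k * (N + 1) = 2 * k * N + 2 * k := by ring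
    have h4 : (4 * k + 2) * N = 2 * k * N + (2 * k + 2) * N := by ring
    have h5 : 2 * k + 2 ≤ (2 * k + 2) * N := Nat.le_mul_of_pos_right _ hN3
    omega
  calc n ^ k ≤ ((4 * k + 2) * N) ^ k := Nat.pow_le_pow_left h2 k
    _ = (4 * k + 2) ^ k * N ^ k := mul_pow _ _ _
    _ ≤ (4 * k + 2) ^ k * ((k + 1).factorial * (Out V n (k + 1)).ncard) :=
        Nat.mul_le_mul_left _ h1
    _ = _ := by ring

end Pool.Agent.MZG
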