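import Pool.Agent.MZG.Defs

set_option autoImplicit false

/-!
# MZG, module F: counting
-/

namespace Pool.Agent.MZG

open Pool.Agent.Helper21 (mzv H zl Adm)
open Pool.Agent.MZA

theorem F_idx_finite (n : ℕ) : (Idx n).Finite := by
  refine (Set.finite_range fun c : Composition n => c.blocks).subset fun w hw => ?_
  obtain ⟨h1, -, h3⟩ := hw
  exact ⟨⟨w, fun {i} hi => h1 i hi, h3⟩, rfl⟩

theorem F_out_finite (V : Submodule ℚ ℝ) (n r : ℕ) : (Out V n r).Finite :=
  (F_idx_finite n).subset fun _ hw => hw.1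

/-- **MODULE F.** -/
theorem F : St_F := by
  classical
  intro V n k N T _ f hf hinj hex
  set B : Finset (Fin k → ℕ) := Fintype.piFinset fun _ => Finset.Icc 1 N with hB
  have hmemB : ∀ p, p ∈ B ↔ ∀ i, 1 ≤ p i ∧ p i ≤ N := by
    intro p
    rw [hB, Fintype.mem_piFinset]
    simp only [Finset.mem_Icc]
  have hcB : B.card = N ^ k := by
    rw [hB, Fintype.card_piFinset_const, Nat.card_Icc]
    simp
  set O := (F_out_finite V n (k + 1)).toFinset with hO
  have hOc : (Out V n (k + 1)).ncard = O.card :=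
    Set.ncard_eq_toFinset_card _ (F_out_finite V n (k + 1))
  have h1 : ∀ p : {p // p ∈ B}, ∃ (t : T) (σ : Equiv.Perm (Fin (k + 1))),
      zl (List.ofFn ((Fin.cons (n - ∑ i, f t p.1 i) (f t p.1) : Fin (k + 1) → ℕ) ∘ σ)) ∉ V := by
    rintro ⟨p, hp⟩
    obtain ⟨t, ht⟩ := hex p ((hmemB p).1 hp)
    unfold Clean at ht
    push Not at ht
    obtain ⟨σ, hσ⟩ := ht
    exact ⟨t, σ, hσ⟩
  choose t σ hσ using h1
  set g : {p // p ∈ B} → T × Equiv.Perm (Fin (k + 1)) × List ℕ := fun p =>
    (t p, σ p, List.ofFn ((Fin.cons (n - ∑ i, f (t p) p.1 i) (f (t p) p.1) :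
      Fin (k + 1) → ℕ) ∘ σ p)) with hg
  have hcard : B.attach.card ≤ ((Finset.univ : Finset T) ×ˢ
      ((Finset.univ : Finset (Equiv.Perm (Fin (k + 1)))) ×ˢ O)).card := by
    apply Finset.card_le_card_of_injOn g
    · intro p _
      obtain ⟨h2, h3⟩ := hf (t p) p.1 ((hmemB p.1).1 p.2)
      have hge : ∀ i : Fin (k + 1), 2 ≤ (Fin.cons (n - ∑ i, f (t p) p.1 i) (f (t p) p.1) :
          Fin (k + 1) → ℕ) i := by
        intro i
        refine Fin.cases ?_ ?_ i
        · rw [Fin.cons_zero]
          omega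
        · intro j
          rw [Fin.cons_succ]
          exact h2 j
      have hmem : ∀ y ∈ List.ofFn ((Fin.cons (n - ∑ i, f (t p) p.1 i) (f (t p) p.1) :
          Fin (k + 1) → ℕ) ∘ σ p), 2 ≤ y := by
        intro y hy
        rw [List.mem_ofFn] at hy
        obtain ⟨i, rfl⟩ := hy
        exact hge _
      simp only [Finset.coe_product, Set.mem_prod, Finset.coe_univ, Set.mem_univ, true_and,
        Finset.mem_coe, hO, Set.Finite.mem_toFinset]
      refine ⟨⟨fun y hy => by have := hmem y hy; omega, ?_, ?_⟩, List.length_ofFn, hσ p⟩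
      · intro a w hw
        apply hmem a
        have hw' : List.ofFn ((Fin.cons (n - ∑ i, f (t p) p.1 i) (f (t p) p.1) :
            Fin (k + 1) → ℕ) ∘ σ p) = a :: w := hw
        rw [hw']
        exact List.mem_cons_self
      · show (List.ofFn ((Fin.cons (n - ∑ i, f (t p) p.1 i) (f (t p) p.1) :
            Fin (k + 1) → ℕ) ∘ σ p)).sum = n
        rw [List.sum_ofFn]
        simp only [Function.comp]
        rw [Equiv.sum_comp (σ p) (Fin.cons (n - ∑ i, f (t p) p.1 i) (f (t p) p.1) :
            Fin (k + 1) → ℕ), Fin.sum_univ_succ]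
        simp only [Fin.cons_zero, Fin.cons_succ]
        omega
    · intro p _ q _ hpq
      simp only [hg, Prod.mk.injEq] at hpq
      obtain ⟨e1, e2, e3⟩ := hpq
      rw [← e1, ← e2] at e3
      have e4 := List.ofFn_injective e3
      have e5 : (Fin.cons (n - ∑ i, f (t p) p.1 i) (f (t p) p.1) : Fin (k + 1) → ℕ) =
          Fin.cons (n - ∑ i, f (t p) q.1 i) (f (t p) q.1) :=
        (σ p).surjective.injective_comp_right e4
      have e6 : f (t p) p.1 = f (t p) q.1 := (Fin.cons_injective2 e5).2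
      exact Subtype.ext (hinj (t p) p.1 q.1 ((hmemB _).1 p.2) ((hmemB _).1 q.2) e6)
  rw [Finset.card_attach, hcB, Finset.card_product, Finset.card_product, Finset.card_univ,
    Finset.card_univ, Fintype.card_perm, Fintype.card_fin] at hcard
  rw [hOc]
  calc N ^ k ≤ Fintype.card T * ((k + 1).factorial * O.card) := hcard
    _ = (k + 1).factorial * Fintype.card T * O.card := by ring

end Pool.Agent.MZG
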