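import Pool.Agent.MZG.Defs

set_option autoImplicit false

/-!
# MZG / GOOD: from the cube relations to `ζ(u) ζ(n - u)`
-/

namespace Pool.Agent.MZG

open Pool.Agent.Helper21 (mzv H zl Adm)
open Pool.Agent.MZA

theorem good_row {k C i : ℕ} (b : Fin (k + 1) → ℕ) (hb : ∀ m, C * i ≤ b m) :
    ∑ m, row C b i m = ∑ m, b m := by
  rw [Fin.sum_univ_succ, Fin.sum_univ_succ (f := b)]
  have h1 : ∑ m : Fin k, row C b i m.succ + k * (C * i) = ∑ m : Fin k, b m.succ := by
    have h2 : (k : ℕ) * (C * i) = ∑ _m : Fin k, C * i := by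
      rw [Finset.sum_const, Finset.card_univ, Fintype.card_fin, smul_eq_mul]
    rw [h2, ← Finset.sum_add_distrib]
    apply Finset.sum_congr rfl
    intro m _
    unfold row
    rw [if_neg (Fin.succ_ne_zero m)]
    exact Nat.sub_add_cancel (hb _)
  have h3 : row C b i 0 = b 0 + k * (C * i) := by
    unfold row
    rw [if_pos rfl, mul_assoc]
  rw [h3]
  omega

theorem good_sh {k : ℕ} (x : Fin k → ℕ) (S : Finset (Fin k)) :
    ∑ m, sh x S m = ∑ m, x m + 2 * S.card := by
  unfold sh
  rw [Finset.sum_add_distrib, Finset.sum_ite_mem, Finset.univ_inter, Finset.sum_const,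
    smul_eq_mul, mul_comm]

/-- the size of a set as an index -/
def cS {k : ℕ} (S : Finset (Fin (k + 1))) : Fin (k + 2) :=
  ⟨S.card, by
    have h := Finset.card_le_univ S
    rw [Fintype.card_fin] at h
    omega⟩

/-- rational linear algebra -/
theorem good_lin {N : ℕ} (V : Submodule ℚ ℝ) (A : Matrix (Fin N) (Fin N) ℚ) (w : Fin N → ℝ)
    (hA : A.det ≠ 0) (h : ∀ i, ∑ t, (A i t) • w t ∈ V) (t₀ : Fin N) : w t₀ ∈ V := by
  have hinv : A⁻¹ * A = 1 := Matrix.nonsing_inv_mul A (isUnit_iff_ne_zero.2 hA)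
  have h1 : w t₀ = ∑ i, (A⁻¹ t₀ i) • ∑ t, (A i t) • w t := by
    have h2 : ∀ t, (1 : Matrix (Fin N) (Fin N) ℚ) t₀ t = ∑ i, A⁻¹ t₀ i * A i t := by
      intro t
      rw [← hinv, Matrix.mul_apply]
    have h3 : w t₀ = ∑ t, ((1 : Matrix (Fin N) (Fin N) ℚ) t₀ t) • w t := by
      rw [Finset.sum_eq_single t₀]
      · rw [Matrix.one_apply_eq, one_smul]
      · intro t _ ht
        rw [Matrix.one_apply_ne (Ne.symm ht), zero_smul]
      · intro h
        exact absurd (Finset.mem_univ _) h
    rw [h3]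
    simp only [h2, Finset.sum_smul, Finset.smul_sum, smul_smul]
    rw [Finset.sum_comm]
  rw [h1]
  exact V.sum_mem fun i _ => V.smul_mem _ (h i)

theorem GOOD (hC : St_CUBE) (hD : St_DET) (hJ : St_J3) : St_GOOD := by
  intro k hk
  obtain ⟨C, G₀, hC0, hCe, hdet⟩ := hD k hk
  refine ⟨C, max G₀ (C * (k + 1) + 2), hC0, hCe, fun V n b hbe hbG hbs hn hcl => ?_⟩
  obtain ⟨u, hu⟩ : ∃ u : ℕ, u = ∑ m, b m := ⟨_, rfl⟩
  have hG1 := le_max_left G₀ (C * (k + 1) + 2)
  have hG2 := le_max_right G₀ (C * (k + 1) + 2)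
  have hrow_le : ∀ i, i ≤ k + 1 → ∀ m, C * i + 2 ≤ b m := by
    intro i hi m
    have h1 := hbG m
    have h2 : C * i ≤ C * (k + 1) := Nat.mul_le_mul_left C hi
    omega
  have hrow_sum : ∀ i, i ≤ k + 1 → ∑ m, row C b i m = u := by
    intro i hi
    rw [hu]
    exact good_row b fun m => by
      have := hrow_le i hi m
      omega
  have hrow2 : ∀ i, i ≤ k + 1 → ∀ m, 2 ≤ row C b i m := by
    intro i hi m
    have h1 := hrow_le i hi m
    unfold row
    split_ifs
    · omega
    · omega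
  have hrowe : ∀ i, i ≤ k + 1 → ∀ m, Even (row C b i m) := by
    intro i hi m
    have h1 := hrow_le i hi m
    unfold row
    split_ifs
    · exact (hbe m).add ((hCe.mul_left k).mul_right i)
    · exact (Nat.even_sub (by omega)).2 (iff_of_true (hbe m) (hCe.mul_right i))
  have hshe : ∀ i, i ≤ k + 1 → ∀ S, ∃ q : ℚ,
      J (sh (row C b i) S) = q * Real.pi ^ (u + 2 * S.card) := by
    intro i hi S
    obtain ⟨q, hq⟩ := hJ (k + 1) (sh (row C b i) S)
      (fun m => by
        have := hrow2 i hi m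
        unfold sh
        omega)
      (fun m => by
        unfold sh
        refine (hrowe i hi m).add ?_
        split_ifs
        · exact even_two
        · exact Even.zero)
    refine ⟨q, ?_⟩
    rw [hq, good_sh, hrow_sum i hi]
  -- the rational numbers
  obtain ⟨q, hq⟩ : ∃ q : Fin (k + 2) → Finset (Fin (k + 1)) → ℚ, ∀ (i : Fin (k + 2)) S,
      J (sh (row C b (i : ℕ)) S) = q i S * Real.pi ^ (u + 2 * S.card) := by
    choose f hf using fun (i : Fin (k + 2)) (S : Finset (Fin (k + 1))) =>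
      hshe i (by have := i.2; omega) S
    exact ⟨f, hf⟩
  obtain ⟨A, hA⟩ : ∃ A : Matrix (Fin (k + 2)) (Fin (k + 2)) ℚ, ∀ i t,
      A i t = ∑ S ∈ Finset.univ.filter (fun S : Finset (Fin (k + 1)) => cS S = t),
        (-1 : ℚ) ^ S.card * q i S := ⟨Matrix.of fun i t =>
      ∑ S ∈ Finset.univ.filter (fun S : Finset (Fin (k + 1)) => cS S = t),
        (-1 : ℚ) ^ S.card * q i S, fun i t => rfl⟩
  -- sums over the sets
  have hsum : ∀ (i : Fin (k + 2)) (g : Fin (k + 2) → ℝ),
      ∑ S : Finset (Fin (k + 1)), (-1 : ℝ) ^ S.card * ((q i S : ℝ) * g (cS S)) =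
        ∑ t, (A i t : ℝ) * g t := by
    intro i g
    rw [← Finset.sum_fiberwise Finset.univ (fun S : Finset (Fin (k + 1)) => cS S)]
    apply Finset.sum_congr rfl
    intro t _
    rw [hA, Rat.cast_sum, Finset.sum_mul]
    apply Finset.sum_congr rfl
    intro S hS
    rw [(Finset.mem_filter.1 hS).2]
    push_cast
    ring
  have hpi : ∀ t : ℕ, Real.pi ^ (u + 2 * t) ≠ 0 := fun t => pow_ne_zero _ Real.pi_ne_zero
  have hAdet : A.det ≠ 0 := by
    intro h0
    obtain ⟨v, hv0, hv⟩ := Matrix.exists_mulVec_eq_zero_iff.2 h0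
    apply hv0
    obtain ⟨lam, hlam⟩ : ∃ lam : ℕ → ℝ, ∀ t : Fin (k + 2),
        lam t = (v t : ℝ) / Real.pi ^ (u + 2 * (t : ℕ)) := by
      refine ⟨fun t => if h : t < k + 2 then (v ⟨t, h⟩ : ℝ) / Real.pi ^ (u + 2 * t) else 0,
        fun t => ?_⟩
      simp only [t.2, dif_pos]
    have hz := hdet b (fun m => hG1.trans (hbG m))
      (fun m m' hm => (Nat.add_le_add_left hG1 _).trans (hbs m m' hm)) lam (by
        intro i hi
        have h1 : ∀ S : Finset (Fin (k + 1)), J (sh (row C b i) S) * lam S.card =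
            (q ⟨i, by omega⟩ S : ℝ) * ((fun t => (v t : ℝ)) (cS S)) := by
          intro S
          have h2 := hq ⟨i, by omega⟩ S
          have h3 := hlam (cS S)
          have h4 : ((cS S : Fin (k + 2)) : ℕ) = S.card := rfl
          rw [h4] at h3
          change J (sh (row C b i) S) = _ at h2
          rw [h2, h3]
          have h5 := hpi S.card
          field_simp
        simp only [h1]
        rw [hsum ⟨i, by omega⟩ (fun t => (v t : ℝ))]
        have h6 := congrFun hv ⟨i, by omega⟩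
        rw [Matrix.mulVec, dotProduct] at h6
        have h7 := congrArg (fun r : ℚ => (r : ℝ)) h6
        simpa using h7)
    funext t
    have h8 := hz t (by have := t.2; omega)
    rw [hlam t] at h8
    have h9 := hpi (t : ℕ)
    rw [div_eq_zero_iff] at h8
    rcases h8 with h8 | h8
    · exact_mod_cast h8
    · exact absurd h8 h9
  -- the vector
  obtain ⟨w, hw⟩ : ∃ w : Fin (k + 2) → ℝ, ∀ t, w t = Real.pi ^ (u + 2 * (t : ℕ)) *
      z (n - (u + 2 * (t : ℕ))) := ⟨_, fun t => rfl⟩
  have hmem : ∀ i, ∑ t, (A i t) • w t ∈ V := by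
    intro i
    have hi : (i : ℕ) ≤ k + 1 := by
      have := i.2
      omega
    have h1 := hC V n (k + 1) (row C b i) (hrow2 i hi) (by
      rw [hrow_sum i hi, hu]
      omega) (hcl i hi)
    rw [hrow_sum i hi] at h1
    have h2 : ∑ S : Finset (Fin (k + 1)), (-1 : ℝ) ^ S.card *
        (J (sh (row C b i) S) * z (n - (u + 2 * S.card))) = ∑ t, (A i t) • w t := by
      have h3 : ∀ S : Finset (Fin (k + 1)), J (sh (row C b i) S) * z (n - (u + 2 * S.card)) =
          (q i S : ℝ) * w (cS S) := by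
        intro S
        rw [hq i S, hw]
        have h4 : ((cS S : Fin (k + 2)) : ℕ) = S.card := rfl
        rw [h4]
        ring
      simp only [h3]
      rw [hsum i w]
      apply Finset.sum_congr rfl
      intro t _
      rw [Rat.smul_def]
    rwa [h2] at h1
  have h0 := good_lin V A w hAdet hmem ⟨0, by omega⟩
  rw [hw] at h0
  simp only [mul_zero, add_zero] at h0
  -- `ζ(u)`
  have hue : Even u := by
    rw [hu]
    exact Finset.even_sum _ fun m _ => hbe m
  have hu2 : 2 ≤ u := by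
    rw [hu]
    calc 2 ≤ b 0 := by
          have := hrow_le 0 (by omega) 0
          omega
      _ ≤ ∑ m, b m := Finset.single_le_sum (fun m _ => Nat.zero_le _) (Finset.mem_univ _)
  obtain ⟨j, hj⟩ := hue
  obtain ⟨r, _, hr⟩ := thm_Zev j (by omega)
  have hzu : z u = r * Real.pi ^ u := by
    unfold z
    have e : u = 2 * j := by omega
    rw [e]
    exact hr
  rw [← hu, hzu]
  have h5 := V.smul_mem r h0
  rw [Rat.smul_def] at h5
  rwa [mul_assoc]

end Pool.Agent.MZG
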