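import Mathlib
import Pool.Agent.MZG.Defs

set_option autoImplicit false

/-!
# MZG, module J1: the sum over injective maps is the sum over all orderings
-/

namespace Pool.Agent.MZG

open Pool.Agent.Helper21 (mzv H zl Adm T mem_T sum_T H_bddAbove)
open Pool.Agent.MZA

/-- the multiple zeta value as a `HasSum` -/
theorem hasSum_zl {r : ℕ} (k : Fin r → ℕ) (hk : ∀ i, 2 ≤ k i) :
    HasSum (fun n : {n : Fin r → ℕ // StrictAnti n ∧ ∀ i, 1 ≤ n i} =>
      ∏ i, (1 / (n.1 i : ℝ)) ^ (k i)) (zl (List.ofFn k)) := by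
  classical
  have hw : ∀ a ∈ List.ofFn k, 1 ≤ a := by
    intro a ha
    rw [List.mem_ofFn] at ha
    obtain ⟨i, rfl⟩ := ha
    have := hk i
    omega
  have hw2 : ∀ a t, List.ofFn k = a :: t → 2 ≤ a := by
    intro a t h
    have ha : a ∈ List.ofFn k := by rw [h]; exact List.mem_cons_self
    rw [List.mem_ofFn] at ha
    obtain ⟨i, rfl⟩ := ha
    exact hk i
  have hbdd := H_bddAbove _ hw hw2
  apply hasSum_of_isLUB_of_nonneg
  · intro n
    positivity
  · have hsub : ∀ n, ∑ f ∈ (T r n).subtype (fun f => StrictAnti f ∧ ∀ i, 1 ≤ f i),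
        ∏ i, (1 / (f.1 i : ℝ)) ^ (k i) = H (List.ofFn k) n := by
      intro n
      rw [← sum_T]
      rw [Finset.sum_subtype_of_mem (f := fun f : Fin r → ℕ => ∏ i, (1 / (f i : ℝ)) ^ (k i))]
      intro f hf
      rw [mem_T] at hf
      exact ⟨hf.2, fun i => (hf.1 i).1⟩
    constructor
    · rintro _ ⟨s, rfl⟩
      obtain ⟨n, hn⟩ : ∃ n, ∀ f ∈ s, ∀ i, f.1 i ≤ n := by
        refine ⟨∑ f ∈ s, ∑ i, f.1 i, ?_⟩
        intro f hf i
        calc f.1 i ≤ ∑ i, f.1 i := Finset.single_le_sum (f := fun i => f.1 i)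
              (fun _ _ => Nat.zero_le _) (Finset.mem_univ i)
          _ ≤ _ := Finset.single_le_sum (f := fun f : {f : Fin r → ℕ // StrictAnti f ∧ ∀ i, 1 ≤ f i} =>
                ∑ i, f.1 i) (fun _ _ => Nat.zero_le _) hf
      have hss : s ⊆ (T r n).subtype (fun f => StrictAnti f ∧ ∀ i, 1 ≤ f i) := by
        intro f hf
        rw [Finset.mem_subtype, mem_T]
        exact ⟨fun i => ⟨f.2.2 i, hn f hf i⟩, f.2.1⟩
      calc ∑ f ∈ s, ∏ i, (1 / (f.1 i : ℝ)) ^ (k i)
          ≤ ∑ f ∈ (T r n).subtype (fun f => StrictAnti f ∧ ∀ i, 1 ≤ f i),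
              ∏ i, (1 / (f.1 i : ℝ)) ^ (k i) :=
            Finset.sum_le_sum_of_subset_of_nonneg hss (fun f _ _ => by positivity)
        _ = H (List.ofFn k) n := hsub n
        _ ≤ zl (List.ofFn k) := le_ciSup hbdd n
    · intro b hb
      apply ciSup_le
      intro n
      rw [← hsub n]
      exact hb ⟨_, rfl⟩

/-- a strictly decreasing map after a permutation, shifted by one, is an injective map -/
def emb (k : ℕ) (p : Equiv.Perm (Fin k) × {n : Fin k → ℕ // StrictAnti n ∧ ∀ i, 1 ≤ n i}) :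
    Fin k ↪ ℕ where
  toFun i := p.2.1 (p.1.symm i) - 1
  inj' := by
    intro i j hij
    have h1 := p.2.2.2 (p.1.symm i)
    have h2 := p.2.2.2 (p.1.symm j)
    have h3 : p.2.1 (p.1.symm i) = p.2.1 (p.1.symm j) := by
      have : p.2.1 (p.1.symm i) - 1 = p.2.1 (p.1.symm j) - 1 := hij
      omega
    exact p.1.symm.injective (p.2.2.1.injective h3)

theorem emb_apply {k : ℕ} (p : Equiv.Perm (Fin k) × {n : Fin k → ℕ // StrictAnti n ∧ ∀ i, 1 ≤ n i})
    (i : Fin k) : emb k p i + 1 = p.2.1 (p.1.symm i) := by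
  have h1 := p.2.2.2 (p.1.symm i)
  show p.2.1 (p.1.symm i) - 1 + 1 = _
  omega

theorem perm_eq_one {k : ℕ} (τ : Equiv.Perm (Fin k)) (h : StrictMono τ) : τ = 1 := by
  have h1 : (StrictMono.orderIsoOfSurjective τ h τ.surjective : Fin k ≃o Fin k) = OrderIso.refl _ :=
    Subsingleton.elim _ _
  ext i
  have h2 := congrArg (fun e : Fin k ≃o Fin k => (e i : ℕ)) h1
  simpa using h2

theorem emb_bij (k : ℕ) : Function.Bijective (emb k) := by
  constructor
  · rintro ⟨σ, m⟩ ⟨τ, n⟩ h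
    have hp : ∀ i, m.1 (σ.symm i) = n.1 (τ.symm i) := by
      intro i
      rw [← emb_apply (σ, m) i, ← emb_apply (τ, n) i, h]
    -- the permutation `τ⁻¹ σ` is increasing
    have hmono : StrictMono (σ.trans τ.symm : Equiv.Perm (Fin k)) := by
      intro a b hab
      have e1 : m.1 a = n.1 (τ.symm (σ a)) := by
        have := hp (σ a)
        rwa [Equiv.symm_apply_apply] at this
      have e2 : m.1 b = n.1 (τ.symm (σ b)) := by
        have := hp (σ b)
        rwa [Equiv.symm_apply_apply] at this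
      have e3 := m.2.1 hab
      rw [e1, e2] at e3
      exact (n.2.1.lt_iff_gt).1 e3
    have h1 := perm_eq_one _ hmono
    have h2 : σ = τ := by
      ext i
      have h3 : τ.symm (σ i) = i := by
        have := congrArg (fun e : Equiv.Perm (Fin k) => e i) h1
        simpa using this
      have h4 : σ i = τ i := by
        rw [← h3, Equiv.apply_symm_apply, h3]
      rw [h4]
    subst h2
    have h3 : m = n := by
      apply Subtype.ext
      funext i
      have := hp (σ i)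
      rwa [Equiv.symm_apply_apply] at this
    rw [h3]
  · intro f
    let g : Fin k → ℕᵒᵈ := fun i => OrderDual.toDual (f i)
    have hg : Monotone (g ∘ Tuple.sort g) := Tuple.monotone_sort g
    have hinj : Function.Injective (g ∘ Tuple.sort g) := by
      apply Function.Injective.comp _ (Tuple.sort g).injective
      intro a b hab
      exact f.injective (OrderDual.toDual.injective hab)
    have hs : StrictMono (g ∘ Tuple.sort g) := hg.strictMono_of_injective hinj
    refine ⟨(Tuple.sort g, ⟨fun i => f (Tuple.sort g i) + 1, ?_, fun i => Nat.succ_le_succ (Nat.zero_le _)⟩), ?_⟩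
    · intro a b hab
      have := hs hab
      have h2 : f (Tuple.sort g b) < f (Tuple.sort g a) := this
      show f (Tuple.sort g b) + 1 < f (Tuple.sort g a) + 1
      omega
    · ext i
      show f (Tuple.sort g ((Tuple.sort g).symm i)) + 1 - 1 = f i
      rw [Equiv.apply_symm_apply]
      omega

/-- the family of `J`, in the coordinates (permutation, decreasing map) -/
theorem hasSum_J {k : ℕ} (x : Fin k → ℕ) (hx : ∀ i, 2 ≤ x i) :
    HasSum (fun n : Fin k ↪ ℕ => ∏ i, (1 / ((n i : ℝ) + 1)) ^ (x i))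
      (∑ σ : Equiv.Perm (Fin k), zl (List.ofFn (x ∘ σ))) := by
  have hσ : ∀ σ : Equiv.Perm (Fin k),
      HasSum (fun n : {n : Fin k → ℕ // StrictAnti n ∧ ∀ i, 1 ≤ n i} =>
        ∏ i, (1 / (n.1 i : ℝ)) ^ ((x ∘ σ) i)) (zl (List.ofFn (x ∘ σ))) :=
    fun σ => hasSum_zl (x ∘ σ) (fun i => hx _)
  have key : ∀ p : Equiv.Perm (Fin k) × {n : Fin k → ℕ // StrictAnti n ∧ ∀ i, 1 ≤ n i},
      ∏ i, (1 / ((emb k p i : ℝ) + 1)) ^ (x i) = ∏ i, (1 / (p.2.1 i : ℝ)) ^ ((x ∘ p.1) i) := by
    intro p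
    rw [← Equiv.prod_comp p.1 (fun i => (1 / ((emb k p i : ℝ) + 1)) ^ (x i))]
    apply Finset.prod_congr rfl
    intro i _
    have h1 := emb_apply p (p.1 i)
    rw [Equiv.symm_apply_apply] at h1
    have h2 : ((emb k p (p.1 i) : ℝ) + 1) = (p.2.1 i : ℝ) := by exact_mod_cast h1
    rw [h2]
    rfl
  rw [← (Equiv.ofBijective _ (emb_bij k)).hasSum_iff]
  have hfun : ((fun n : Fin k ↪ ℕ => ∏ i, (1 / ((n i : ℝ) + 1)) ^ (x i)) ∘
      ⇑(Equiv.ofBijective _ (emb_bij k))) =
      fun p : Equiv.Perm (Fin k) × {n : Fin k → ℕ // StrictAnti n ∧ ∀ i, 1 ≤ n i} =>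
        ∏ i, (1 / (p.2.1 i : ℝ)) ^ ((x ∘ p.1) i) := by
    funext p
    exact key p
  rw [hfun]
  have hsum : Summable (fun p : Equiv.Perm (Fin k) × {n : Fin k → ℕ // StrictAnti n ∧ ∀ i, 1 ≤ n i} =>
        ∏ i, (1 / (p.2.1 i : ℝ)) ^ ((x ∘ p.1) i)) := by
    rw [summable_prod_of_nonneg (fun p => by positivity)]
    exact ⟨fun σ => (hσ σ).summable, (hasSum_fintype _).summable⟩
  have h3 := hsum.hasSum.prod_fiberwise (fun σ => hσ σ)
  have h4 : HasSum (fun σ : Equiv.Perm (Fin k) => zl (List.ofFn (x ∘ σ)))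
      (∑ σ : Equiv.Perm (Fin k), zl (List.ofFn (x ∘ σ))) := hasSum_fintype _
  rw [← h3.unique h4]
  exact hsum.hasSum

theorem J1 : St_J1 := fun _ x hx => (hasSum_J x hx).tsum_eq

/-- the same for J0 -/
theorem J0_of_sort : St_J0 := fun _ x hx => (hasSum_J x hx).summable

end Pool.Agent.MZG
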