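import Pool.Agent.MZG.J0

/-!
# MZG: the sums over injective tuples: module J2 (helper16)
-/

set_option autoImplicit false

open Finset

namespace Pool.Agent.MZG

open J2A

/-- **MODULE J2** -/
theorem thm_J2 : St_J2 := by
  intro k x a hx ha
  have hcx : ∀ i, 2 ≤ (Fin.cons a x : Fin (k + 1) → ℕ) i := fun i => by
    refine Fin.cases ?_ (fun i => ?_) i
    · rw [Fin.cons_zero]
      exact ha
    · rw [Fin.cons_succ]
      exact hx i
  have hu : ∀ i, Summable (jt (Function.update x i (x i + a))) := fun i =>
    jt_summable _ fun j => by
      by_cases hj : j = i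
      · subst hj
        rw [Function.update_self]
        have := hx j
        omega
      · rw [Function.update_of_ne hj]
        exact hx j
  rw [J_eq, split _ (jt_summable _ hcx), tsum_congr fun n => inner2 a x ha n,
    ((jt_summable x hx).mul_right _).tsum_sub (summable_sum fun i _ => hu i),
    tsum_mul_right, Summable.tsum_finsetSum fun i _ => hu i, z_eq a ha, J_eq x, mul_comm]
  congr 1
  exact sum_congr rfl fun i _ => (J_eq _).symm

/-- **MODULE J2** -/
theorem J2 : St_J2 := thm_J2

end Pool.Agent.MZG
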