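import Mathlib
import Pool.Agent.MZG.Defs

set_option autoImplicit false

/-!
# MZG: the sums over injective maps with even exponents
-/

namespace Pool.Agent.MZG

open Finset
open Pool.Agent.Helper21 (zl)
open Pool.Agent.MZA

theorem J3_zero (x : Fin 0 → ℕ) : J x = 1 := by
  unfold J
  have h : ∀ n : Fin 0 ↪ ℕ, ∏ i, (1 / ((n i : ℝ) + 1)) ^ (x i) = 1 := fun n => by simp
  rw [tsum_congr h]
  have : Unique (Fin 0 ↪ ℕ) := ⟨⟨⟨fun i => i.elim0, fun i => i.elim0⟩⟩, fun f => by
    ext i
    exact i.elim0⟩
  rw [tsum_fintype]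
  simp

theorem J3_z (a : ℕ) (ha : 2 ≤ a) (he : Even a) : ∃ q : ℚ, z a = q * Real.pi ^ a := by
  obtain ⟨j, hj⟩ := he
  obtain ⟨q, -, h⟩ := thm_Zev j (by omega)
  have h2 : a = 2 * j := by omega
  exact ⟨q, by rw [h2]; exact h⟩

theorem J3 (h2 : St_J2) : St_J3 := by
  intro k
  induction k with
  | zero =>
    intro x _ _
    refine ⟨1, ?_⟩
    rw [J3_zero]
    simp
  | succ k ih =>
    intro x hx he
    have hcons : x = Fin.cons (x 0) (fun i => x i.succ) := by
      funext i
      refine Fin.cases ?_ (fun j => ?_) i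
      · rfl
      · rfl
    set a := x 0 with ha
    set y : Fin k → ℕ := fun i => x i.succ with hy
    have hy2 : ∀ i, 2 ≤ y i := fun i => hx _
    have hye : ∀ i, Even (y i) := fun i => he _
    obtain ⟨q₀, hq₀⟩ := J3_z a (hx 0) (he 0)
    obtain ⟨q₁, hq₁⟩ := ih y hy2 hye
    have hupd : ∀ i, ∃ q : ℚ, J (Function.update y i (y i + a)) =
        q * Real.pi ^ (∑ j, y j + a) := by
      intro i
      obtain ⟨q, hq⟩ := ih (Function.update y i (y i + a)) (fun j => by
        rcases eq_or_ne j i with rfl | hj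
        · rw [Function.update_self]
          have := hy2 j
          omega
        · rw [Function.update_of_ne hj]
          exact hy2 j) (fun j => by
        rcases eq_or_ne j i with rfl | hj
        · rw [Function.update_self]
          exact (hye j).add (he 0)
        · rw [Function.update_of_ne hj]
          exact hye j)
      refine ⟨q, ?_⟩
      rw [hq]
      congr 2
      rw [Finset.sum_update_of_mem (Finset.mem_univ i)]
      rw [← Finset.sum_sdiff (Finset.subset_univ ({i} : Finset (Fin k)))]
      rw [Finset.sum_singleton]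
      omega
    choose q hq using hupd
    refine ⟨q₀ * q₁ - ∑ i, q i, ?_⟩
    rw [hcons, h2 k y a hy2 (hx 0), hq₀, hq₁]
    simp only [hq]
    have hsum : ∑ i, (Fin.cons a y : Fin (k + 1) → ℕ) i = ∑ j, y j + a := by
      rw [Fin.sum_cons, add_comm]
    rw [hsum, ← Finset.sum_mul, pow_add]
    push_cast
    ring

end Pool.Agent.MZG
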