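import Pool.Agent.MZG.Defs

set_option autoImplicit false

/-!
# The product rule in list form
-/

namespace Pool.Agent.MZG

theorem J_get_congr {k : ℕ} (L : List ℕ) (h : L.length = k) (x : Fin k → ℕ)
    (hx : ∀ i : Fin k, L.get (Fin.cast h.symm i) = x i) : JL L = J x := by
  subst h
  unfold JL
  congr 1
  funext i
  exact hx i

theorem bumps_eq (a : ℕ) (L : List ℕ) :
    bumps a L = List.ofFn (fun i : Fin L.length => L.set i (L.get i + a)) := by
  induction L with
  | nil => rfl
  | cons b L ih =>
    show ((b + a) :: L) :: (bumps a L).map (fun w => b :: w) =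
      List.ofFn (n := L.length + 1) (fun i => (b :: L).set i ((b :: L).get i + a))
    rw [List.ofFn_succ, ih, List.map_ofFn]
    rfl

theorem JL_set (L : List ℕ) (i : Fin L.length) (v : ℕ) :
    JL (L.set i v) = J (Function.update L.get i v) := by
  refine J_get_congr _ (List.length_set ..) _ fun j => ?_
  by_cases hj : j = i
  · subst hj
    simp
  · rw [Function.update_of_ne hj]
    have hne : (i : ℕ) ≠ j := fun h => hj (Fin.ext h.symm)
    simp [List.getElem_set_ne hne]

/-- MODULE JL -/
theorem thm_JL (hJ2 : St_J2) : St_JL := by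
  intro a L ha hL
  have h1 : JL (a :: L) = J (Fin.cons a L.get : Fin (L.length + 1) → ℕ) := by
    refine J_get_congr _ rfl _ fun j => ?_
    refine Fin.cases ?_ (fun j => ?_) j
    · rfl
    · rfl
  have h2 : ((bumps a L).map Pool.Agent.MZG.JL).sum =
      ∑ i : Fin L.length, J (Function.update L.get i (L.get i + a)) := by
    rw [bumps_eq, List.map_ofFn, List.sum_ofFn]
    refine Finset.sum_congr rfl fun i _ => ?_
    exact JL_set L i _
  rw [h1, h2, hJ2 _ L.get a (fun i => hL _ (List.get_mem L i)) ha]
  rfl

end Pool.Agent.MZG
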