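import Pool.Agent.MZG.OddA
import Pool.Agent.MZG.OddDefs

set_option autoImplicit false

/-!
# MZG: ODD from CONF, GOOD, F, BASE
-/

namespace Pool.Agent.MZG

open Finset

namespace OR

theorem sum_even {m E : ℕ} (hE : Even E) (A : Finset (Fin m)) (p : Fin m → ℕ) :
    Even (∑ i ∈ A, ee E p i) :=
  Finset.even_sum _ (fun i _ => hE.add (even_two_mul (p i)))

theorem sum_ge {m E : ℕ} {A : Finset (Fin m)} (hA : A.Nonempty) (p : Fin m → ℕ) :
    E ≤ ∑ i ∈ A, ee E p i := by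
  obtain ⟨i, hi⟩ := hA
  have h : ee E p i ≤ ∑ i ∈ A, ee E p i :=
    Finset.single_le_sum (f := fun i => ee E p i) (fun _ _ => Nat.zero_le _) hi
  unfold ee at h ⊢
  omega

theorem sum_le {m E h : ℕ} (A : Finset (Fin m)) {p : Fin m → ℕ} (hp : ∀ i, 2 * p i ≤ h) :
    ∑ i ∈ A, ee E p i ≤ m * (E + h) := by
  calc ∑ i ∈ A, ee E p i ≤ ∑ _i ∈ A, (E + h) :=
        Finset.sum_le_sum fun i _ => by have := hp i; unfold ee; omega
    _ = A.card * (E + h) := by rw [Finset.sum_const, smul_eq_mul]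
    _ ≤ m * (E + h) := Nat.mul_le_mul_right _ (by
        have := Finset.card_le_univ A
        rwa [Fintype.card_fin] at this)

theorem uu_bounds {m E h n : ℕ} (hE : Even E) (hn : Odd n) (hE2 : 2 * m + 10 ≤ E)
    (hnn : m * (E + h) + E + 2 * m + 12 ≤ n) (q : Fin 3) {A : Finset (Fin m)}
    (hA : A.Nonempty) {p : Fin m → ℕ} (hp : ∀ i, 2 * p i ≤ h) :
    E ≤ uu n E p q A ∧ uu n E p q A + 2 * m + 4 ≤ n ∧ Even (uu n E p q A) := by
  have h1 := sum_even hE A p
  have h2 := sum_ge (E := E) hA p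
  have h3 := sum_le (E := E) A hp
  obtain ⟨a, ha⟩ := h1
  obtain ⟨b, hb⟩ := hn
  unfold uu
  split_ifs with h4 h5
  · exact ⟨h2, by omega, ⟨a, ha⟩⟩
  · exact ⟨by omega, by omega, ⟨a + 1, by omega⟩⟩
  · exact ⟨by omega, by omega, ⟨b - a, by omega⟩⟩

theorem uu_inj {m E h n : ℕ} (hnn : m * (E + h) + E + 2 * m + 12 ≤ n) (q : Fin 3)
    {A : Finset (Fin m)} {i₀ : Fin m} (hi : i₀ ∈ A) {p p' : Fin m → ℕ} (hp : ∀ i, 2 * p i ≤ h)
    (hp' : ∀ i, 2 * p' i ≤ h) (hoff : ∀ i, i ≠ i₀ → p i = p' i)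
    (heq : uu n E p q A = uu n E p' q A) : p = p' := by
  have h3 := sum_le (E := E) A hp
  have h3' := sum_le (E := E) A hp'
  have h4 : ∑ i ∈ A, ee E p i = ∑ i ∈ A, ee E p' i := by
    unfold uu at heq
    split_ifs at heq <;> omega
  rw [← Finset.add_sum_erase _ _ hi, ← Finset.add_sum_erase _ _ hi] at h4
  have h5 : ∑ i ∈ A.erase i₀, ee E p i = ∑ i ∈ A.erase i₀, ee E p' i :=
    Finset.sum_congr rfl fun i hi' => by
      unfold ee
      rw [hoff i (Finset.ne_of_mem_erase hi')]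
  funext i
  by_cases hii : i = i₀
  · subst hii
    unfold ee at h4 h5
    omega
  · exact hoff i hii

/-- the map `p ↦ sh (row C (base ..) i) S` is injective -/
theorem row_inj {k C G h u u' i : ℕ} {i₀ : Fin (k + 1)} (hB : St_BASE) (hk : 1 ≤ k)
    (hG : G ≤ h) (hGC : C * (k + 1) + 2 ≤ G) (hi : i ≤ k + 1) {p p' : Fin (k + 1) → ℕ}
    (hp : ∀ i, 2 * p i ≤ h) (hp' : ∀ i, 2 * p' i ≤ h) (hu : Even u) (hu' : Even u')
    (h1 : 4 * (k + 1) ^ 2 * h ≤ u) (h1' : 4 * (k + 1) ^ 2 * h ≤ u') (S : Finset (Fin (k + 1)))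
    (heq : sh (row C (base h i₀ u p) i) S = sh (row C (base h i₀ u' p') i) S) :
    u = u' ∧ ∀ j, j ≠ i₀ → p j = p' j := by
  obtain ⟨a1, -, a3, -⟩ := hB k G h u i₀ p hk hG hp hu h1
  obtain ⟨b1, -, b3, -⟩ := hB k G h u' i₀ p' hk hG hp' hu' h1'
  have hCi : C * i ≤ G := le_trans (Nat.mul_le_mul_left _ hi) (by omega)
  have hbase : ∀ m, base h i₀ u p m = base h i₀ u' p' m := by
    intro m
    have h2 := congrFun heq m
    unfold sh row at h2
    have h3 := a3 m
    have h4 := b3 m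
    split_ifs at h2 <;> omega
  constructor
  · rw [← a1, ← b1]
    exact Finset.sum_congr rfl fun m _ => hbase m
  · intro j hj
    obtain ⟨m, rfl⟩ := Fin.exists_succAbove_eq hj
    have h2 := hbase m.succ
    unfold base at h2
    rw [Fin.cons_succ, Fin.cons_succ] at h2
    omega

/-- the index type -/
abbrev T (s : ℕ) : Type :=
  (Fin 3 × {A : Finset (Fin (s + 1 + 1)) // A.Nonempty} × Fin (s + 1 + 2) ×
    Finset (Fin (s + 1 + 1))) ⊕ Bool

/-- the maps -/
def f (s n h E C : ℕ) (t : T s) (p : Fin (s + 1 + 1) → ℕ) : Fin (s + 1 + 1) → ℕ :=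
  match t with
  | Sum.inl (c, A, i, S) =>
      sh (row C (base h (A.1.min' A.2) (uu n E p c A.1) p) (i : ℕ)) S
  | Sum.inr false => ee E p
  | Sum.inr true => yy (s := s) E p

end OR

open OR in
/-- ODD from GOOD, BASE, F, CONF -/
theorem ODD_rest (hG : St_GOOD) (hB : St_BASE) (hF : St_F) (hC : St_CONF) : St_ODD := by
  intro k0 hk0
  obtain ⟨s, rfl⟩ : ∃ s, k0 = s + 1 + 1 := ⟨k0 - 2, by omega⟩
  obtain ⟨C, G₀, hC0, hCe, hgood⟩ := hG (s + 1) (by omega)
  obtain ⟨L, hconf⟩ := hC s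
  set G : ℕ := max G₀ (C * (s + 1 + 1) + 2) with hGdef
  set D : ℕ := 20 * (s + 1 + 1) ^ 3 with hD
  have hDpos : 0 < D := by positivity
  refine ⟨(4 * D) ^ (s + 1 + 1) * (((s + 1 + 1) + 1).factorial * Fintype.card (T s)), D * (2 * (G + L + (s + 1 + 1) + 20)), ?_,
    ?_⟩
  · have : 0 < Fintype.card (T s) := Fintype.card_pos_iff.2 ⟨Sum.inr false⟩
    positivity
  intro V n hn ho hNP
  set h : ℕ := n / D with hh
  set N : ℕ := h / 2 with hN
  set E : ℕ := 8 * (s + 1 + 1) ^ 2 * h with hE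
  have hh1 : 2 * (G + L + (s + 1 + 1) + 20) ≤ h := by
    rw [hh, Nat.le_div_iff_mul_le hDpos, mul_comm]
    exact hn
  have hDh : D * h ≤ n := Nat.mul_div_le n D
  have hnlt : n < D * (h + 1) := by
    rw [hh]
    exact Nat.lt_mul_div_succ n hDpos
  have hk2 : 2 ≤ (s + 1 + 1) := by omega
  have hEe : Even E := ⟨4 * (s + 1 + 1) ^ 2 * h, by rw [hE]; ring⟩
  have hEh : h ≤ E := by
    rw [hE]
    nlinarith [Nat.one_le_pow 2 (s + 1 + 1) (by omega)]
  have hE2 : 2 * (s + 1 + 1) + 10 ≤ E := by omega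
  have hE4 : 4 * (s + 1 + 1) ^ 2 * h ≤ E := by
    rw [hE]
    exact Nat.mul_le_mul_right _ (Nat.mul_le_mul_right _ (by norm_num))
  have hnn : (s + 1 + 1) * (E + h) + E + 2 * (s + 1 + 1) + 12 + L ≤ n := by
    have h1 : (s + 1 + 1) * (E + h) + E + h ≤ D * h := by
      rw [hE, hD]
      have hk3 : (s + 1 + 1) ^ 2 * 2 ≤ (s + 1 + 1) ^ 3 := by
        rw [pow_succ (s + 1 + 1) 2]
        exact Nat.mul_le_mul_left _ hk2
      have hk4 : (s + 1 + 1) * 4 ≤ (s + 1 + 1) ^ 3 := by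
        calc (s + 1 + 1) * 4 ≤ (s + 1 + 1) * (s + 1 + 1) ^ 2 := Nat.mul_le_mul_left _ (by nlinarith)
          _ = (s + 1 + 1) ^ 3 := by ring
      calc (s + 1 + 1) * (8 * (s + 1 + 1) ^ 2 * h + h) + 8 * (s + 1 + 1) ^ 2 * h + h
          = (8 * (s + 1 + 1) ^ 3 + (s + 1 + 1) + 8 * (s + 1 + 1) ^ 2 + 1) * h := by ring
        _ ≤ 20 * (s + 1 + 1) ^ 3 * h := Nat.mul_le_mul_right _ (by omega)
    omega
  have hGh : G ≤ h := by omega
  have hGG : C * (s + 1 + 1) + 2 ≤ G := le_max_right _ _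
  have hG0 : G₀ ≤ G := le_max_left _ _
  have hp2 : ∀ p : Fin (s + 1 + 1) → ℕ, (∀ i, 1 ≤ p i ∧ p i ≤ N) → ∀ i, 2 * p i ≤ h := by
    intro p hp i
    have := (hp i).2
    omega
  have key := hF V n (s + 1 + 1) N (T s) (f s n h E C) ?_ ?_ ?_
  · have h4 : n ≤ 4 * D * N := by
      have h5 : h + 1 ≤ 4 * N := by omega
      calc n ≤ D * (h + 1) := hnlt.le
        _ ≤ D * (4 * N) := Nat.mul_le_mul_left _ h5
        _ = 4 * D * N := by ring
    calc n ^ (s + 1 + 1) ≤ (4 * D * N) ^ (s + 1 + 1) := Nat.pow_le_pow_left h4 (s + 1 + 1)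
      _ = (4 * D) ^ (s + 1 + 1) * N ^ (s + 1 + 1) := by rw [mul_pow]
      _ ≤ (4 * D) ^ (s + 1 + 1) * (((s + 1 + 1) + 1).factorial * Fintype.card (T s) * (Out V n ((s + 1 + 1) + 1)).ncard) :=
          Nat.mul_le_mul_left _ key
      _ = _ := by ring
  · -- entries and sums
    intro t p hp
    have hpp := hp2 p hp
    match t with
    | Sum.inl (c, A, i, S) =>
      obtain ⟨u1, u2, u3⟩ := uu_bounds (m := s + 1 + 1) hEe ho hE2 (by omega) c A.2 hpp
      obtain ⟨r1, r2⟩ := odd_row hB (by omega : 1 ≤ s + 1) hGG (A.1.min' A.2) p hGh hpp u3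
        (hE4.trans u1) (i : ℕ) (by omega) S
      refine ⟨r1, ?_⟩
      have hS : S.card ≤ s + 1 + 1 := by
        have := Finset.card_le_univ S
        rwa [Fintype.card_fin] at this
      change ∑ m, sh (row C (base h (A.1.min' A.2) (uu n E p c A.1) p) (i : ℕ)) S m + 2 ≤ n
      rw [r2]
      omega
    | Sum.inr false =>
      refine ⟨fun i => ?_, ?_⟩
      · change 2 ≤ ee E p i
        unfold ee
        omega
      · change ∑ i, ee E p i + 2 ≤ n
        have := sum_le (E := E) (Finset.univ) hpp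
        omega
    | Sum.inr true =>
      refine ⟨fun i => ?_, ?_⟩
      · change 2 ≤ yy (s := s) E p i
        unfold yy ee
        omega
      · change ∑ i, yy (s := s) E p i + 2 ≤ n
        have h1 := sum_le (E := E) (Finset.univ) hpp
        have h2 : ∑ i, yy (s := s) E p i ≤ ∑ i, ee E p i + (s + 1 + 1) := by
          unfold yy
          rw [Finset.sum_add_distrib]
          have h3 : ∑ i : Fin (s + 2), (if s ≤ (i : ℕ) then 1 else 0) ≤ ∑ _i : Fin (s + 2), 1 :=
            Finset.sum_le_sum fun i _ => by split_ifs <;> omega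
          rw [Finset.sum_const, Finset.card_univ, Fintype.card_fin, smul_eq_mul, mul_one] at h3
          exact Nat.add_le_add_left h3 _
        omega
  · -- injectivity
    intro t p p' hp hp' heq
    have hpp := hp2 p hp
    have hpp' := hp2 p' hp'
    match t with
    | Sum.inl (c, A, i, S) =>
      obtain ⟨u1, u2, u3⟩ := uu_bounds (m := s + 1 + 1) hEe ho hE2 (by omega) c A.2 hpp
      obtain ⟨v1, v2, v3⟩ := uu_bounds (m := s + 1 + 1) hEe ho hE2 (by omega) c A.2 hpp'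
      obtain ⟨r1, r2⟩ := row_inj hB (by omega : 1 ≤ s + 1) hGh hGG (by omega : (i : ℕ) ≤ s + 1 + 1)
        hpp hpp' u3 v3 (hE4.trans u1) (hE4.trans v1) S heq
      exact uu_inj (m := s + 1 + 1) (by omega) c (Finset.min'_mem A.1 A.2) hpp hpp' r2 r1
    | Sum.inr false =>
      funext i
      have h1 := congrFun heq i
      change ee E p i = ee E p' i at h1
      unfold ee at h1
      omega
    | Sum.inr true =>
      funext i
      have h1 := congrFun heq i
      change yy (s := s) E p i = yy (s := s) E p' i at h1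
      unfold yy ee at h1
      omega
  · -- not all clean
    intro p hp
    have hpp := hp2 p hp
    by_contra hcon
    push Not at hcon
    refine hconf V n E p ho hEe (by omega) ?_ hNP ?_ (hcon (Sum.inr false)) (hcon (Sum.inr true))
    · have := sum_le (E := E) (Finset.univ) hpp
      exact le_trans (Nat.add_le_add_right (Nat.add_le_add_right this 2) L) (by omega)
    · intro c A hA
      obtain ⟨u1, u2, u3⟩ := uu_bounds (m := s + 1 + 1) hEe ho hE2 (by omega) c hA hpp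
      obtain ⟨b1, b2, b3, b4⟩ := hB (s + 1) G h (uu n E p c A) (A.min' hA) p (by omega) hGh hpp u3
        (hE4.trans u1)
      have h2 := hgood V n (base h (A.min' hA) (uu n E p c A) p) b2 (fun m => hG0.trans (b3 m))
        (fun m m' hm => (Nat.add_le_add_left hG0 _).trans (b4 m m' hm)) (by rw [b1]; omega)
        (fun i hi S => hcon (Sum.inl (c, ⟨A, hA⟩, ⟨i, by omega⟩, S)))
      rw [b1] at h2
      exact h2

end Pool.Agent.MZG
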