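import Pool.Agent.MZG.Defs

set_option autoImplicit false

/-!
# MZG, module PERM: `JL` does not depend on the order
-/

namespace Pool.Agent.MZG

theorem J_equiv {k l : ℕ} (e : Fin k ≃ Fin l) (x : Fin l → ℕ) : J (x ∘ e) = J x := by
  unfold J
  let E : (Fin l ↪ ℕ) ≃ (Fin k ↪ ℕ) := Equiv.embeddingCongr e.symm (Equiv.refl ℕ)
  rw [← Equiv.tsum_eq E]
  apply tsum_congr
  intro n
  have h : ∀ i, E n i = n (e i) := fun i => rfl
  simp only [h, Function.comp_apply]
  exact Equiv.prod_comp e (fun j => (1 / ((n j : ℝ) + 1)) ^ (x j))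

theorem exists_equiv {L L' : List ℕ} (h : L.Perm L') :
    ∃ e : Fin L.length ≃ Fin L'.length, ∀ i, L'.get (e i) = L.get i := by
  induction h with
  | nil => exact ⟨Equiv.refl _, fun i => rfl⟩
  | @cons a l₁ l₂ _ ih =>
    obtain ⟨e, he⟩ := ih
    refine ⟨(finSuccEquiv _).trans (e.optionCongr.trans (finSuccEquiv _).symm), ?_⟩
    intro i
    refine Fin.cases ?_ (fun j => ?_) i
    · rfl
    · have : ((finSuccEquiv l₁.length).trans (e.optionCongr.trans
          (finSuccEquiv l₂.length).symm)) j.succ = (e j).succ := by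
        simp
      change (a :: l₂).get (((finSuccEquiv l₁.length).trans (e.optionCongr.trans
          (finSuccEquiv l₂.length).symm)) j.succ) = (a :: l₁).get j.succ
      rw [this]
      exact he j
  | swap a b l =>
    refine ⟨Equiv.swap (0 : Fin (l.length + 2)) 1, ?_⟩
    intro i
    change (a :: b :: l).get (Equiv.swap (0 : Fin (l.length + 2)) 1 i) = (b :: a :: l).get i
    refine Fin.cases ?_ (fun j => ?_) i
    · rw [Equiv.swap_apply_left]
      rfl
    · refine Fin.cases ?_ (fun j => ?_) j
      · have : (Fin.succ 0 : Fin (l.length + 2)) = 1 := rfl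
        rw [this, Equiv.swap_apply_right]
        rfl
      · rw [Equiv.swap_apply_of_ne_of_ne]
        · rfl
        · exact Fin.succ_ne_zero _
        · intro h
          have h1 := congrArg Fin.val h
          simp at h1
  | trans _ _ ih₁ ih₂ =>
    obtain ⟨e, he⟩ := ih₁
    obtain ⟨e', he'⟩ := ih₂
    exact ⟨e.trans e', fun i => (he' (e i)).trans (he i)⟩

theorem PERM : St_PERM := by
  refine ⟨fun L L' h => ?_, fun k x => ?_⟩
  · obtain ⟨e, he⟩ := exists_equiv h
    have : L.get = L'.get ∘ e := funext fun i => (he i).symm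
    unfold JL
    rw [this, J_equiv]
  · unfold JL
    have h : (List.ofFn x).length = k := List.length_ofFn
    have : (List.ofFn x).get = x ∘ (finCongr h) := by
      funext i
      rw [List.get_ofFn]
      rfl
    rw [this, J_equiv]

end Pool.Agent.MZG
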