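import Pool.Agent.MZG.Defs
import Pool.Agent.MZT.B0

/-!
# MZG, module TT (helper57): sums over injective tuples with three odd entries, from the recursion only
-/

set_option autoImplicit false

namespace Pool.Agent.MZG.TP

open Pool.Agent.MZG (bumps)

/-- the sums of the sublists -/
def ss : List ℕ → Set ℕ
  | [] => {0}
  | x :: t => ss t ∪ {w | ∃ v ∈ ss t, w = x + v}

theorem ss_zero (l : List ℕ) : 0 ∈ ss l := by
  induction l with
  | nil => exact rfl
  | cons x t ih => exact Or.inl ih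

theorem ss_le (l : List ℕ) : ∀ w ∈ ss l, w ≤ l.sum := by
  induction l with
  | nil => intro w hw; rw [hw]; simp
  | cons x t ih =>
    intro w hw
    rw [List.sum_cons]
    rcases hw with hw | ⟨v, hv, rfl⟩
    · have := ih w hw; omega
    · have := ih v hv; omega

theorem ss_bumps (x : ℕ) (l : List ℕ) : ∀ ys ∈ bumps x l, ss ys ⊆ ss (x :: l) := by
  induction l with
  | nil => intro ys hys; simp [bumps] at hys
  | cons y t ih =>
    intro ys hys
    rw [bumps, List.mem_cons, List.mem_map] at hys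
    rcases hys with rfl | ⟨u, hu, rfl⟩
    · rintro w (hw | ⟨v, hv, rfl⟩)
      · exact Or.inl (Or.inl hw)
      · exact Or.inr ⟨y + v, Or.inr ⟨v, hv, rfl⟩, by ring⟩
    · have h := ih u hu
      rintro w (hw | ⟨v, hv, rfl⟩)
      · rcases h hw with h1 | ⟨v, hv, rfl⟩
        · exact Or.inl (Or.inl h1)
        · exact Or.inr ⟨v, Or.inl hv, rfl⟩
      · rcases h hv with h1 | ⟨v', hv', rfl⟩
        · exact Or.inl (Or.inr ⟨v, h1, rfl⟩)
        · exact Or.inr ⟨y + v', Or.inr ⟨v', hv', rfl⟩, by ring⟩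

theorem adds_append (b : ℕ) (l m : List ℕ) :
    bumps b (l ++ m) = (bumps b l).map (fun u => u ++ m) ++ (bumps b m).map (fun u => l ++ u) := by
  induction l with
  | nil => simp [bumps]
  | cons a t ih =>
    rw [List.cons_append, bumps, ih, bumps]
    simp [Function.comp_def]

theorem adds_prop (b : ℕ) (l : List ℕ) : ∀ u ∈ bumps b l,
    u.length = l.length ∧ u.sum = l.sum + b ∧
      ∀ M : ℕ, (∀ a ∈ l, M ≤ a ∧ Even a) → Even b → ∀ a ∈ u, M ≤ a ∧ Even a := by
  induction l with
  | nil => intro u hu; simp [bumps] at hu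
  | cons a t ih =>
    intro u hu
    rw [bumps, List.mem_cons, List.mem_map] at hu
    rcases hu with rfl | ⟨v, hv, rfl⟩
    · refine ⟨by simp, by simp; ring, ?_⟩
      intro M hw hb c hc
      rcases List.mem_cons.1 hc with rfl | hc
      · have := hw a (by simp)
        exact ⟨by omega, this.2.add hb⟩
      · exact hw c (by simp [hc])
    · obtain ⟨h1, h2, h3⟩ := ih v hv
      refine ⟨by simp [h1], by simp [h2]; ring, ?_⟩
      intro M hw hb c hc
      rcases List.mem_cons.1 hc with rfl | hc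
      · exact hw c (by simp)
      · exact h3 M (fun d hd => hw d (by simp [hd])) hb c hc

theorem adds_len (b : ℕ) (l : List ℕ) : (bumps b l).length = l.length := by
  induction l with
  | nil => simp [bumps]
  | cons a t ih => rw [bumps]; simp [ih]

section

variable (V : Submodule ℚ ℝ) (J : List ℕ → ℝ) (z : ℕ → ℝ)

/-- the hypotheses on `J` and `z` -/
structure Rec : Prop where
  J0 : J [] = 1
  step : ∀ (b : ℕ) (l : List ℕ), 2 ≤ b → (∀ a ∈ l, 2 ≤ a) →
    J (b :: l) = z b * J l - ((bumps b l).map J).sum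
  ev : ∀ a : ℕ, 2 ≤ a → Even a → ∃ q : ℚ, z a = q * Real.pi ^ a

variable {V J z}

theorem qmul {q : ℚ} {v : ℝ} (hv : v ∈ V) : (q : ℝ) * v ∈ V := by
  have h := V.smul_mem q hv
  rwa [Rat.smul_def] at h

theorem sum_mem' (f : List ℕ → ℝ) (l : List (List ℕ)) (h : ∀ u ∈ l, f u ∈ V) :
    (l.map f).sum ∈ V := by
  induction l with
  | nil => simp
  | cons a t ih =>
    rw [List.map_cons, List.sum_cons]
    exact V.add_mem (h a (by simp)) (ih fun u hu => h u (by simp [hu]))

theorem mul_sum' (c : ℝ) (f : List ℕ → ℝ) (l : List (List ℕ)) :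
    c * (l.map f).sum = (l.map fun u => c * f u).sum := by
  induction l with
  | nil => simp
  | cons a t ih => rw [List.map_cons, List.sum_cons, List.map_cons, List.sum_cons, mul_add, ih]

theorem sub_sum' (f g : List ℕ → ℝ) (l : List (List ℕ)) :
    (l.map f).sum - (l.map g).sum = (l.map fun u => f u - g u).sum := by
  induction l with
  | nil => simp
  | cons a t ih =>
    rw [List.map_cons, List.sum_cons, List.map_cons, List.sum_cons, List.map_cons, List.sum_cons,
      ← ih]
    ring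

/-- one more entry in front of a list with a tail -/
theorem Rec.front (h : Rec J z) {x : ℕ} {xs m : List ℕ} (hx : 2 ≤ x)
    (hl : ∀ a ∈ xs ++ m, 2 ≤ a) :
    J (x :: xs ++ m) = z x * J (xs ++ m) - ((bumps x xs).map fun u => J (u ++ m)).sum -
      ((bumps x m).map fun u => J (xs ++ u)).sum := by
  rw [List.cons_append, h.step x (xs ++ m) hx hl, adds_append, List.map_append, List.sum_append,
    List.map_map, List.map_map]
  simp only [Function.comp_def]
  ring

/-- one odd entry: everything is in `V` -/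
theorem one_in (h : Rec J z) (n : ℕ) : ∀ (s : ℕ) (xs : List ℕ) (c e : ℕ), xs.length = s →
    (∀ x ∈ xs, 2 ≤ x ∧ Even x) → 2 ≤ c → e + xs.sum + c = n →
    (∀ w ∈ ss xs, z (c + w) * Real.pi ^ (n - (c + w)) ∈ V) →
    Real.pi ^ e * J (xs ++ [c]) ∈ V := by
  intro s
  induction s with
  | zero =>
    intro xs c e hs hx hc hn hW
    have hxs : xs = [] := List.length_eq_zero_iff.1 hs
    subst hxs
    have h1 := h.step c [] hc (by simp)
    rw [List.nil_append, h1, h.J0]
    simp only [bumps, List.map_nil, List.sum_nil, sub_zero, mul_one]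
    have h2 := hW 0 (ss_zero _)
    rw [add_zero] at h2
    have h3 : n - c = e := by simp at hn; omega
    rw [h3] at h2
    rwa [mul_comm] at h2
  | succ s ih =>
    intro xs c e hs hx hc hn hW
    obtain ⟨x, t, rfl⟩ : ∃ x t, xs = x :: t := by
      cases xs with
      | nil => simp at hs
      | cons x t => exact ⟨x, t, rfl⟩
    have ht : t.length = s := by simpa using hs
    have hx1 := hx x (by simp)
    have hxt : ∀ y ∈ t, 2 ≤ y ∧ Even y := fun y hy => hx y (by simp [hy])
    rw [List.sum_cons] at hn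
    rw [h.front hx1.1 (by
      intro a ha
      rcases List.mem_append.1 ha with ha | ha
      · exact (hxt a ha).1
      · rw [List.mem_singleton] at ha; rw [ha]; exact hc)]
    obtain ⟨q, hq⟩ := h.ev x hx1.1 hx1.2
    rw [mul_sub, mul_sub]
    refine V.sub_mem (V.sub_mem ?_ ?_) ?_
    · have h1 := ih t c (e + x) ht hxt hc (by omega) (fun w hw => hW w (Or.inl hw))
      have h2 := qmul (q := q) h1
      rw [hq]
      have h3 : Real.pi ^ e * (q * Real.pi ^ x * J (t ++ [c])) =
          q * (Real.pi ^ (e + x) * J (t ++ [c])) := by rw [pow_add]; ring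
      rw [h3]
      exact h2
    · rw [mul_sum']
      refine sum_mem' _ _ fun u hu => ?_
      obtain ⟨a1, a2, a3⟩ := adds_prop x t u hu
      exact ih u c e (by omega) (a3 2 hxt hx1.2) hc (by omega)
        (fun w hw => hW w (ss_bumps x t u hu hw))
    · simp only [bumps, List.map_nil, List.map_cons, List.sum_cons, List.sum_nil, add_zero]
      refine ih t (c + x) e ht hxt (by omega) (by omega) fun w hw => ?_
      have h1 := hW (x + w) (Or.inr ⟨w, hw, rfl⟩)
      rwa [← add_assoc] at h1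

/-- one odd entry: `z n` up to `V` -/
theorem one_top (h : Rec J z) (n : ℕ) : ∀ (s : ℕ) (xs : List ℕ) (c : ℕ), xs.length = s →
    (∀ x ∈ xs, 2 ≤ x ∧ Even x) → 2 ≤ c → xs.sum + c = n →
    (∀ w ∈ ss xs, c + w < n → z (c + w) * Real.pi ^ (n - (c + w)) ∈ V) →
    J (xs ++ [c]) - (-1) ^ s * (s.factorial : ℝ) * z n ∈ V := by
  intro s
  induction s with
  | zero =>
    intro xs c hs hx hc hn hW
    have hxs : xs = [] := List.length_eq_zero_iff.1 hs
    subst hxs
    have h1 := h.step c [] hc (by simp)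
    rw [List.nil_append, h1, h.J0]
    have h3 : c = n := by simpa using hn
    simp [bumps, h3]
  | succ s ih =>
    intro xs c hs hx hc hn hW
    obtain ⟨x, t, rfl⟩ : ∃ x t, xs = x :: t := by
      cases xs with
      | nil => simp at hs
      | cons x t => exact ⟨x, t, rfl⟩
    have ht : t.length = s := by simpa using hs
    have hx1 := hx x (by simp)
    have hxt : ∀ y ∈ t, 2 ≤ y ∧ Even y := fun y hy => hx y (by simp [hy])
    rw [List.sum_cons] at hn
    rw [h.front hx1.1 (by
      intro a ha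
      rcases List.mem_append.1 ha with ha | ha
      · exact (hxt a ha).1
      · rw [List.mem_singleton] at ha; rw [ha]; exact hc)]
    obtain ⟨q, hq⟩ := h.ev x hx1.1 hx1.2
    have p1 : z x * J (t ++ [c]) ∈ V := by
      have h1 := one_in h n s t c x ht hxt hc (by omega) (fun w hw => hW w (Or.inl hw) (by
        have := ss_le t w hw
        omega))
      have h2 := qmul (q := q) h1
      rw [hq]
      have h3 : q * Real.pi ^ x * J (t ++ [c]) = q * (Real.pi ^ x * J (t ++ [c])) := by ring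
      rw [h3]
      exact h2
    have p2 : J (t ++ [c + x]) - (-1) ^ s * (s.factorial : ℝ) * z n ∈ V := by
      refine ih t (c + x) ht hxt (by omega) (by omega) fun w hw hlt => ?_
      have h1 := hW (x + w) (Or.inr ⟨w, hw, rfl⟩) (by omega)
      rwa [← add_assoc] at h1
    have p3 : ((bumps x t).map fun u => (J (u ++ [c]) - (-1) ^ s * (s.factorial : ℝ) * z n)).sum ∈
        V := by
      refine sum_mem' _ _ fun u hu => ?_
      obtain ⟨a1, a2, a3⟩ := adds_prop x t u hu
      exact ih u c (by omega) (a3 2 hxt hx1.2) hc (by omega)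
        (fun w hw hlt => hW w (ss_bumps x t u hu hw) hlt)
    rw [← sub_sum'] at p3
    have p4 : ((bumps x t).map fun _ => (-1) ^ s * (s.factorial : ℝ) * z n).sum =
        s * ((-1) ^ s * (s.factorial : ℝ) * z n) := by
      rw [List.map_const', List.sum_replicate, adds_len, ht, nsmul_eq_mul]
    rw [p4] at p3
    have p5 : ((bumps x [c]).map fun u => J (t ++ u)).sum = J (t ++ [c + x]) := by
      simp [bumps]
    rw [p5]
    have key : z x * J (t ++ [c]) - ((bumps x t).map fun u => J (u ++ [c])).sum -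
        J (t ++ [c + x]) - (-1) ^ (s + 1) * ((s + 1).factorial : ℝ) * z n =
        z x * J (t ++ [c]) - (J (t ++ [c + x]) - (-1) ^ s * (s.factorial : ℝ) * z n) -
        (((bumps x t).map fun u => J (u ++ [c])).sum -
          s * ((-1) ^ s * (s.factorial : ℝ) * z n)) := by
      rw [Nat.factorial_succ]
      push_cast
      ring
    rw [key]
    exact V.sub_mem (V.sub_mem p1 p2) p3

/-- `z n` is in `V` -/
theorem top_in (h : Rec J z) {n c : ℕ} {xs : List ℕ}
    (hx : ∀ x ∈ xs, 2 ≤ x ∧ Even x) (hc : 2 ≤ c) (hn : xs.sum + c = n)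
    (hW : ∀ w ∈ ss xs, c + w < n → z (c + w) * Real.pi ^ (n - (c + w)) ∈ V)
    (hJ : J (xs ++ [c]) ∈ V) : z n ∈ V := by
  have h1 := one_top h n xs.length xs c rfl hx hc hn hW
  have h2 : (-1) ^ xs.length * (xs.length.factorial : ℝ) * z n ∈ V := by
    have := V.sub_mem hJ h1
    rwa [sub_sub_cancel] at this
  have h3 : ((-1) ^ xs.length * (xs.length.factorial : ℚ) : ℚ) ≠ 0 :=
    mul_ne_zero (pow_ne_zero _ (by norm_num)) (by exact_mod_cast Nat.factorial_ne_zero _)
  have h4 := qmul (q := ((-1) ^ xs.length * (xs.length.factorial : ℚ) : ℚ)⁻¹) h2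
  have h5 : ((((-1) ^ xs.length * (xs.length.factorial : ℚ) : ℚ)⁻¹ : ℚ) : ℝ) *
      ((-1) ^ xs.length * (xs.length.factorial : ℝ) * z n) = z n := by
    have h6 : ((((-1) ^ xs.length * (xs.length.factorial : ℚ) : ℚ) : ℚ) : ℝ) =
        (-1) ^ xs.length * (xs.length.factorial : ℝ) := by push_cast; ring
    rw [Rat.cast_inv, h6, ← mul_assoc, inv_mul_cancel₀, one_mul]
    rw [← h6]
    exact_mod_cast h3
  rwa [h5] at h4

/-- the part with three odd blocks -/
noncomputable def LT (z : ℕ → ℝ) : ℕ → List ℕ → ℕ → ℕ → ℕ → ℝ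
  | 0, _, a, b, c => z a * z b * z c
  | _ + 1, [], _, _, _ => 0
  | s + 1, x :: t, a, b, c => z x * LT z s t a b c - ((bumps x t).map fun u => LT z s u a b c).sum -
      (LT z s t (a + x) b c + LT z s t a (b + x) c + LT z s t a b (c + x))

theorem LT_succ (s x : ℕ) (t : List ℕ) (a b c : ℕ) : LT z (s + 1) (x :: t) a b c =
    z x * LT z s t a b c - ((bumps x t).map fun u => LT z s u a b c).sum -
      (LT z s t (a + x) b c + LT z s t a (b + x) c + LT z s t a b (c + x)) := rfl

/-- two entries -/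
theorem Rec.two (h : Rec J z) {a b : ℕ} (ha : 2 ≤ a) (hb : 2 ≤ b) :
    J [a, b] = z a * z b - z (b + a) := by
  have h1 := h.step a [b] ha (by simpa using hb)
  have h2 := h.step b [] hb (by simp)
  have h3 := h.step (b + a) [] (by omega) (by simp)
  rw [h.J0] at h2 h3
  simp only [bumps, List.map_nil, List.sum_nil, sub_zero, mul_one] at h2 h3
  rw [h1, h2]
  simp only [bumps, List.map_nil, List.map_cons, List.sum_cons, List.sum_nil, add_zero]
  rw [h3]

/-- three entries -/
theorem Rec.three (h : Rec J z) {a b c : ℕ} (ha : 2 ≤ a) (hb : 2 ≤ b) (hc : 2 ≤ c) :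
    J [a, b, c] = z a * z b * z c - z a * z (b + c) - z c * z (a + b) - z b * z (a + c) +
      2 * z (a + b + c) := by
  have h1 := h.step a [b, c] ha (by
    intro x hx
    simp only [List.mem_cons, List.not_mem_nil, or_false] at hx
    rcases hx with rfl | rfl
    · exact hb
    · exact hc)
  rw [h1, h.two hb hc]
  simp only [bumps, List.map_nil, List.map_cons, List.sum_cons, List.sum_nil, add_zero]
  rw [h.two (by omega) hc, h.two hb (by omega)]
  rw [show c + (b + a) = a + b + c by ring, show c + a + b = a + b + c by ring,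
    show c + b = b + c by ring, show b + a = a + b by ring, show c + a = a + c by ring]
  ring

/-- the difference to the part with three odd blocks is in `V` -/
theorem three_in (h : Rec J z) (n : ℕ) : ∀ (s : ℕ) (xs : List ℕ) (a b c e : ℕ), xs.length = s →
    (∀ x ∈ xs, 2 ≤ x ∧ Even x) → 2 ≤ a → 2 ≤ b → 2 ≤ c → Odd a → Odd b → Odd c →
    e + xs.sum + a + b + c = n →
    (∀ w ∈ ss xs, z (a + w) * Real.pi ^ (n - (a + w)) ∈ V ∧
      z (b + w) * Real.pi ^ (n - (b + w)) ∈ V ∧ z (c + w) * Real.pi ^ (n - (c + w)) ∈ V ∧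
      z (a + b + c + w) * Real.pi ^ (n - (a + b + c + w)) ∈ V) →
    Real.pi ^ e * (J (xs ++ [a, b, c]) - LT z s xs a b c) ∈ V := by
  intro s
  induction s with
  | zero =>
    intro xs a b c e hs hx ha hb hc oa ob oc hn hW
    have hxs : xs = [] := List.length_eq_zero_iff.1 hs
    subst hxs
    obtain ⟨w1, w2, w3, w4⟩ := hW 0 (ss_zero _)
    simp only [add_zero] at w1 w2 w3 w4
    simp only [List.sum_nil, add_zero] at hn
    obtain ⟨q1, hq1⟩ := h.ev (b + c) (by omega) (ob.add_odd oc)
    obtain ⟨q2, hq2⟩ := h.ev (a + b) (by omega) (oa.add_odd ob)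
    obtain ⟨q3, hq3⟩ := h.ev (a + c) (by omega) (oa.add_odd oc)
    rw [List.nil_append, h.three ha hb hc]
    have e1 : n - a = e + (b + c) := by omega
    have e2 : n - b = e + (a + c) := by omega
    have e3 : n - c = e + (a + b) := by omega
    have e4 : n - (a + b + c) = e := by omega
    rw [e1] at w1
    rw [e2] at w2
    rw [e3] at w3
    rw [e4] at w4
    have k4 : (2 : ℝ) * (z (a + b + c) * Real.pi ^ e) ∈ V := by
      rw [two_mul]
      exact V.add_mem w4 w4
    have key : Real.pi ^ e * (z a * z b * z c - z a * z (b + c) - z c * z (a + b) -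
        z b * z (a + c) + 2 * z (a + b + c) - LT z 0 [] a b c) =
        2 * (z (a + b + c) * Real.pi ^ e) - q1 * (z a * Real.pi ^ (e + (b + c))) -
        q2 * (z c * Real.pi ^ (e + (a + b))) - q3 * (z b * Real.pi ^ (e + (a + c))) := by
      rw [hq1, hq2, hq3, LT, pow_add, pow_add, pow_add]
      ring
    rw [key]
    exact V.sub_mem (V.sub_mem (V.sub_mem k4 (qmul w1)) (qmul w3)) (qmul w2)
  | succ s ih =>
    intro xs a b c e hs hx ha hb hc oa ob oc hn hW
    obtain ⟨x, t, rfl⟩ : ∃ x t, xs = x :: t := by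
      cases xs with
      | nil => simp at hs
      | cons x t => exact ⟨x, t, rfl⟩
    have ht : t.length = s := by simpa using hs
    have hx1 := hx x (by simp)
    have hxt : ∀ y ∈ t, 2 ≤ y ∧ Even y := fun y hy => hx y (by simp [hy])
    rw [List.sum_cons] at hn
    rw [h.front hx1.1 (by
      intro y hy
      rcases List.mem_append.1 hy with hy | hy
      · exact (hxt y hy).1
      · simp only [List.mem_cons, List.not_mem_nil, or_false] at hy
        rcases hy with rfl | rfl | rfl
        · exact ha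
        · exact hb
        · exact hc), LT_succ]
    obtain ⟨q, hq⟩ := h.ev x hx1.1 hx1.2
    have p0 : q * (Real.pi ^ (e + x) * (J (t ++ [a, b, c]) - LT z s t a b c)) ∈ V :=
      qmul (ih t a b c (e + x) ht hxt ha hb hc oa ob oc (by omega) (fun w hw => hW w (Or.inl hw)))
    have p1 : ((bumps x t).map fun u =>
        Real.pi ^ e * (J (u ++ [a, b, c]) - LT z s u a b c)).sum ∈ V := by
      refine sum_mem' _ _ fun u hu => ?_
      obtain ⟨a1, a2, a3⟩ := adds_prop x t u hu
      exact ih u a b c e (by omega) (a3 2 hxt hx1.2) ha hb hc oa ob oc (by omega)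
        (fun w hw => hW w (ss_bumps x t u hu hw))
    have p2 := ih t (a + x) b c e ht hxt (by omega) hb hc (oa.add_even hx1.2) ob oc (by omega)
      (fun w hw => by
        obtain ⟨v1, v2, v3, v4⟩ := hW w (Or.inl hw)
        obtain ⟨w1, w2, w3, w4⟩ := hW (x + w) (Or.inr ⟨w, hw, rfl⟩)
        refine ⟨?_, v2, v3, ?_⟩
        · rwa [← add_assoc] at w1
        · rwa [show a + b + c + (x + w) = a + x + b + c + w by ring] at w4)
    have p3 := ih t a (b + x) c e ht hxt ha (by omega) hc oa (ob.add_even hx1.2) oc (by omega)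
      (fun w hw => by
        obtain ⟨v1, v2, v3, v4⟩ := hW w (Or.inl hw)
        obtain ⟨w1, w2, w3, w4⟩ := hW (x + w) (Or.inr ⟨w, hw, rfl⟩)
        refine ⟨v1, ?_, v3, ?_⟩
        · rwa [← add_assoc] at w2
        · rwa [show a + b + c + (x + w) = a + (b + x) + c + w by ring] at w4)
    have p4 := ih t a b (c + x) e ht hxt ha hb (by omega) oa ob (oc.add_even hx1.2) (by omega)
      (fun w hw => by
        obtain ⟨v1, v2, v3, v4⟩ := hW w (Or.inl hw)
        obtain ⟨w1, w2, w3, w4⟩ := hW (x + w) (Or.inr ⟨w, hw, rfl⟩)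
        refine ⟨v1, v2, ?_, ?_⟩
        · rwa [← add_assoc] at w3
        · rwa [show a + b + c + (x + w) = a + b + (c + x) + w by ring] at w4)
    rw [← mul_sum', ← sub_sum'] at p1
    have p5 : ((bumps x [a, b, c]).map fun u => J (t ++ u)).sum = J (t ++ [a + x, b, c]) +
        J (t ++ [a, b + x, c]) + J (t ++ [a, b, c + x]) := by
      simp [bumps]
      ring
    rw [p5]
    have key : Real.pi ^ e * (z x * J (t ++ [a, b, c]) -
        ((bumps x t).map fun u => J (u ++ [a, b, c])).sum -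
        (J (t ++ [a + x, b, c]) + J (t ++ [a, b + x, c]) + J (t ++ [a, b, c + x])) -
        (z x * LT z s t a b c - ((bumps x t).map fun u => LT z s u a b c).sum -
        (LT z s t (a + x) b c + LT z s t a (b + x) c + LT z s t a b (c + x)))) =
        q * (Real.pi ^ (e + x) * (J (t ++ [a, b, c]) - LT z s t a b c)) -
        Real.pi ^ e * (((bumps x t).map fun u => J (u ++ [a, b, c])).sum -
          ((bumps x t).map fun u => LT z s u a b c).sum) -
        Real.pi ^ e * (J (t ++ [a + x, b, c]) - LT z s t (a + x) b c) -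
        Real.pi ^ e * (J (t ++ [a, b + x, c]) - LT z s t a (b + x) c) -
        Real.pi ^ e * (J (t ++ [a, b, c + x]) - LT z s t a b (c + x)) := by
      rw [hq, pow_add]
      ring
    rw [key]
    exact V.sub_mem (V.sub_mem (V.sub_mem (V.sub_mem p0 p1) p2) p3) p4

/-- `pi ^ (2 n)` times the part with three odd blocks is in `V V V` -/
theorem three_prod (h : Rec J z) (n : ℕ) : ∀ (s : ℕ) (xs : List ℕ) (a b c e : ℕ), xs.length = s →
    (∀ x ∈ xs, 2 ≤ x ∧ Even x) →
    e + xs.sum + a + b + c = n →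
    (∀ w ∈ ss xs, z (a + w) * Real.pi ^ (n - (a + w)) ∈ V ∧
      z (b + w) * Real.pi ^ (n - (b + w)) ∈ V ∧ z (c + w) * Real.pi ^ (n - (c + w)) ∈ V) →
    Real.pi ^ (2 * n) * (Real.pi ^ e * LT z s xs a b c) ∈ V * V * V := by
  intro s
  induction s with
  | zero =>
    intro xs a b c e hs hx hn hW
    have hxs : xs = [] := List.length_eq_zero_iff.1 hs
    subst hxs
    obtain ⟨w1, w2, w3⟩ := hW 0 (ss_zero _)
    simp only [add_zero] at w1 w2 w3
    simp only [List.sum_nil, add_zero] at hn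
    have h1 := Submodule.mul_mem_mul (Submodule.mul_mem_mul w1 w2) w3
    have h2 : z a * Real.pi ^ (n - a) * (z b * Real.pi ^ (n - b)) * (z c * Real.pi ^ (n - c)) =
        Real.pi ^ (2 * n) * (Real.pi ^ e * LT z 0 [] a b c) := by
      have h3 : Real.pi ^ (n - a) * Real.pi ^ (n - b) * Real.pi ^ (n - c) =
          Real.pi ^ (2 * n) * Real.pi ^ e := by
        rw [← pow_add, ← pow_add, ← pow_add]
        congr 1
        omega
      rw [LT]
      linear_combination (z a * z b * z c) * h3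
    rwa [h2] at h1
  | succ s ih =>
    intro xs a b c e hs hx hn hW
    obtain ⟨x, t, rfl⟩ : ∃ x t, xs = x :: t := by
      cases xs with
      | nil => simp at hs
      | cons x t => exact ⟨x, t, rfl⟩
    have ht : t.length = s := by simpa using hs
    have hx1 := hx x (by simp)
    have hxt : ∀ y ∈ t, 2 ≤ y ∧ Even y := fun y hy => hx y (by simp [hy])
    rw [List.sum_cons] at hn
    rw [LT_succ]
    obtain ⟨q, hq⟩ := h.ev x hx1.1 hx1.2
    have p0 : q * (Real.pi ^ (2 * n) * (Real.pi ^ (e + x) * LT z s t a b c)) ∈ V * V * V :=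
      qmul (ih t a b c (e + x) ht hxt (by omega) (fun w hw => hW w (Or.inl hw)))
    have p1 : ((bumps x t).map fun u =>
        Real.pi ^ (2 * n) * (Real.pi ^ e * LT z s u a b c)).sum ∈ V * V * V := by
      refine sum_mem' _ _ fun u hu => ?_
      obtain ⟨a1, a2, a3⟩ := adds_prop x t u hu
      exact ih u a b c e (by omega) (a3 2 hxt hx1.2) (by omega)
        (fun w hw => hW w (ss_bumps x t u hu hw))
    have p2 := ih t (a + x) b c e ht hxt (by omega)
      (fun w hw => by
        obtain ⟨v1, v2, v3⟩ := hW w (Or.inl hw)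
        obtain ⟨w1, w2, w3⟩ := hW (x + w) (Or.inr ⟨w, hw, rfl⟩)
        refine ⟨?_, v2, v3⟩
        rwa [← add_assoc] at w1)
    have p3 := ih t a (b + x) c e ht hxt (by omega)
      (fun w hw => by
        obtain ⟨v1, v2, v3⟩ := hW w (Or.inl hw)
        obtain ⟨w1, w2, w3⟩ := hW (x + w) (Or.inr ⟨w, hw, rfl⟩)
        refine ⟨v1, ?_, v3⟩
        rwa [← add_assoc] at w2)
    have p4 := ih t a b (c + x) e ht hxt (by omega)
      (fun w hw => by
        obtain ⟨v1, v2, v3⟩ := hW w (Or.inl hw)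
        obtain ⟨w1, w2, w3⟩ := hW (x + w) (Or.inr ⟨w, hw, rfl⟩)
        refine ⟨v1, v2, ?_⟩
        rwa [← add_assoc] at w3)
    rw [← mul_sum', ← mul_sum'] at p1
    have key : Real.pi ^ (2 * n) * (Real.pi ^ e * (z x * LT z s t a b c -
        ((bumps x t).map fun u => LT z s u a b c).sum -
        (LT z s t (a + x) b c + LT z s t a (b + x) c + LT z s t a b (c + x)))) =
        q * (Real.pi ^ (2 * n) * (Real.pi ^ (e + x) * LT z s t a b c)) -
        Real.pi ^ (2 * n) * (Real.pi ^ e * ((bumps x t).map fun u => LT z s u a b c).sum) -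
        Real.pi ^ (2 * n) * (Real.pi ^ e * LT z s t (a + x) b c) -
        Real.pi ^ (2 * n) * (Real.pi ^ e * LT z s t a (b + x) c) -
        Real.pi ^ (2 * n) * (Real.pi ^ e * LT z s t a b (c + x)) := by
      rw [hq, pow_add]
      ring
    rw [key]
    exact (V * V * V).sub_mem ((V * V * V).sub_mem ((V * V * V).sub_mem
      ((V * V * V).sub_mem p0 p1) p2) p3) p4

theorem adds_ge (b : ℕ) (l : List ℕ) (M : ℕ) (h : ∀ a ∈ l, M ≤ a) :
    ∀ u ∈ bumps b l, ∀ a ∈ u, M ≤ a := by
  induction l with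
  | nil => intro u hu; simp [bumps] at hu
  | cons y t ih =>
    intro u hu
    rw [bumps, List.mem_cons, List.mem_map] at hu
    rcases hu with rfl | ⟨v, hv, rfl⟩
    · intro a ha
      rcases List.mem_cons.1 ha with rfl | ha
      · have := h y (by simp); omega
      · exact h a (by simp [ha])
    · intro a ha
      rcases List.mem_cons.1 ha with rfl | ha
      · exact h a (by simp)
      · exact ih (fun d hd => h d (by simp [hd])) v hv a ha

theorem sum_close (f : List ℕ → ℝ) (l : List (List ℕ)) (N δ : ℝ) (h : ∀ u ∈ l, |f u - N| ≤ δ) :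
    |(l.map f).sum - l.length * N| ≤ l.length * δ := by
  induction l with
  | nil => simp
  | cons a t ih =>
    rw [List.map_cons, List.sum_cons, List.length_cons]
    have h1 := ih fun u hu => h u (by simp [hu])
    have h2 := h a (by simp)
    have h3 : f a + (t.map f).sum - ((t.length + 1 : ℕ) : ℝ) * N =
        (f a - N) + ((t.map f).sum - t.length * N) := by push_cast; ring
    rw [h3]
    refine (abs_add_le _ _).trans ?_
    push_cast
    linarith

/-- the size of the part with three odd blocks -/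
theorem LT_close : ∀ s : ℕ, ∃ C : ℝ, 0 < C ∧ ∀ (z : ℕ → ℝ) (M : ℕ) (ε : ℝ), 0 ≤ ε → ε ≤ 1 →
    (∀ m, M ≤ m → |z m - 1| ≤ ε) → ∀ (xs : List ℕ) (a b c : ℕ), xs.length = s →
    (∀ x ∈ xs, M ≤ x) → M ≤ a → M ≤ b → M ≤ c →
    |LT z s xs a b c - (-1) ^ s * ((s + 1).factorial : ℝ)| ≤ C * ε := by
  intro s
  induction s with
  | zero =>
    refine ⟨7, by norm_num, fun z M ε h0 h1 hz xs a b c _ _ ha hb hc => ?_⟩
    have k1 := hz a ha
    have k2 := hz b hb
    have k3 := hz c hc
    obtain ⟨α, hα⟩ : ∃ α, α = z a - 1 := ⟨_, rfl⟩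
    obtain ⟨β, hβ⟩ : ∃ β, β = z b - 1 := ⟨_, rfl⟩
    obtain ⟨γ, hγ⟩ : ∃ γ, γ = z c - 1 := ⟨_, rfl⟩
    rw [← hα] at k1
    rw [← hβ] at k2
    rw [← hγ] at k3
    have e1 : LT z 0 xs a b c - (-1) ^ 0 * ((0 + 1).factorial : ℝ) =
        α + β + γ + α * β + α * γ + β * γ + α * β * γ := by
      rw [LT, hα, hβ, hγ]
      simp
      ring
    rw [e1]
    have p1 : |α * β| ≤ ε := by
      rw [abs_mul]
      calc |α| * |β| ≤ ε * 1 := mul_le_mul k1 (k2.trans h1) (abs_nonneg _) h0
        _ = ε := mul_one _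
    have p2 : |α * γ| ≤ ε := by
      rw [abs_mul]
      calc |α| * |γ| ≤ ε * 1 := mul_le_mul k1 (k3.trans h1) (abs_nonneg _) h0
        _ = ε := mul_one _
    have p3 : |β * γ| ≤ ε := by
      rw [abs_mul]
      calc |β| * |γ| ≤ ε * 1 := mul_le_mul k2 (k3.trans h1) (abs_nonneg _) h0
        _ = ε := mul_one _
    have p4 : |α * β * γ| ≤ ε := by
      rw [abs_mul]
      calc |α * β| * |γ| ≤ ε * 1 := mul_le_mul p1 (k3.trans h1) (abs_nonneg _) h0
        _ = ε := mul_one _
    rw [abs_le] at *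
    constructor <;> linarith [k1.1, k1.2, k2.1, k2.2, k3.1, k3.2, p1.1, p1.2, p2.1, p2.2, p3.1,
      p3.2, p4.1, p4.2]
  | succ s ih =>
    obtain ⟨C, hC, ih⟩ := ih
    obtain ⟨N, hN⟩ : ∃ N : ℝ, N = (-1) ^ s * ((s + 1).factorial : ℝ) := ⟨_, rfl⟩
    refine ⟨|N| + C + (s + 4) * C, by positivity, fun z M ε h0 h1 hz xs a b c hs hx ha hb hc => ?_⟩
    obtain ⟨x, t, rfl⟩ : ∃ x t, xs = x :: t := by
      cases xs with
      | nil => simp at hs
      | cons x t => exact ⟨x, t, rfl⟩
    have ht : t.length = s := by simpa using hs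
    have hx1 := hx x (by simp)
    have hxt : ∀ y ∈ t, M ≤ y := fun y hy => hx y (by simp [hy])
    have q0 := ih z M ε h0 h1 hz t a b c ht hxt ha hb hc
    have q2 := ih z M ε h0 h1 hz t (a + x) b c ht hxt (by omega) hb hc
    have q3 := ih z M ε h0 h1 hz t a (b + x) c ht hxt ha (by omega) hc
    have q4 := ih z M ε h0 h1 hz t a b (c + x) ht hxt ha hb (by omega)
    rw [← hN] at q0 q2 q3 q4
    have q1 := sum_close (fun u => LT z s u a b c) (bumps x t) N (C * ε) (fun u hu => by
      obtain ⟨a1, a2, a3⟩ := adds_prop x t u hu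
      have := ih z M ε h0 h1 hz u a b c (by omega) (adds_ge x t M hxt u hu) ha hb hc
      rwa [← hN] at this)
    rw [adds_len, ht] at q1
    have q5 : |z x - 1| ≤ ε := hz x hx1
    have q6 : |(z x - 1) * LT z s t a b c| ≤ ε * (|N| + C) := by
      rw [abs_mul]
      apply mul_le_mul q5 _ (abs_nonneg _) h0
      have h2 : |LT z s t a b c| ≤ |LT z s t a b c - N| + |N| := by
        have := abs_add_le (LT z s t a b c - N) N
        rwa [sub_add_cancel] at this
      have h3 : C * ε ≤ C := by nlinarith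
      linarith
    have e1 : (-1 : ℝ) ^ (s + 1) * ((s + 1 + 1).factorial : ℝ) = -((s : ℝ) + 2) * N := by
      rw [hN, Nat.factorial_succ (s + 1)]
      push_cast
      ring
    rw [LT_succ, e1]
    have e2 : z x * LT z s t a b c - ((bumps x t).map fun u => LT z s u a b c).sum -
        (LT z s t (a + x) b c + LT z s t a (b + x) c + LT z s t a b (c + x)) -
        -((s : ℝ) + 2) * N = (z x - 1) * LT z s t a b c + (LT z s t a b c - N) -
        (((bumps x t).map fun u => LT z s u a b c).sum - s * N) -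
        (LT z s t (a + x) b c - N) - (LT z s t a (b + x) c - N) -
        (LT z s t a b (c + x) - N) := by ring
    rw [e2]
    rw [abs_le] at *
    constructor <;> nlinarith [q0.1, q0.2, q1.1, q1.2, q2.1, q2.2, q3.1, q3.2, q4.1, q4.2, q6.1,
      q6.2]

/-- the T-part: if the products `z u * pi ^ (n - u)` and the sum with three odd entries are in
`V`, then `n` is exceptional -/
theorem tpart (h : Rec J z) (hz : ∀ ε : ℝ, 0 < ε → ∃ M : ℕ, ∀ m, M ≤ m → |z m - 1| ≤ ε) (s : ℕ) :
    ∃ M : ℕ, ∀ (V : Submodule ℚ ℝ) (n : ℕ) (xs : List ℕ)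
      (a b c : ℕ), xs.length = s → (∀ x ∈ xs, M ≤ x ∧ Even x) → M ≤ a → M ≤ b → M ≤ c →
      Odd a → Odd b → Odd c → xs.sum + a + b + c = n → J (xs ++ [a, b, c]) ∈ V →
      (∀ w ∈ ss xs, z (a + w) * Real.pi ^ (n - (a + w)) ∈ V ∧
        z (b + w) * Real.pi ^ (n - (b + w)) ∈ V ∧ z (c + w) * Real.pi ^ (n - (c + w)) ∈ V ∧
        z (a + b + c + w) * Real.pi ^ (n - (a + b + c + w)) ∈ V) →
      ∃ v ∈ V, v ≠ 0 ∧ Real.pi ^ (2 * n) * v ∈ V * V * V := by
  obtain ⟨C, hC, hcl⟩ := LT_close s
  obtain ⟨M, hM⟩ := hz (min 1 (1 / (2 * C))) (by positivity)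
  refine ⟨max M 2, fun V n xs a b c hs hx ha hb hc oa ob oc hn hJ hW => ?_⟩
  have hx2 : ∀ x ∈ xs, 2 ≤ x ∧ Even x := fun x hx' =>
    ⟨(le_max_right _ _).trans (hx x hx').1, (hx x hx').2⟩
  have h1 := three_in (V := V) h n s xs a b c 0 hs hx2 ((le_max_right _ _).trans ha)
    ((le_max_right _ _).trans hb) ((le_max_right _ _).trans hc) oa ob oc (by omega) hW
  have h2 := three_prod (V := V) h n s xs a b c 0 hs hx2 (by omega)
    (fun w hw => ⟨(hW w hw).1, (hW w hw).2.1, (hW w hw).2.2.1⟩)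
  rw [pow_zero, one_mul] at h1 h2
  have h3 : LT z s xs a b c ∈ V := by
    have := V.sub_mem hJ h1
    rwa [sub_sub_cancel] at this
  refine ⟨_, h3, ?_, h2⟩
  intro h0
  have h4 := hcl z M (min 1 (1 / (2 * C))) (by positivity) (min_le_left _ _) hM xs a b c hs
    (fun x hx' => (le_max_left _ _).trans (hx x hx').1) ((le_max_left _ _).trans ha)
    ((le_max_left _ _).trans hb) ((le_max_left _ _).trans hc)
  rw [h0, zero_sub, abs_neg, abs_mul, abs_pow, abs_neg, abs_one, one_pow, one_mul] at h4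
  have h5 : (1 : ℝ) ≤ |((s + 1).factorial : ℝ)| := by
    rw [abs_of_nonneg (Nat.cast_nonneg _)]
    exact_mod_cast Nat.factorial_pos _
  have h6 : C * min 1 (1 / (2 * C)) ≤ 1 / 2 := by
    calc C * min 1 (1 / (2 * C)) ≤ C * (1 / (2 * C)) := by
          apply mul_le_mul_of_nonneg_left (min_le_right _ _) hC.le
      _ = 1 / 2 := by field_simp
  linarith

end

theorem ss_sub (l : List ℕ) : ∀ w ∈ ss l, ∃ m : List ℕ, m.Sublist l ∧ m.sum = w := by
  induction l with
  | nil => intro w hw; exact ⟨[], List.Sublist.refl _, hw.symm⟩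
  | cons x t ih =>
    intro w hw
    rcases hw with hw | ⟨v, hv, rfl⟩
    · obtain ⟨m, hm, rfl⟩ := ih w hw
      exact ⟨m, hm.cons x, rfl⟩
    · obtain ⟨m, hm, rfl⟩ := ih v hv
      exact ⟨x :: m, hm.cons_cons x, by simp⟩

theorem rec_JL (h : St_JL) : Rec JL z := by
  refine ⟨?_, ?_, ?_⟩
  · unfold JL J
    have : Unique (Fin ([] : List ℕ).length ↪ ℕ) := by
      show Unique (Fin 0 ↪ ℕ)
      infer_instance
    rw [tsum_fintype]
    simp
  · intro b l hb hl
    exact h b l hb hl
  · intro a ha he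
    obtain ⟨j, hj⟩ := he
    obtain ⟨q, -, hq⟩ := Pool.Agent.MZA.thm_Zev j (by omega)
    refine ⟨q, ?_⟩
    have h2 : a = 2 * j := by omega
    rw [h2]
    exact hq

theorem z_close : ∀ ε : ℝ, 0 < ε → ∃ M : ℕ, ∀ m, M ≤ m → |z m - 1| ≤ ε := by
  intro ε hε
  obtain ⟨M, hM⟩ := exists_pow_lt_of_lt_one (show (0 : ℝ) < ε / 8 by positivity)
    (show (1 / 2 : ℝ) < 1 by norm_num)
  refine ⟨max M 4, fun m hm => ?_⟩
  obtain ⟨h1, h2⟩ := Pool.Agent.MZT.thm_B0 m ((le_max_right _ _).trans hm)
  have e : Pool.Agent.MZT.z m = z m := rfl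
  rw [e] at h1 h2
  have h3 : (1 / 2 : ℝ) ^ m ≤ (1 / 2 : ℝ) ^ M :=
    pow_le_pow_of_le_one (by norm_num) (by norm_num) ((le_max_left _ _).trans hm)
  have h4 : (1 / 3 : ℝ) ^ m ≤ (1 / 2 : ℝ) ^ m := pow_le_pow_left₀ (by norm_num) (by norm_num) m
  have h5 : (1 / 4 : ℝ) ^ m ≤ (1 / 2 : ℝ) ^ m := pow_le_pow_left₀ (by norm_num) (by norm_num) m
  have h6 : (0 : ℝ) < (1 / 3 : ℝ) ^ m := by positivity
  have h7 : (0 : ℝ) < (1 / 2 : ℝ) ^ m := by positivity
  rw [abs_le]
  constructor <;> linarith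

end Pool.Agent.MZG.TP

namespace Pool.Agent.MZG

/-- MODULE TT -/
theorem thm_TT (h : St_JL) : St_TT := by
  intro s
  obtain ⟨M, hM⟩ := TP.tpart (TP.rec_JL h) TP.z_close s
  refine ⟨M, fun V n v₁ v₂ v₃ x hx hy h1 h2 h3 o1 o2 o3 hn hG hJ => ?_⟩
  obtain ⟨v, hv, hv0, hv1⟩ := hM V n x v₁ v₂ v₃ hx hy h1 h2 h3 o1 o2 o3 (by omega) hJ
    (fun w hw => by
      obtain ⟨l, hl, rfl⟩ := TP.ss_sub x w hw
      exact hG l hl)
  exact ⟨v, hv, hv0, hv1⟩

/-- MODULE ZN -/
theorem thm_ZN57 (h : St_JL) : St_ZN := by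
  intro V n d x hd hx hn hG hJ
  refine TP.top_in (TP.rec_JL h) hx hd hn (fun w hw hlt => ?_) hJ
  obtain ⟨l, hl, rfl⟩ := TP.ss_sub x w hw
  exact hG l hl (by omega)

end Pool.Agent.MZG
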