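import Pool.Agent.MZG.Defs

set_option autoImplicit false

/-!
# MZG: module ZN
-/

namespace Pool.Agent.MZG

open Pool.Agent.MZA
open Pool.Agent.Helper21 (mzv H zl Adm)

namespace ZNp

theorem qm (V : Submodule ℚ ℝ) (q : ℚ) {x : ℝ} (hx : x ∈ V) : (q : ℝ) * x ∈ V := by
  have h := V.smul_mem q hx
  rwa [Rat.smul_def] at h

theorem JL_nil : JL [] = 1 := by
  unfold JL J
  rw [tsum_eq_single (⟨fun i => i.elim0, fun i => i.elim0⟩ : Fin ([] : List ℕ).length ↪ ℕ)]
  · simp
  · intro b hb
    exact absurd (by ext i; exact i.elim0) hb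

theorem JL_single (h : St_JL) (d : ℕ) (hd : 2 ≤ d) : JL [d] = z d := by
  have h1 := h d [] hd (by simp)
  rw [h1, JL_nil]
  simp [bumps]

theorem bumps_single (a d : ℕ) : ∀ y : List ℕ,
    bumps a (y ++ [d]) = (bumps a y).map (fun w => w ++ [d]) ++ [y ++ [d + a]] := by
  intro y
  induction y with
  | nil => simp [bumps]
  | cons b L ih => simp [bumps, ih]

theorem length_bumps (a : ℕ) : ∀ y : List ℕ, (bumps a y).length = y.length := by
  intro y
  induction y with
  | nil => simp [bumps]
  | cons b L ih => simp [bumps, ih]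

theorem mem_bumps {a : ℕ} (ha : 2 ≤ a) (hae : Even a) : ∀ y : List ℕ,
    (∀ e ∈ y, 2 ≤ e ∧ Even e) → ∀ w ∈ bumps a y,
      w.length = y.length ∧ w.sum = y.sum + a ∧ (∀ e ∈ w, 2 ≤ e ∧ Even e) ∧
      ∀ l : List ℕ, l.Sublist w → ∃ l' : List ℕ, l'.Sublist (a :: y) ∧ l'.sum = l.sum := by
  intro y
  induction y with
  | nil =>
    intro _ w hw
    simp [bumps] at hw
  | cons b L ih =>
    intro hy w hw
    have hb := hy b (by simp)
    have hL : ∀ e ∈ L, 2 ≤ e ∧ Even e := fun e he => hy e (by simp [he])
    rw [bumps, List.mem_cons, List.mem_map] at hw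
    rcases hw with rfl | ⟨w', hw', rfl⟩
    · refine ⟨by simp, by simp; omega, ?_, ?_⟩
      · intro e he
        rcases List.mem_cons.1 he with rfl | he
        · exact ⟨by omega, hb.2.add hae⟩
        · exact hL e he
      · intro l hl
        rcases List.sublist_cons_iff.1 hl with h | ⟨r, rfl, h⟩
        · exact ⟨l, (h.trans (List.sublist_cons_self _ _)).trans (List.sublist_cons_self _ _), rfl⟩
        · exact ⟨a :: b :: r, (h.cons_cons b).cons_cons a, by simp; omega⟩
    · obtain ⟨h1, h2, h3, h4⟩ := ih hL w' hw'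
      refine ⟨by simp [h1], by simp [h2]; omega, ?_, ?_⟩
      · intro e he
        rcases List.mem_cons.1 he with rfl | he
        · exact hb
        · exact h3 e he
      · intro l hl
        rcases List.sublist_cons_iff.1 hl with h | ⟨r, rfl, h⟩
        · obtain ⟨l', hl', hs⟩ := h4 l h
          exact ⟨l', hl'.trans ((List.sublist_cons_self b L).cons_cons a), hs⟩
        · obtain ⟨l', hl', hs⟩ := h4 r h
          rcases List.sublist_cons_iff.1 hl' with h' | ⟨r', rfl, h'⟩
          · exact ⟨b :: l', (h'.cons_cons b).trans (List.sublist_cons_self _ _), by simp [hs]⟩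
          · refine ⟨a :: b :: r', (h'.cons_cons b).cons_cons a, ?_⟩
            simp only [List.sum_cons] at hs ⊢
            omega

theorem sum_mem (V : Submodule ℚ ℝ) {α : Type*} (f : α → ℝ) (t : ℝ) : ∀ B : List α,
    (∀ w ∈ B, f w - t ∈ V) → (B.map f).sum - (B.length : ℝ) * t ∈ V := by
  intro B
  induction B with
  | nil => intro _; simp
  | cons b L ih =>
    intro h
    have h1 := ih (fun w hw => h w (by simp [hw]))
    have h2 := h b (by simp)
    have h3 := V.add_mem h2 h1
    rw [List.map_cons, List.sum_cons, List.length_cons]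
    push_cast
    rwa [show f b + (L.map f).sum - ((L.length : ℝ) + 1) * t =
      f b - t + ((L.map f).sum - (L.length : ℝ) * t) by ring]

theorem main (h : St_JL) (V : Submodule ℚ ℝ) : ∀ (s : ℕ) (x : List ℕ) (d e : ℕ),
    x.length = s → 2 ≤ d → (∀ y ∈ x, 2 ≤ y ∧ Even y) →
    (∀ (l : List ℕ) (c : ℕ), l.Sublist x → l.sum + c = x.sum → 0 < c →
      z (d + l.sum) * Real.pi ^ (e + c) ∈ V) →
    Real.pi ^ e * JL (x ++ [d]) -
      ((((-1) ^ s * s.factorial : ℚ) : ℝ)) * (Real.pi ^ e * z (d + x.sum)) ∈ V := by
  intro s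
  induction s with
  | zero =>
    intro x d e hx hd _ _
    have hx0 : x = [] := List.length_eq_zero_iff.1 hx
    subst hx0
    rw [List.nil_append, JL_single h d hd]
    simp
  | succ s ih =>
    intro x d e hx hd hev hG
    obtain ⟨a, y, rfl⟩ : ∃ a y, x = a :: y := by
      cases x with
      | nil => simp at hx
      | cons a y => exact ⟨a, y, rfl⟩
    have hlen : y.length = s := by simpa using hx
    obtain ⟨ha, hae⟩ := hev a (by simp)
    have hy : ∀ e ∈ y, 2 ≤ e ∧ Even e := fun e he => hev e (by simp [he])
    have hJ := h a (y ++ [d]) ha (by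
      intro b hb
      rcases List.mem_append.1 hb with hb | hb
      · exact (hy b hb).1
      · rw [List.mem_singleton] at hb
        omega)
    rw [bumps_single, List.map_append, List.sum_append, List.map_map] at hJ
    simp only [List.map_cons, List.map_nil, List.sum_cons, List.sum_nil, add_zero] at hJ
    obtain ⟨j, hj⟩ := hae
    obtain ⟨q, -, hq⟩ := thm_Zev j (by omega)
    have hza : z a = q * Real.pi ^ a := by
      unfold z
      rw [show a = 2 * j by omega]
      exact hq
    -- the product term
    have hA : Real.pi ^ e * (z a * JL (y ++ [d])) ∈ V := by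
      have h1 := ih y d (e + a) hlen hd hy (by
        intro l c hl hs hc
        have := hG l (c + a) (hl.trans (List.sublist_cons_self _ _)) (by simp; omega) (by omega)
        rwa [show e + a + c = e + (c + a) by omega])
      have h2 := hG y a (List.sublist_cons_self _ _) (by simp; omega) (by omega)
      have h3 := qm V ((-1) ^ s * s.factorial) h2
      have h4 := qm V q (V.add_mem h1 h3)
      rw [hza]
      convert h4 using 1
      rw [pow_add]
      ring
    -- the bumps inside
    have hB : (((bumps a y).map (fun w => Real.pi ^ e * JL (w ++ [d]))).sum) -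
        ((bumps a y).length : ℝ) * ((((-1) ^ s * s.factorial : ℚ) : ℝ) *
          (Real.pi ^ e * z (d + (y.sum + a)))) ∈ V := by
      refine sum_mem V _ _ _ ?_
      intro w hw
      obtain ⟨h1, h2, h3, h4⟩ := mem_bumps ha (⟨j, hj⟩) y hy w hw
      have h5 := ih w d e (by rw [h1, hlen]) hd h3 (by
        intro l c hl hs hc
        obtain ⟨l', hl', hs'⟩ := h4 l hl
        have := hG l' c hl' (by rw [hs', List.sum_cons]; omega) hc
        rwa [hs'] at this)
      rwa [h2] at h5
    rw [length_bumps, hlen] at hB
    -- the bump at the end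
    have hC := ih y (d + a) e hlen (by omega) hy (by
      intro l c hl hs hc
      have := hG (a :: l) c (hl.cons_cons a) (by simp; omega) hc
      rwa [List.sum_cons, ← add_assoc] at this)
    have hsum : ((bumps a y).map (fun w => Real.pi ^ e * JL (w ++ [d]))).sum =
        Real.pi ^ e * ((bumps a y).map (JL ∘ fun w => w ++ [d])).sum := by
      rw [← List.sum_map_mul_left]
      rfl
    rw [hsum] at hB
    have hfin := V.sub_mem (V.sub_mem hA hB) hC
    rw [List.cons_append, hJ, List.sum_cons]
    convert hfin using 1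
    rw [show d + (a + y.sum) = d + (y.sum + a) by omega, show d + a + y.sum = d + (y.sum + a) by omega,
      pow_succ, Nat.factorial_succ]
    push_cast
    ring

end ZNp

theorem ZN (h : St_JL) : St_ZN := by
  intro V n d x hd hx hn hG hJ
  have h1 := ZNp.main h V x.length x d 0 rfl hd hx (by
    intro l c hl hs hc
    have := hG l hl (by omega)
    unfold Gd at this
    rwa [show n - (d + l.sum) = 0 + c by omega] at this)
  rw [pow_zero, one_mul, one_mul, show d + x.sum = n by omega] at h1
  have h2 := V.sub_mem hJ h1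
  rw [sub_sub_cancel] at h2
  have hc : ((-1) ^ x.length * x.length.factorial : ℚ) ≠ 0 := mul_ne_zero (pow_ne_zero _ (by norm_num)) (by exact_mod_cast (Nat.factorial_pos _).ne')
  have h3 := ZNp.qm V ((-1) ^ x.length * x.length.factorial : ℚ)⁻¹ h2
  rwa [← mul_assoc, ← Rat.cast_mul, inv_mul_cancel₀ hc, Rat.cast_one, one_mul] at h3

end Pool.Agent.MZG
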