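import Pool.Agent.MZG.J0
import Pool.Agent.MZG.J1
import Pool.Agent.MZG.J2
import Pool.Agent.MZG.J3
import Pool.Agent.MZG.JL
import Pool.Agent.MZG.PERM
import Pool.Agent.MZG.CUBE
import Pool.Agent.MZG.EST
import Pool.Agent.MZG.DET
import Pool.Agent.MZG.GOOD
import Pool.Agent.MZG.ZN
import Pool.Agent.MZG.TT
import Pool.Agent.MZG.F
import Pool.Agent.MZG.BASE
import Pool.Agent.MZG.EVEN
import Pool.Agent.MZG.CONF
import Pool.Agent.MZG.OddRest

set_option autoImplicit false

/-!
# MZG: the modules together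
-/

namespace Pool.Agent.MZG

theorem all_J3 : St_J3 := J3 J2

theorem all_JL : St_JL := thm_JL J2

theorem all_GOOD : St_GOOD := GOOD (CUBE J1 J2) (DET (EST J0)) all_J3

theorem all_CONF : St_CONF := CONF J1 PERM (ZN all_JL) (thm_TT all_JL)

/-- odd weights -/
theorem all_ODD : St_ODD := ODD_rest all_GOOD BASE F all_CONF

/-- even weights -/
theorem all_EVEN : St_EVEN := EVEN J1 all_J3 F

end Pool.Agent.MZG
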