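import Pool.Agent.MZG.OddA

set_option autoImplicit false

/-!
# MZG / ODD16: the assembly for odd weights (helper16)
-/

namespace Pool.Agent.MZG

open Finset

namespace O16

/-- sublists of `List.ofFn y` -/
theorem sub_sum : ∀ (m : ℕ) (y : Fin m → ℕ) (l : List ℕ), l.Sublist (List.ofFn y) →
    ∃ A : Finset (Fin m), l.sum = ∑ i ∈ A, y i
  | 0, y, l, h => by
    rw [List.ofFn_zero, List.sublist_nil] at h
    subst h
    exact ⟨∅, by simp⟩
  | m + 1, y, l, h => by
    rw [List.ofFn_succ, List.sublist_cons_iff] at h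
    rcases h with h | ⟨r, rfl, h⟩
    · obtain ⟨A, hA⟩ := sub_sum m (fun i => y i.succ) l h
      refine ⟨A.map (Fin.succEmb m), ?_⟩
      rw [hA, sum_map]
      rfl
    · obtain ⟨A, hA⟩ := sub_sum m (fun i => y i.succ) r h
      refine ⟨Finset.cons 0 (A.map (Fin.succEmb m)) ?_, ?_⟩
      · intro h0
        obtain ⟨j, _, hj⟩ := mem_map.1 h0
        exact Fin.succ_ne_zero j hj
      · rw [List.sum_cons, hA, sum_cons, sum_map]
        rfl

/-- the even entries -/
def ye {k : ℕ} (B : ℕ) (p : Fin k → ℕ) (i : Fin k) : ℕ := B + 2 * p i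

/-- the entries of the last tuple -/
def ee {s : ℕ} (B : ℕ) (p : Fin (s + 2) → ℕ) (i : Fin (s + 2)) : ℕ :=
  ye B p i + if (i : ℕ) < 2 then 1 else 0

/-- the values of `u` -/
def U {k : ℕ} (n B : ℕ) (τ : Fin 3) (A : Finset (Fin k)) (p : Fin k → ℕ) : ℕ :=
  match τ with
  | 0 => ∑ i ∈ A, ye B p i
  | 1 => ∑ i ∈ A, ye B p i + 2
  | 2 => n - 1 - ∑ i ∈ A, ye B p i

/-- the index set of the tuples -/
abbrev TT (s : ℕ) : Type :=
  Bool ⊕ (Fin 3 × {A : Finset (Fin (s + 2)) // A.Nonempty} × Fin (s + 3) × Finset (Fin (s + 2)))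

/-- the tuples -/
def ff (s C h n B : ℕ) : TT s → (Fin (s + 2) → ℕ) → (Fin (s + 2) → ℕ)
  | Sum.inl false, p => ye B p
  | Sum.inl true, p => ee B p
  | Sum.inr (τ, A, i, S), p =>
    sh (row C (base (k := s + 1) h (A.1.min' A.2) (U n B τ A.1 p) p) (i : ℕ)) S

theorem ye_even {k : ℕ} {B : ℕ} (hB : Even B) (p : Fin k → ℕ) (i : Fin k) : Even (ye B p i) :=
  hB.add (even_two_mul _)

theorem sum_even {k : ℕ} {B : ℕ} (hB : Even B) (p : Fin k → ℕ) (A : Finset (Fin k)) :
    Even (∑ i ∈ A, ye B p i) := by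
  classical
  induction A using Finset.induction_on with
  | empty => simp
  | insert a A ha ih =>
    rw [sum_insert ha]
    exact (ye_even hB p a).add ih

theorem sum_le {k : ℕ} {B N : ℕ} (p : Fin k → ℕ) (hp : ∀ i, p i ≤ N) (A : Finset (Fin k)) :
    ∑ i ∈ A, ye B p i ≤ k * (B + 2 * N) := by
  calc ∑ i ∈ A, ye B p i ≤ ∑ _i ∈ A, (B + 2 * N) := sum_le_sum fun i _ => by
        unfold ye
        have := hp i
        omega
    _ = A.card * (B + 2 * N) := by rw [sum_const, smul_eq_mul]
    _ ≤ k * (B + 2 * N) := Nat.mul_le_mul_right _ (by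
        have := card_le_univ A
        simpa using this)

theorem le_sum {k : ℕ} {B : ℕ} (p : Fin k → ℕ) (A : Finset (Fin k)) (hA : A.Nonempty) :
    B ≤ ∑ i ∈ A, ye B p i := by
  obtain ⟨a, ha⟩ := hA
  calc B ≤ ye B p a := by unfold ye; omega
    _ ≤ ∑ i ∈ A, ye B p i := single_le_sum (fun _ _ => Nat.zero_le _) ha

theorem sum_ee {s : ℕ} (B : ℕ) (p : Fin (s + 2) → ℕ) :
    ∑ i, ee B p i = ∑ i, ye B p i + 2 := by
  unfold ee
  rw [sum_add_distrib]
  congr 1
  rw [Fin.sum_univ_succ, Fin.sum_univ_succ]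
  have h : ∀ i : Fin s, (if ((i.succ.succ : Fin (s + 2)) : ℕ) < 2 then 1 else 0) = 0 := by
    intro i
    rw [if_neg]
    simp only [Fin.val_succ]
    omega
  rw [sum_congr rfl fun i _ => h i, sum_const_zero]
  rfl

theorem ofFn_ee {s : ℕ} (B : ℕ) (p : Fin (s + 2) → ℕ) :
    List.ofFn (ee B p) = (ye B p 0 + 1) :: (ye B p 1 + 1) ::
      List.ofFn (fun i : Fin s => ye B p i.succ.succ) := by
  rw [List.ofFn_succ, List.ofFn_succ]
  congr 1

/-- injectivity of the rows -/
theorem row_inj (hB' : St_BASE) {s C G h n B N : ℕ} (hCG : C * (s + 2) + 2 ≤ G) (hGh : G ≤ h)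
    (_hBe : Even B) (τ : Fin 3) (A : Finset (Fin (s + 2))) (hA : A.Nonempty)
    (hb : ∀ p : Fin (s + 2) → ℕ, (∀ i, 1 ≤ p i ∧ p i ≤ N) → ∑ i ∈ A, ye B p i + 1 ≤ n)
    (hU : ∀ p : Fin (s + 2) → ℕ, (∀ i, 1 ≤ p i ∧ p i ≤ N) → Even (U n B τ A p) ∧
      4 * (s + 1 + 1) ^ 2 * h ≤ U n B τ A p ∧ ∀ i, 2 * p i ≤ h)
    (i : Fin (s + 3)) (S : Finset (Fin (s + 2)))
    (p p' : Fin (s + 2) → ℕ) (hp : ∀ i, 1 ≤ p i ∧ p i ≤ N) (hp' : ∀ i, 1 ≤ p' i ∧ p' i ≤ N)
    (he : sh (row C (base (k := s + 1) h (A.min' hA) (U n B τ A p) p) (i : ℕ)) S =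
      sh (row C (base (k := s + 1) h (A.min' hA) (U n B τ A p') p') (i : ℕ)) S) : p = p' := by
  classical
  obtain ⟨u1, u2, u3⟩ := hU p hp
  obtain ⟨u1', u2', u3'⟩ := hU p' hp'
  have hi : (i : ℕ) ≤ s + 1 + 1 := by
    have := i.2
    omega
  obtain ⟨r1, r2⟩ := odd_row hB' (k := s + 1) (C := C) (G := G) (h := h) (by omega) hCG (A.min' hA) p
    hGh u3 u1 u2 i hi S
  obtain ⟨r1', r2'⟩ := odd_row hB' (k := s + 1) (C := C) (G := G) (h := h) (by omega) hCG
    (A.min' hA) p' hGh u3' u1' u2' i hi S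
  have hUU : U n B τ A p = U n B τ A p' := by
    rw [he, r2'] at r2
    omega
  obtain ⟨_, _, b3, _⟩ := hB' (s + 1) G h (U n B τ A p) (A.min' hA) p (by omega) hGh u3 u1 u2
  obtain ⟨_, _, b3', _⟩ := hB' (s + 1) G h (U n B τ A p') (A.min' hA) p' (by omega) hGh u3' u1' u2'
  have hCi : C * (i : ℕ) ≤ C * (s + 2) := Nat.mul_le_mul_left C hi
  have hoff : ∀ m : Fin (s + 1), p ((A.min' hA).succAbove m) = p' ((A.min' hA).succAbove m) := by
    intro m
    have h1 := congrFun he m.succ
    have c1 := b3 m.succ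
    have c2 := b3' m.succ
    simp only [sh, row, Fin.succ_ne_zero, if_false] at h1
    simp only [base, Fin.cons_succ] at h1 c1 c2
    omega
  have hne : ∀ j, j ≠ A.min' hA → p j = p' j := by
    intro j hj
    obtain ⟨m, rfl⟩ := Fin.exists_succAbove_eq hj
    exact hoff m
  have hsum : ∑ i ∈ A, ye B p i = ∑ i ∈ A, ye B p' i := by
    have g1 := hb p hp
    have g2 := hb p' hp'
    fin_cases τ <;> simp only [U] at hUU <;> omega
  have hmin := min'_mem A hA
  rw [← add_sum_erase A _ hmin, ← add_sum_erase A (ye B p') hmin] at hsum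
  have h2 : ∑ x ∈ A.erase (A.min' hA), ye B p x = ∑ x ∈ A.erase (A.min' hA), ye B p' x := by
    refine sum_congr rfl fun j hj => ?_
    unfold ye
    rw [hne j (ne_of_mem_erase hj)]
  have h3 : p (A.min' hA) = p' (A.min' hA) := by
    rw [h2] at hsum
    unfold ye at hsum
    omega
  funext j
  by_cases hj : j = A.min' hA
  · rw [hj, h3]
  · exact hne j hj

end O16

open O16

/-- **MODULE ODD**, second copy -/
theorem ODD16 (hG : St_GOOD) (hZN : St_ZN) (hTT : St_TT) (hP : St_PERM) (hJ1 : St_J1) (hF : St_F)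
    (hB : St_BASE) : St_ODD := by
  classical
  intro k hk
  obtain ⟨s, rfl⟩ : ∃ s, k = s + 2 := ⟨k - 2, by omega⟩
  obtain ⟨C, G, hC0, hCe, hCG, H⟩ := odd_gd hG hB (s + 1) (by omega)
  obtain ⟨L, hL⟩ := hTT s
  set W : ℕ := (s + 2) * (8 * (s + 2) ^ 2 + 2) with hW
  have hW1 : 2 * s + 20 ≤ W := by
    rw [hW]
    nlinarith [Nat.zero_le s, sq_nonneg (s + 2), Nat.zero_le (s ^ 3), Nat.zero_le (s ^ 2)]
  have hW0 : 0 < W := by omega
  refine ⟨(8 * W) ^ (s + 2) * ((s + 2 + 1).factorial * Fintype.card (TT s)),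
    4 * W * (G + L + 1), ?_, ?_⟩
  · have : 0 < Fintype.card (TT s) := Fintype.card_pos_iff.2 ⟨Sum.inl true⟩
    positivity
  intro V n hn hodd hNP
  set N : ℕ := n / (4 * W) with hN
  have hN1 : G + L + 1 ≤ N := by
    rw [hN, Nat.le_div_iff_mul_le (by omega)]
    rw [mul_comm]
    exact hn
  have hN2 : 4 * W * N ≤ n := Nat.mul_div_le n (4 * W)
  have hN3 : n ≤ 8 * W * N := by
    have h1 : n < 4 * W * (N + 1) := by
      rw [hN]
      exact Nat.lt_mul_div_succ n (by omega)
    nlinarith
  set h : ℕ := 2 * N with hh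
  set B : ℕ := 4 * (s + 1 + 1) ^ 2 * h with hBdef
  have hBe : Even B := by
    rw [hBdef, hh]
    exact (even_two_mul N).mul_left _
  have hWN : (s + 2) * (B + 2 * N) = W * N := by
    rw [hW, hBdef, hh]
    ring
  have hWN1 : W * N + W * N + W * N + W * N ≤ n := by
    have : 4 * W * N = W * N + W * N + W * N + W * N := by ring
    omega
  have hBN : B + 2 * N ≤ W * N := by
    rw [← hWN]
    nlinarith [Nat.zero_le (s * (B + 2 * N)), Nat.zero_le (B + 2 * N)]
  have hWN2 : W ≤ W * N := Nat.le_mul_of_pos_right W (by omega)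
  have hNW : N ≤ W * N := Nat.le_mul_of_pos_left N hW0
  have hBbig : 8 * N ≤ B := by
    rw [hBdef, hh]
    nlinarith [Nat.zero_le (s * N), Nat.zero_le (s ^ 2 * N)]
  have hBbig2 : 8 * s + 16 ≤ B := by
    rw [hBdef, hh]
    have h1 : 1 ≤ N := by omega
    nlinarith [Nat.zero_le s, Nat.zero_le (s ^ 2), Nat.mul_le_mul_left (8 * (s + 1 + 1) ^ 2) h1]
  have hGh : G ≤ h := by omega
  -- bounds for the sums
  have hsum : ∀ (p : Fin (s + 2) → ℕ), (∀ i, 1 ≤ p i ∧ p i ≤ N) → ∀ A : Finset (Fin (s + 2)),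
      ∑ i ∈ A, ye B p i ≤ W * N := by
    intro p hp A
    rw [← hWN]
    exact sum_le p (fun i => (hp i).2) A
  -- the values of `u`
  have hU : ∀ (p : Fin (s + 2) → ℕ), (∀ i, 1 ≤ p i ∧ p i ≤ N) → ∀ (τ : Fin 3)
      (A : Finset (Fin (s + 2))), A.Nonempty → Even (U n B τ A p) ∧
      4 * (s + 1 + 1) ^ 2 * h ≤ U n B τ A p ∧ U n B τ A p + 2 * (s + 1) + 6 ≤ n := by
    intro p hp τ A hA
    have h1 := hsum p hp A
    have h2 := le_sum (B := B) p A hA
    have h3 := sum_even hBe p A
    rw [← hBdef]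
    fin_cases τ
    · simp only [U]
      exact ⟨h3, h2, by omega⟩
    · simp only [U]
      exact ⟨h3.add even_two, by omega, by omega⟩
    · simp only [U]
      refine ⟨?_, by omega, by omega⟩
      rw [Nat.even_iff] at h3 ⊢
      rw [Nat.odd_iff] at hodd
      omega
  have hp2 : ∀ (p : Fin (s + 2) → ℕ), (∀ i, 1 ≤ p i ∧ p i ≤ N) → ∀ i, 2 * p i ≤ h := by
    intro p hp i
    have := (hp i).2
    omega
  -- the counting
  have key := hF V n (s + 2) N (TT s) (ff s C h n B) ?_ ?_ ?_
  · calc n ^ (s + 2) ≤ (8 * W * N) ^ (s + 2) := Nat.pow_le_pow_left hN3 _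
      _ = (8 * W) ^ (s + 2) * N ^ (s + 2) := by rw [mul_pow]
      _ ≤ (8 * W) ^ (s + 2) * ((s + 2 + 1).factorial * Fintype.card (TT s) *
          (Out V n (s + 2 + 1)).ncard) := Nat.mul_le_mul_left _ key
      _ = _ := by ring
  · -- sizes
    intro t p hp
    match t with
    | Sum.inl false =>
      refine ⟨fun i => ?_, ?_⟩
      · show 2 ≤ ye B p i
        unfold ye
        omega
      · show ∑ i, ye B p i + 2 ≤ n
        have := hsum p hp univ
        omega
    | Sum.inl true =>
      refine ⟨fun i => ?_, ?_⟩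
      · show 2 ≤ ee B p i
        unfold ee ye
        omega
      · show ∑ i, ee B p i + 2 ≤ n
        rw [sum_ee]
        have := hsum p hp univ
        omega
    | Sum.inr (τ, A, i, S) =>
      obtain ⟨u1, u2, u3⟩ := hU p hp τ A.1 A.2
      have hi : (i : ℕ) ≤ s + 1 + 1 := by
        have := i.2
        omega
      obtain ⟨r1, r2⟩ := odd_row hB (k := s + 1) (C := C) (G := G) (h := h) (by omega) hCG
        (A.1.min' A.2) p hGh (hp2 p hp) u1 u2 i hi S
      refine ⟨r1, ?_⟩
      show ∑ m, sh (row C (base (k := s + 1) h (A.1.min' A.2) (U n B τ A.1 p) p) (i : ℕ)) S m + 2 ≤ n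
      have hS : S.card ≤ s + 2 := by
        have := card_le_univ S
        simpa using this
      rw [r2]
      omega
  · -- injectivity
    intro t p p' hp hp' he
    match t with
    | Sum.inl false =>
      funext i
      have h1 : ye B p i = ye B p' i := congrFun he i
      unfold ye at h1
      omega
    | Sum.inl true =>
      funext i
      have h1 : ee B p i = ee B p' i := congrFun he i
      unfold ee ye at h1
      omega
    | Sum.inr (τ, A, i, S) =>
      exact row_inj hB hCG hGh hBe τ A.1 A.2 (fun q hq => by have := hsum q hq A.1; omega)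
        (fun q hq => ⟨(hU q hq τ A.1 A.2).1, (hU q hq τ A.1 A.2).2.1, hp2 q hq⟩) i S p p' hp hp' he
  · -- the contradiction
    intro p hp
    by_contra hcon
    push Not at hcon
    have hGd : ∀ (τ : Fin 3) (A : Finset (Fin (s + 2))), A.Nonempty →
        Gd V n (n - U n B τ A p) := by
      intro τ A hA
      obtain ⟨u1, u2, u3⟩ := hU p hp τ A hA
      refine H V n h (U n B τ A p) (A.min' hA) p hGh (hp2 p hp) u1 u2 u3 ?_
      intro i hi S
      exact hcon (Sum.inr (τ, ⟨A, hA⟩, ⟨i, by omega⟩, S))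
    have hall := hsum p hp univ
    -- `z n ∈ V`
    have hzn : z n ∈ V := by
      refine hZN V n (n - ∑ i, ye B p i) (List.ofFn (ye B p)) (by omega) ?_ ?_ ?_ ?_
      · intro y hy
        rw [List.mem_ofFn] at hy
        obtain ⟨i, rfl⟩ := hy
        exact ⟨by unfold ye; omega, ye_even hBe p i⟩
      · rw [List.sum_ofFn]
        omega
      · intro l hl hne
        obtain ⟨A, hA⟩ := sub_sum _ _ l hl
        rw [List.sum_ofFn] at hne
        have h1 : ∑ i ∈ A, ye B p i + ∑ i ∈ Aᶜ, ye B p i = ∑ i, ye B p i :=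
          sum_add_sum_compl A _
        have hne' : (Aᶜ).Nonempty := by
          rw [nonempty_iff_ne_empty]
          intro h0
          apply hne
          rw [h0, sum_empty, add_zero] at h1
          rw [hA, h1]
        have h2 := hGd 0 Aᶜ hne'
        have h3 : n - U n B 0 Aᶜ p = n - ∑ i, ye B p i + l.sum := by
          simp only [U]
          rw [hA]
          omega
        rwa [h3] at h2
      · refine odd_JL hP hJ1 V n (s + 2) (ye B p) (fun i => by unfold ye; omega) (by omega)
          (hcon (Sum.inl false)) _ ?_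
        exact List.perm_append_singleton _ _
    -- the last tuple
    set x : List ℕ := List.ofFn (fun i : Fin s => ye B p i.succ.succ) with hx
    have hys : ∑ i, ye B p i = ye B p 0 + (ye B p 1 + x.sum) := by
      rw [Fin.sum_univ_succ, Fin.sum_univ_succ, hx, List.sum_ofFn]
      rfl
    have hee := sum_ee B p
    obtain ⟨T, hT, hT0, hTV⟩ := hL V n (ye B p 0 + 1) (ye B p 1 + 1) (n - ∑ i, ee B p i) x
      (by rw [hx, List.length_ofFn]) (by
        intro y hy
        rw [hx, List.mem_ofFn] at hy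
        obtain ⟨i, rfl⟩ := hy
        exact ⟨by unfold ye; omega, ye_even hBe p _⟩)
      (by unfold ye; omega) (by unfold ye; omega) (by omega)
      ((ye_even hBe p 0).add_one) ((ye_even hBe p 1).add_one) (by
        have h3 := sum_even hBe p univ
        rw [Nat.even_iff] at h3
        rw [Nat.odd_iff] at hodd ⊢
        omega) (by omega) (by
        intro l hl
        obtain ⟨A, hA⟩ := sub_sum _ _ l hl
        -- the shifted set
        set A2 : Finset (Fin (s + 2)) := (A.map (Fin.succEmb s)).map (Fin.succEmb (s + 1)) with hA2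
        have hA2s : ∑ i ∈ A2, ye B p i = l.sum := by
          rw [hA, hA2, sum_map, sum_map]
          rfl
        have hm : ∀ i ∈ A2, 2 ≤ (i : ℕ) := by
          intro i hi
          rw [hA2, mem_map] at hi
          obtain ⟨j, hj, rfl⟩ := hi
          rw [mem_map] at hj
          obtain ⟨j', _, rfl⟩ := hj
          change 2 ≤ ((j'.succ.succ : Fin (s + 2)) : ℕ)
          rw [Fin.val_succ, Fin.val_succ]
          omega
        have h0 : (0 : Fin (s + 2)) ∉ A2 := fun h => by
          have := hm _ h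
          simp at this
        have h1 : (1 : Fin (s + 2)) ∉ A2 := fun h => by
          have := hm _ h
          simp at this
        have hcompl : ∑ i ∈ A2, ye B p i + ∑ i ∈ A2ᶜ, ye B p i = ∑ i, ye B p i :=
          sum_add_sum_compl A2 _
        refine ⟨?_, ?_, ?_, ?_⟩
        · have g := hGd 2 (insert 0 A2) (insert_nonempty _ _)
          have b := hsum p hp (insert 0 A2)
          have e : n - U n B 2 (insert 0 A2) p = ye B p 0 + 1 + l.sum := by
            simp only [U]
            rw [sum_insert h0] at b ⊢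
            omega
          rwa [e] at g
        · have g := hGd 2 (insert 1 A2) (insert_nonempty _ _)
          have b := hsum p hp (insert 1 A2)
          have e : n - U n B 2 (insert 1 A2) p = ye B p 1 + 1 + l.sum := by
            simp only [U]
            rw [sum_insert h1] at b ⊢
            omega
          rwa [e] at g
        · have g := hGd 1 A2ᶜ ⟨0, mem_compl.2 h0⟩
          have e : n - U n B 1 A2ᶜ p = n - ∑ i, ee B p i + l.sum := by
            simp only [U]
            omega
          rwa [e] at g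
        · -- the rest of `x`
          set R : Finset (Fin (s + 2)) := (A2ᶜ.erase 0).erase 1 with hR
          have hc1 : ye B p 0 + ∑ i ∈ A2ᶜ.erase 0, ye B p i = ∑ i ∈ A2ᶜ, ye B p i :=
            add_sum_erase _ _ (mem_compl.2 h0)
          have hc2 : ye B p 1 + ∑ i ∈ R, ye B p i = ∑ i ∈ A2ᶜ.erase 0, ye B p i :=
            add_sum_erase _ _ (mem_erase.2 ⟨by
              intro h
              have := congrArg Fin.val h
              simp at this, mem_compl.2 h1⟩)
          have hb := hsum p hp R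
          rcases R.eq_empty_or_nonempty with hRe | hRn
          · have e : ye B p 0 + 1 + (ye B p 1 + 1) + (n - ∑ i, ee B p i) + l.sum = n := by
              rw [hRe, sum_empty] at hc2
              omega
            unfold Gd
            rw [e, Nat.sub_self, pow_zero, mul_one]
            exact hzn
          · have g := hGd 0 R hRn
            have e : n - U n B 0 R p =
                ye B p 0 + 1 + (ye B p 1 + 1) + (n - ∑ i, ee B p i) + l.sum := by
              simp only [U]
              omega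
            rwa [e] at g)
      (by
        refine odd_JL hP hJ1 V n (s + 2) (ee B p) (fun i => by unfold ee ye; omega) (by omega)
          (hcon (Sum.inl true)) _ ?_
        rw [ofFn_ee, ← hx]
        have e : x ++ [ye B p 0 + 1, ye B p 1 + 1, n - ∑ i, ee B p i] =
            (x ++ [ye B p 0 + 1, ye B p 1 + 1]) ++ [n - ∑ i, ee B p i] := by simp
        rw [e]
        refine (List.perm_append_singleton _ _).trans (List.Perm.cons _ ?_)
        exact List.perm_append_comm.trans (by simp))
    exact hNP T hT hT0 hTV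

end Pool.Agent.MZG
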