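import Pool.Agent.MZG.J0
import Pool.Agent.MZG.J1
import Pool.Agent.MZG.J2
import Pool.Agent.MZG.J3
import Pool.Agent.MZG.CUBE
import Pool.Agent.MZG.EST
import Pool.Agent.MZG.DET
import Pool.Agent.MZG.GOOD
import Pool.Agent.MZG.JL
import Pool.Agent.MZG.TT
import Pool.Agent.MZG.PERM
import Pool.Agent.MZG.F
import Pool.Agent.MZG.BASE
import Pool.Agent.MZG.EVEN
import Pool.Agent.MZG.ODD16

set_option autoImplicit false

/-!
# MZG: the two final statements without hypotheses
-/

namespace Pool.Agent.MZG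

/-- **odd weights**, every depth -/
theorem odd_all : St_ODD :=
  ODD16 (GOOD (CUBE J1 J2) (DET (EST J0)) (J3 J2)) (thm_ZN57 (thm_JL J2)) (thm_TT (thm_JL J2)) PERM
    J1 F BASE

/-- **even weights**, every depth -/
theorem even_all : St_EVEN := EVEN J1 (J3 J2) F

end Pool.Agent.MZG
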