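import Pool.Agent.MZG.GOOD

set_option autoImplicit false

/-!
# MZG / OddA: tools for ODD
-/

namespace Pool.Agent.MZG

open Pool.Agent.Helper21 (mzv H zl Adm)
open Pool.Agent.MZA

/-- from clean rows to `Gd` -/
theorem odd_gd (hG : St_GOOD) (hB : St_BASE) (k : ℕ) (hk : 1 ≤ k) : ∃ C G : ℕ, 0 < C ∧ Even C ∧
    C * (k + 1) + 2 ≤ G ∧
    ∀ (V : Submodule ℚ ℝ) (n h u : ℕ) (i₀ : Fin (k + 1)) (p : Fin (k + 1) → ℕ), G ≤ h →
    (∀ i, 2 * p i ≤ h) → Even u → 4 * (k + 1) ^ 2 * h ≤ u → u + 2 * k + 6 ≤ n →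
    (∀ i : ℕ, i ≤ k + 1 → ∀ S, Clean V n (sh (row C (base h i₀ u p) i) S)) →
    Gd V n (n - u) := by
  obtain ⟨C, G₀, hC0, hCe, h1⟩ := hG k hk
  refine ⟨C, max G₀ (C * (k + 1) + 2), hC0, hCe, le_max_right _ _,
    fun V n h u i₀ p hGh hp hu hu2 hun hcl => ?_⟩
  have hG1 := le_max_left G₀ (C * (k + 1) + 2)
  have hG2 := le_max_right G₀ (C * (k + 1) + 2)
  obtain ⟨b1, b2, b3, b4⟩ := hB k (max G₀ (C * (k + 1) + 2)) h u i₀ p hk hGh hp hu hu2
  have h2 := h1 V n (base h i₀ u p) b2 (fun m => hG1.trans (b3 m))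
    (fun m m' hm => (Nat.add_le_add_left hG1 _).trans (b4 m m' hm)) (by rw [b1]; exact hun) hcl
  rw [b1] at h2
  have hu3 : 2 ≤ u := by
    have h3 := b3 0
    have h4 : base h i₀ u p 0 ≤ u := by
      calc base h i₀ u p 0 ≤ ∑ m, base h i₀ u p m :=
            Finset.single_le_sum (fun m _ => Nat.zero_le _) (Finset.mem_univ _)
        _ = u := b1
    omega
  obtain ⟨j, hj⟩ := hu
  obtain ⟨r, hr0, hr⟩ := thm_Zev j (by omega)
  have hzu : z u = r * Real.pi ^ u := by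
    unfold z
    have e : u = 2 * j := by omega
    rw [e]
    exact hr
  unfold Gd
  have e2 : n - (n - u) = u := by omega
  rw [e2]
  have h5 := V.smul_mem (r⁻¹) h2
  rw [Rat.smul_def, hzu] at h5
  have hr1 : (r : ℝ) ≠ 0 := by exact_mod_cast hr0.ne'
  have e3 : ((r⁻¹ : ℚ) : ℝ) * (r * Real.pi ^ u * z (n - u)) = z (n - u) * Real.pi ^ u := by
    push_cast
    field_simp
  rwa [e3] at h5

/-- entries and sums of the rows of a base -/
theorem odd_row (hB : St_BASE) {k C G h u : ℕ} (hk : 1 ≤ k) (hCG : C * (k + 1) + 2 ≤ G)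
    (i₀ : Fin (k + 1)) (p : Fin (k + 1) → ℕ) (hGh : G ≤ h) (hp : ∀ i, 2 * p i ≤ h) (hu : Even u)
    (hu2 : 4 * (k + 1) ^ 2 * h ≤ u) (i : ℕ) (hi : i ≤ k + 1) (S : Finset (Fin (k + 1))) :
    (∀ m, 2 ≤ sh (row C (base h i₀ u p) i) S m) ∧
      ∑ m, sh (row C (base h i₀ u p) i) S m = u + 2 * S.card := by
  obtain ⟨b1, b2, b3, b4⟩ := hB k G h u i₀ p hk hGh hp hu hu2
  have h2 : C * i ≤ C * (k + 1) := Nat.mul_le_mul_left C hi
  constructor
  · intro m
    have h1 := b3 m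
    unfold sh row
    split_ifs <;> omega
  · rw [good_sh, good_row _ (fun m => by have := b3 m; omega), b1]

/-- entries and sums of the rows -/
theorem odd_row0 {k C : ℕ} (b : Fin (k + 1) → ℕ) (hb : ∀ m, C * (k + 1) + 2 ≤ b m) (i : ℕ)
    (hi : i ≤ k + 1) (S : Finset (Fin (k + 1))) :
    (∀ m, 2 ≤ sh (row C b i) S m) ∧ ∑ m, sh (row C b i) S m = ∑ m, b m + 2 * S.card := by
  have h2 : C * i ≤ C * (k + 1) := Nat.mul_le_mul_left C hi
  constructor
  · intro m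
    have h1 := hb m
    unfold sh row
    split_ifs <;> omega
  · rw [good_sh, good_row _ (fun m => by have := hb m; omega)]

/-- for a fixed row and a fixed set the base can be read off -/
theorem odd_inj {k C : ℕ} (b b' : Fin (k + 1) → ℕ) (hb : ∀ m, C * (k + 1) + 2 ≤ b m)
    (hb' : ∀ m, C * (k + 1) + 2 ≤ b' m) (i : ℕ) (hi : i ≤ k + 1) (S : Finset (Fin (k + 1)))
    (h : sh (row C b i) S = sh (row C b' i) S) : b = b' := by
  funext m
  have h1 := congrFun h m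
  have h2 : C * i ≤ C * (k + 1) := Nat.mul_le_mul_left C hi
  have h3 := hb m
  have h4 := hb' m
  unfold sh row at h1
  split_ifs at h1 <;> omega

/-- the base determines `p` away from `i₀`, and `u` -/
theorem odd_base {k h u u' : ℕ} (i₀ : Fin (k + 1)) (p p' : Fin (k + 1) → ℕ)
    (hu : ∑ m : Fin k, (2 * h * (k - m) + 2 * p (i₀.succAbove m)) ≤ u)
    (hu' : ∑ m : Fin k, (2 * h * (k - m) + 2 * p' (i₀.succAbove m)) ≤ u')
    (hb : base h i₀ u p = base h i₀ u' p') : (∀ i, i ≠ i₀ → p i = p' i) ∧ u = u' := by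
  have h1 : ∀ m : Fin k, p (i₀.succAbove m) = p' (i₀.succAbove m) := by
    intro m
    have h2 := congrFun hb m.succ
    unfold base at h2
    rw [Fin.cons_succ, Fin.cons_succ] at h2
    omega
  have h3 : ∑ m : Fin k, (2 * h * (k - m) + 2 * p (i₀.succAbove m)) =
      ∑ m : Fin k, (2 * h * (k - m) + 2 * p' (i₀.succAbove m)) :=
    Finset.sum_congr rfl fun m _ => by rw [h1]
  constructor
  · intro i hi
    obtain ⟨m, rfl⟩ := Fin.exists_succAbove_eq hi
    exact h1 m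
  · have h2 := congrFun hb 0
    unfold base at h2
    rw [Fin.cons_zero, Fin.cons_zero] at h2
    omega

/-- from a clean tuple to the symmetric sum of a list -/
theorem odd_JL (hP : St_PERM) (h1 : St_J1) (V : Submodule ℚ ℝ) (n k : ℕ) (x : Fin k → ℕ)
    (hx : ∀ i, 2 ≤ x i) (hn : ∑ i, x i + 2 ≤ n) (hcl : Clean V n x) (L : List ℕ)
    (hL : L.Perm ((n - ∑ i, x i) :: List.ofFn x)) : JL L ∈ V := by
  rw [hP.1 L _ hL]
  have e : (n - ∑ i, x i) :: List.ofFn x =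
      List.ofFn (Fin.cons (n - ∑ i, x i) x : Fin (k + 1) → ℕ) := by
    rw [List.ofFn_succ]
    rfl
  rw [e, hP.2, h1 (k + 1)]
  · exact V.sum_mem fun σ _ => hcl σ
  · intro i
    refine Fin.cases ?_ (fun m => ?_) i
    · rw [Fin.cons_zero]
      omega
    · rw [Fin.cons_succ]
      exact hx m

end Pool.Agent.MZG
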