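import Mathlib
import Pool.Agent.MZG.Defs
import Pool.Agent.MZG.OddDefs

set_option autoImplicit false

/-!
# MZG, module ODD, part B: the needed values of `u` (helper65)
-/

namespace Pool.Agent.MZG

theorem ee_even {m E : ℕ} (hE : Even E) (B : Finset (Fin m)) (p : Fin m → ℕ) :
    Even (∑ i ∈ B, ee E p i) := by
  unfold ee
  exact Finset.even_sum _ (fun i _ => hE.add (even_two_mul _))

theorem ee_ge {m E : ℕ} {B : Finset (Fin m)} (hB : B.Nonempty) (p : Fin m → ℕ) :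
    E ≤ ∑ i ∈ B, ee E p i := by
  obtain ⟨i, hi⟩ := hB
  have h : ee E p i ≤ ∑ i ∈ B, ee E p i :=
    Finset.single_le_sum (f := fun i => ee E p i) (fun _ _ => Nat.zero_le _) hi
  have h2 : E ≤ ee E p i := Nat.le_add_right _ _
  omega

theorem ee_le {m E N : ℕ} (B : Finset (Fin m)) {p : Fin m → ℕ} (hp : ∀ i, p i ≤ N) :
    ∑ i ∈ B, ee E p i ≤ m * (E + 2 * N) := by
  calc ∑ i ∈ B, ee E p i ≤ ∑ _i ∈ B, (E + 2 * N) :=
        Finset.sum_le_sum fun i _ => by
          have := hp i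
          unfold ee
          omega
    _ = B.card * (E + 2 * N) := by rw [Finset.sum_const, smul_eq_mul]
    _ ≤ m * (E + 2 * N) := Nat.mul_le_mul_right _ (by
        have := Finset.card_le_univ B
        rwa [Fintype.card_fin] at this)

theorem uu_bounds {m E N n : ℕ} (hE : Even E) (hn : Odd n) (hE2 : 2 * m + 10 ≤ E)
    (hnn : m * (E + 2 * N) + E + 2 * m + 12 ≤ n) (q : Fin 3) {B : Finset (Fin m)}
    (hB : B.Nonempty) {p : Fin m → ℕ} (hp : ∀ i, p i ≤ N) :
    E ≤ uu n E p q B ∧ uu n E p q B + 2 * m + 4 ≤ n ∧ Even (uu n E p q B) := by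
  have h1 := ee_even hE B p
  have h2 := ee_ge (E := E) hB p
  have h3 := ee_le (E := E) B hp
  obtain ⟨a, ha⟩ := h1
  obtain ⟨b, hb⟩ := hn
  unfold uu
  split_ifs with h4 h5
  · exact ⟨h2, by omega, ⟨a, ha⟩⟩
  · exact ⟨by omega, by omega, ⟨a + 1, by omega⟩⟩
  · exact ⟨by omega, by omega, ⟨b - a, by omega⟩⟩

theorem uu_inj {m E N n : ℕ} (hnn : m * (E + 2 * N) + E + 2 * m + 12 ≤ n) (q : Fin 3)
    {B : Finset (Fin m)} {i₀ : Fin m} (hi : i₀ ∈ B) {p p' : Fin m → ℕ} (hp : ∀ i, p i ≤ N)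
    (hp' : ∀ i, p' i ≤ N) (hoff : ∀ i, i ≠ i₀ → p i = p' i)
    (h : uu n E p q B = uu n E p' q B) : p = p' := by
  have h3 := ee_le (E := E) B hp
  have h3' := ee_le (E := E) B hp'
  have h4 : ∑ i ∈ B, ee E p i = ∑ i ∈ B, ee E p' i := by
    unfold uu at h
    split_ifs at h <;> omega
  rw [← Finset.add_sum_erase _ _ hi, ← Finset.add_sum_erase _ _ hi] at h4
  have h5 : ∑ i ∈ B.erase i₀, ee E p i = ∑ i ∈ B.erase i₀, ee E p' i :=
    Finset.sum_congr rfl fun i hi' => by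
      unfold ee
      rw [hoff i (Finset.ne_of_mem_erase hi')]
  funext i
  by_cases hii : i = i₀
  · subst hii
    unfold ee at h4 h5
    omega
  · exact hoff i hii

/-- the map `p ↦ sh (row C (base ..) i) S` is injective -/
theorem row_inj {k C G h u u' i : ℕ} {i₀ : Fin (k + 1)} (hB : St_BASE) (hk : 1 ≤ k)
    (hG : G ≤ h) (hGC : C * (k + 1) ≤ G) (hi : i ≤ k + 1) {p p' : Fin (k + 1) → ℕ}
    (hp : ∀ i, 2 * p i ≤ h) (hp' : ∀ i, 2 * p' i ≤ h) (hu : Even u) (hu' : Even u')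
    (h1 : 4 * (k + 1) ^ 2 * h ≤ u) (h1' : 4 * (k + 1) ^ 2 * h ≤ u') (S : Finset (Fin (k + 1)))
    (heq : sh (row C (base h i₀ u p) i) S = sh (row C (base h i₀ u' p') i) S) :
    u = u' ∧ ∀ j, j ≠ i₀ → p j = p' j := by
  obtain ⟨a1, -, a3, -⟩ := hB k G h u i₀ p hk hG hp hu h1
  obtain ⟨b1, -, b3, -⟩ := hB k G h u' i₀ p' hk hG hp' hu' h1'
  have hCi : C * i ≤ G := le_trans (Nat.mul_le_mul_left _ hi) hGC
  have hbase : ∀ m, base h i₀ u p m = base h i₀ u' p' m := by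
    intro m
    have h2 := congrFun heq m
    unfold sh row at h2
    have h3 := a3 m
    have h4 := b3 m
    split_ifs at h2 <;> omega
  constructor
  · rw [← a1, ← b1]
    exact Finset.sum_congr rfl fun m _ => hbase m
  · intro j hj
    obtain ⟨m, rfl⟩ := Fin.exists_succAbove_eq hj
    have h2 := hbase m.succ
    unfold base at h2
    rw [Fin.cons_succ, Fin.cons_succ] at h2
    omega

/-- a sublist of `List.ofFn g` is given by a set of indices -/
theorem sublist_ofFn : ∀ (s : ℕ) (g : Fin s → ℕ) (l : List ℕ), l.Sublist (List.ofFn g) →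
    ∃ A : Finset (Fin s), l.sum = ∑ i ∈ A, g i := by
  intro s
  induction s with
  | zero =>
    intro g l hl
    refine ⟨∅, ?_⟩
    rw [List.ofFn_zero, List.sublist_nil] at hl
    rw [hl]
    rfl
  | succ s ih =>
    intro g l hl
    rw [List.ofFn_succ, List.sublist_cons_iff] at hl
    rcases hl with hl | ⟨r, rfl, hl⟩
    · obtain ⟨A, hA⟩ := ih _ _ hl
      refine ⟨A.map (Fin.succEmb s), ?_⟩
      rw [hA, Finset.sum_map]
      rfl
    · obtain ⟨A, hA⟩ := ih _ _ hl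
      refine ⟨insert 0 (A.map (Fin.succEmb s)), ?_⟩
      rw [Finset.sum_insert, Finset.sum_map, List.sum_cons, hA]
      · rfl
      · simp

end Pool.Agent.MZG
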