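import Mathlib
import Pool.Agent.MZG.Defs
import Pool.Agent.MZG.OddDefs
import Pool.Agent.MZG.OddA
import Pool.Agent.MZG.OddB

set_option autoImplicit false

/-!
# MZG, module ODD: assembly for odd weight (helper65)
-/

namespace Pool.Agent.MZG

theorem odd_zz (hG : St_GOOD) (hB : St_BASE) (k : ℕ) (hk : 1 ≤ k) : ∃ C G : ℕ, 0 < C ∧ Even C ∧
    C * (k + 1) + 2 ≤ G ∧
    ∀ (V : Submodule ℚ ℝ) (n h u : ℕ) (i₀ : Fin (k + 1)) (p : Fin (k + 1) → ℕ), G ≤ h →
    (∀ i, 2 * p i ≤ h) → Even u → 4 * (k + 1) ^ 2 * h ≤ u → u + 2 * k + 6 ≤ n →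
    (∀ i : ℕ, i ≤ k + 1 → ∀ S, Clean V n (sh (row C (base h i₀ u p) i) S)) →
    z u * z (n - u) ∈ V := by
  obtain ⟨C, G₀, hC0, hCe, h1⟩ := hG k hk
  refine ⟨C, max G₀ (C * (k + 1) + 2), hC0, hCe, le_max_right _ _,
    fun V n h u i₀ p hGh hp hu hu2 hun hcl => ?_⟩
  have hG1 := le_max_left G₀ (C * (k + 1) + 2)
  obtain ⟨b1, b2, b3, b4⟩ := hB k (max G₀ (C * (k + 1) + 2)) h u i₀ p hk hGh hp hu hu2
  have h2 := h1 V n (base h i₀ u p) b2 (fun m => hG1.trans (b3 m))
    (fun m m' hm => (Nat.add_le_add_left hG1 _).trans (b4 m m' hm)) (by rw [b1]; exact hun) hcl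
  rw [b1] at h2
  exact h2

/-- the family of tuples -/
noncomputable def odf (s C h n E : ℕ) :
    (Fin 3 × {A : Finset (Fin (s + 2)) // A.Nonempty} × Fin (s + 3) × Finset (Fin (s + 2))) ⊕ Bool →
      (Fin (s + 2) → ℕ) → (Fin (s + 2) → ℕ)
  | Sum.inl (q, A, i, S), p =>
    sh (row (k := s + 1) C (base (k := s + 1) h A.2.choose (uu n E p q A.1) p) i) S
  | Sum.inr false, p => ee E p
  | Sum.inr true, p => yy E p

theorem yy_le {s E : ℕ} (p : Fin (s + 2) → ℕ) :
    ∑ i, yy E p i ≤ ∑ i, ee E p i + (s + 2) := by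
  unfold yy
  rw [Finset.sum_add_distrib]
  apply Nat.add_le_add_left
  calc ∑ i : Fin (s + 2), (if s ≤ (i : ℕ) then 1 else 0) ≤ ∑ _i : Fin (s + 2), 1 :=
        Finset.sum_le_sum fun i _ => by split_ifs <;> omega
    _ = s + 2 := by simp

theorem ODD (hC : St_CONF) (hG : St_GOOD) (hF : St_F) (hB : St_BASE) : St_ODD := by
  intro k hk
  obtain ⟨s, rfl⟩ : ∃ s, k = s + 2 := ⟨k - 2, by omega⟩
  obtain ⟨L, hL⟩ := hC s
  obtain ⟨C, G, hC0, hCe, hCG, hzz⟩ := odd_zz hG hB (s + 1) (by omega)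
  set G' := G + L + 10 with hG'
  set Q := 8 * (s + 2) ^ 2 * (s + 3) + 2 * (s + 2) with hQ
  set R := 4 * (s + 2) ^ 2 * (s + 3) * G' + 2 * (s + 2) + 12 + L with hR
  have hQ0 : 0 < Q := by rw [hQ]; positivity
  refine ⟨(2 * (2 * Q)) ^ (s + 2) * ((s + 2 + 1).factorial * Fintype.card
    ((Fin 3 × {A : Finset (Fin (s + 2)) // A.Nonempty} × Fin (s + 3) × Finset (Fin (s + 2))) ⊕ Bool)),
    2 * Q + 2 * R, ?_, ?_⟩
  · have h1 : 0 < Fintype.card ((Fin 3 × {A : Finset (Fin (s + 2)) // A.Nonempty} × Fin (s + 3) ×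
        Finset (Fin (s + 2))) ⊕ Bool) := Fintype.card_pos_iff.2 ⟨Sum.inr true⟩
    have h2 := Nat.factorial_pos (s + 2 + 1)
    positivity
  intro V n hn0 hodd hNP
  set N := n / (2 * Q) with hN
  have hND : N * (2 * Q) ≤ n := Nat.div_mul_le_self n _
  have hN1 : 1 ≤ N := by
    rw [hN, Nat.one_le_div_iff (by omega)]
    omega
  have hnN : n ≤ 2 * (2 * Q) * N := by
    have h1 : n < (N + 1) * (2 * Q) := by
      rw [hN]
      exact (Nat.div_lt_iff_lt_mul (by omega)).1 (Nat.lt_succ_self _)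
    nlinarith
  set h := 2 * N + G' with hh
  set E := 4 * (s + 2) ^ 2 * h with hE
  have hEh : 4 * h ≤ E := by
    rw [hE]
    have : 1 ≤ (s + 2) ^ 2 := Nat.one_le_pow _ _ (by omega)
    nlinarith
  have hEe : Even E := ⟨2 * (s + 2) ^ 2 * h, by rw [hE]; ring⟩
  have hE2 : 2 * (s + 2) + 10 ≤ E := by
    have h1 : s + 2 ≤ (s + 2) ^ 2 := by nlinarith
    have h2 : (s + 2) ^ 2 * 10 ≤ (s + 2) ^ 2 * h := Nat.mul_le_mul_left _ (by omega)
    rw [hE]
    nlinarith
  have hLE : L ≤ E := by omega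
  have hbig : (s + 2) * (E + 2 * N) + E + 2 * (s + 2) + 12 + L ≤ n := by
    have h1 : (s + 2) * (E + 2 * N) + E + 2 * (s + 2) + 12 + L = Q * N + R := by
      rw [hQ, hR, hE, hh]
      ring
    rw [h1]
    have h2 : 2 * (Q * N) ≤ n := by
      calc 2 * (Q * N) = N * (2 * Q) := by ring
        _ ≤ n := hND
    omega
  have hbox : ∀ p : Fin (s + 2) → ℕ, (∀ i, 1 ≤ p i ∧ p i ≤ N) →
      (∀ i, p i ≤ N) ∧ ∀ i, 2 * p i ≤ h := fun p hp =>
    ⟨fun i => (hp i).2, fun i => by have := (hp i).2; omega⟩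
  have hGh : G ≤ h := by omega
  have key := hF V n (s + 2) N _ (odf s C h n E) (by
      rintro (⟨q, A, i, S⟩ | b) p hp
      · obtain ⟨hp1, hp2⟩ := hbox p hp
        obtain ⟨u1, u2, u3⟩ := uu_bounds (N := N) hEe hodd hE2 (by omega) q A.2 hp1
        obtain ⟨r1, r2⟩ := odd_row hB (k := s + 1) (by omega) hCG A.2.choose p hGh hp2 u3
          (by rw [hE] at u1; exact u1) i (by have := i.isLt; omega) S
        refine ⟨r1, ?_⟩
        have hS : S.card ≤ s + 2 := by
          have := Finset.card_le_univ S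
          rwa [Fintype.card_fin] at this
        have r3 : ∑ m, odf s C h n E (Sum.inl (q, A, i, S)) p m = uu n E p q A.1 + 2 * S.card := r2
        rw [r3]
        omega
      · obtain ⟨hp1, hp2⟩ := hbox p hp
        have h1 := ee_le (E := E) Finset.univ hp1
        have h2 := yy_le (E := E) p
        cases b
        · constructor
          · intro i
            show 2 ≤ E + 2 * p i
            omega
          · show ∑ i, ee E p i + 2 ≤ n
            omega
        · constructor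
          · intro i
            show 2 ≤ (E + 2 * p i) + _
            omega
          · show ∑ i, yy E p i + 2 ≤ n
            omega) (by
      rintro (⟨q, A, i, S⟩ | b) p p' hp hp' heq
      · obtain ⟨hp1, hp2⟩ := hbox p hp
        obtain ⟨hp1', hp2'⟩ := hbox p' hp'
        obtain ⟨u1, -, u3⟩ := uu_bounds (N := N) hEe hodd hE2 (by omega) q A.2 hp1
        obtain ⟨u1', -, u3'⟩ := uu_bounds (N := N) hEe hodd hE2 (by omega) q A.2 hp1'
        obtain ⟨e1, e2⟩ := row_inj (k := s + 1) hB (by omega) hGh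
          (by omega : C * (s + 1 + 1) ≤ G) (by have := i.isLt; omega : (i : ℕ) ≤ s + 1 + 1)
          hp2 hp2' u3 u3' (by rw [hE] at u1; exact u1) (by rw [hE] at u1'; exact u1') S heq
        exact uu_inj (N := N) (by omega) q A.2.choose_spec hp1 hp1' e2 e1
      · funext i
        cases b
        · have h1 : E + 2 * p i = E + 2 * p' i := congrFun heq i
          omega
        · have h1 : (E + 2 * p i) + (if s ≤ (i : ℕ) then 1 else 0) =
              (E + 2 * p' i) + (if s ≤ (i : ℕ) then 1 else 0) := congrFun heq i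
          omega) (by
      intro p hp
      by_contra hcon
      push Not at hcon
      obtain ⟨hp1, hp2⟩ := hbox p hp
      have h1 := ee_le (E := E) Finset.univ hp1
      refine hL V n E p hodd hEe hLE (by omega) hNP ?_ (hcon (Sum.inr false))
        (hcon (Sum.inr true))
      intro c A hA
      obtain ⟨u1, u2, u3⟩ := uu_bounds (N := N) hEe hodd hE2 (by omega) c hA hp1
      refine hzz V n h (uu n E p c A) hA.choose p hGh hp2 u3 (by rw [hE] at u1; exact u1)
        (by omega) ?_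
      intro i hi S
      exact hcon (Sum.inl (c, ⟨A, hA⟩, ⟨i, by omega⟩, S)))
  calc n ^ (s + 2) ≤ (2 * (2 * Q) * N) ^ (s + 2) := Nat.pow_le_pow_left hnN _
    _ = (2 * (2 * Q)) ^ (s + 2) * N ^ (s + 2) := by rw [mul_pow]
    _ ≤ (2 * (2 * Q)) ^ (s + 2) * ((s + 2 + 1).factorial * Fintype.card
        ((Fin 3 × {A : Finset (Fin (s + 2)) // A.Nonempty} × Fin (s + 3) ×
          Finset (Fin (s + 2))) ⊕ Bool) * (Out V n (s + 2 + 1)).ncard) :=
        Nat.mul_le_mul_left _ key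
    _ = _ := by ring

end Pool.Agent.MZG
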