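import Pool.Agent.MZG.J0
import Pool.Agent.MZG.J1
import Pool.Agent.MZG.J2
import Pool.Agent.MZG.J3
import Pool.Agent.MZG.JL
import Pool.Agent.MZG.PERM
import Pool.Agent.MZG.CUBE
import Pool.Agent.MZG.EST
import Pool.Agent.MZG.DET
import Pool.Agent.MZG.GOOD
import Pool.Agent.MZG.ZN
import Pool.Agent.MZG.TT
import Pool.Agent.MZG.F
import Pool.Agent.MZG.BASE
import Pool.Agent.MZG.EVEN
import Pool.Agent.MZG.CONF
import Pool.Agent.MZG.ODD
import Pool.Agent.MZG.FIN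
import Pool.Agent.MZT.B0
import Pool.Agent.MZT.B
import Pool.Agent.MZT.C
import Pool.Agent.MZTV.Fin

set_option autoImplicit false

/-!
# MZG: the modules put together
-/

namespace Pool.Agent.MZG

open Pool.Agent.Helper21 (mzv H zl Adm)
open Pool.Agent.MZA

theorem all_EVEN : St_EVEN := EVEN J1 (J3 J2) F

theorem all_GOOD : St_GOOD := GOOD (CUBE J1 J2) (DET (EST J0)) (J3 J2)

theorem all_CONF : St_CONF := CONF J1 PERM (ZN (thm_JL J2)) (thm_TT (thm_JL J2))

theorem all_ODD : St_ODD := ODD all_CONF all_GOOD F BASE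

/-- depth 3, with explicit constants -/
theorem all_three : Ineq 3 500000000 40000 := by
  intro K V n hn hV
  have h := Pool.Agent.MZTV.thm_FinV (Pool.Agent.MZT.thm_C (Pool.Agent.MZT.thm_B
    Pool.Agent.MZT.thm_B0)) V n (by
      rintro ⟨v, hv, hv0, h⟩
      exact hv0 (hV v hv h)) hn
  have e : OutK n 3 V = Pool.Agent.MZTV.Out3V V n := by
    ext w
    constructor
    · rintro ⟨g1, g2, g3⟩
      refine ⟨g1, g2, ?_⟩
      rwa [mz, main_mzv w ⟨g1.1, g1.2.1⟩] at g3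
    · rintro ⟨g1, g2, g3⟩
      refine ⟨g1, g2, ?_⟩
      rwa [mz, main_mzv w ⟨g1.1, g1.2.1⟩]
  rw [e]
  exact h

/-- every depth, with constants -/
theorem all_Ineq : ∀ r : ℕ, ∃ M n₀ : ℕ, 1 ≤ n₀ ∧ (3 ≤ r → Ineq r M n₀) ∧
    (r = 3 → M = 500000000 ∧ n₀ = 40000) := by
  intro r
  rcases Nat.lt_or_ge r 3 with hr | hr
  · exact ⟨1, 1, le_rfl, fun h => by omega, fun h => by omega⟩
  rcases eq_or_ne r 3 with rfl | h3
  · exact ⟨500000000, 40000, by norm_num, fun _ => all_three, fun _ => ⟨rfl, rfl⟩⟩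
  · obtain ⟨M, n₀, h⟩ := fin_ineq all_ODD all_EVEN r hr
    exact ⟨M, max n₀ 1, le_max_right _ _,
      fun _ K V n hn hV => h K V n (le_of_max_le_left hn) hV, fun h => absurd h h3⟩

end Pool.Agent.MZG
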