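import Pool.Agent.MZG.Defs

set_option autoImplicit false

/-!
# MZG: the number of the indices of weight `n` and depth `r`
-/

namespace Pool.Agent.MZG

open Pool.Agent.Helper21 (mzv H zl Adm)
open Pool.Agent.MZA

/-- add one to the first entry -/
def incH : List ℕ → List ℕ
  | [] => []
  | a :: t => (a + 1) :: t

theorem incH_inj : Function.Injective incH := by
  intro a b h
  match a, b with
  | [], [] => rfl
  | [], _ :: _ => simp [incH] at h
  | _ :: _, [] => simp [incH] at h
  | a :: s, b :: t =>
    simp only [incH, List.cons.injEq, Nat.add_right_cancel_iff] at h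
    rw [h.1, h.2]

/-- the words of length `r`, positive entries and sum `m` -/
def WW : ℕ → ℕ → Finset (List ℕ)
  | 0, 0 => {[]}
  | 0, _ + 1 => ∅
  | _ + 1, 0 => ∅
  | m + 1, r + 1 => (WW m r).image (fun w => 1 :: w) ∪ (WW m (r + 1)).image incH

theorem mem_WW : ∀ (m r : ℕ) (w : List ℕ), w ∈ WW m r ↔ (∀ a ∈ w, 1 ≤ a) ∧ w.length = r ∧ w.sum = m := by
  intro m
  induction m with
  | zero =>
    intro r w
    cases r with
    | zero =>
      rw [WW, Finset.mem_singleton]
      constructor
      · rintro rfl
        simp
      · rintro ⟨-, h, -⟩
        exact List.length_eq_zero_iff.1 h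
    | succ r =>
      rw [WW]
      constructor
      · intro h
        exact absurd h (Finset.notMem_empty _)
      · rintro ⟨h1, h2, h3⟩
        cases w with
        | nil => simp at h2
        | cons a t =>
          have h4 := h1 a (by simp)
          rw [List.sum_cons] at h3
          omega
  | succ m ih =>
    intro r w
    cases r with
    | zero =>
      rw [WW]
      constructor
      · intro h
        exact absurd h (Finset.notMem_empty _)
      · rintro ⟨h1, h2, h3⟩
        have : w = [] := List.length_eq_zero_iff.1 h2
        rw [this] at h3
        simp at h3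
    | succ r =>
      rw [WW, Finset.mem_union, Finset.mem_image, Finset.mem_image]
      constructor
      · rintro (⟨v, hv, rfl⟩ | ⟨v, hv, rfl⟩)
        · obtain ⟨h1, h2, h3⟩ := (ih r v).1 hv
          refine ⟨?_, by simp [h2], by rw [List.sum_cons, h3]; omega⟩
          intro a ha
          rcases List.mem_cons.1 ha with h | h
          · omega
          · exact h1 a h
        · obtain ⟨h1, h2, h3⟩ := (ih (r + 1) v).1 hv
          cases v with
          | nil => simp at h2
          | cons b t =>
            simp only [incH]
            rw [List.sum_cons] at h3
            refine ⟨?_, by simpa using h2, by rw [List.sum_cons]; omega⟩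
            intro a ha
            rcases List.mem_cons.1 ha with h | h
            · omega
            · exact h1 a (List.mem_cons_of_mem _ h)
      · rintro ⟨h1, h2, h3⟩
        cases w with
        | nil => simp at h2
        | cons b t =>
          have hb := h1 b (by simp)
          have ht : ∀ a ∈ t, 1 ≤ a := fun a ha => h1 a (List.mem_cons_of_mem _ ha)
          rw [List.sum_cons] at h3
          rw [List.length_cons] at h2
          rcases Nat.lt_or_ge 1 b with h | h
          · right
            refine ⟨(b - 1) :: t, (ih (r + 1) _).2 ⟨?_, by rw [List.length_cons]; omega,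
              by rw [List.sum_cons]; omega⟩, ?_⟩
            · intro a ha
              rcases List.mem_cons.1 ha with h' | h'
              · omega
              · exact ht a h'
            · simp only [incH, List.cons.injEq, and_true]
              omega
          · left
            refine ⟨t, (ih r _).2 ⟨ht, by omega, by omega⟩, ?_⟩
            have : b = 1 := by omega
            rw [this]

theorem card_WW : ∀ m r : ℕ, (WW (m + 1) (r + 1)).card = m.choose r := by
  have key : ∀ m r : ℕ, (WW (m + 1) (r + 1)).card = (WW m r).card + (WW m (r + 1)).card := by
    intro m r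
    rw [WW, Finset.card_union_of_disjoint, Finset.card_image_of_injective _ List.cons_injective,
      Finset.card_image_of_injective _ incH_inj]
    rw [Finset.disjoint_left]
    intro w h1 h2
    obtain ⟨v, hv, rfl⟩ := Finset.mem_image.1 h1
    obtain ⟨u, hu, h3⟩ := Finset.mem_image.1 h2
    obtain ⟨h4, h5, -⟩ := (mem_WW m (r + 1) u).1 hu
    cases u with
    | nil => simp at h5
    | cons b t =>
      have := h4 b (by simp)
      simp only [incH, List.cons.injEq] at h3
      omega
  intro m
  induction m with
  | zero =>
    intro r
    rw [key]
    cases r with
    | zero => simp [WW]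
    | succ r => simp [WW]
  | succ m ih =>
    intro r
    rw [key, ih]
    cases r with
    | zero => simp [WW]
    | succ r =>
      rw [ih, Nat.choose_succ_succ]

/-- the number of the indices of weight `n` and depth `r + 1 ≥ 2` -/
theorem CNTR (n r : ℕ) (hr : 1 ≤ r) :
    {w : List ℕ | w ∈ Idx n ∧ w.length = r + 1}.ncard = (n - 2).choose r := by
  have e : {w : List ℕ | w ∈ Idx n ∧ w.length = r + 1} =
      ((WW (n - 1) (r + 1)).image incH : Finset (List ℕ)) := by
    ext w
    rw [Finset.coe_image, Set.mem_image]
    constructor
    · rintro ⟨⟨h1, h2, h3⟩, h4⟩
      cases w with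
      | nil => simp at h4
      | cons b t =>
        have hb := h2 b t rfl
        rw [List.sum_cons] at h3
        refine ⟨(b - 1) :: t, (mem_WW _ _ _).2 ⟨?_, by simpa using h4,
          by rw [List.sum_cons]; omega⟩, ?_⟩
        · intro a ha
          rcases List.mem_cons.1 ha with h' | h'
          · omega
          · exact h1 a (List.mem_cons_of_mem _ h')
        · simp only [incH, List.cons.injEq, and_true]
          omega
    · rintro ⟨v, hv, rfl⟩
      obtain ⟨h1, h2, h3⟩ := (mem_WW _ _ _).1 (Finset.mem_coe.1 hv)
      cases v with
      | nil => simp at h2
      | cons b t =>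
        have hb := h1 b (by simp)
        rw [List.sum_cons] at h3
        refine ⟨⟨?_, ?_, ?_⟩, by simpa [incH] using h2⟩
        · intro a ha
          rcases List.mem_cons.1 ha with h' | h'
          · omega
          · exact h1 a (List.mem_cons_of_mem _ h')
        · intro a s has
          simp only [incH, List.cons.injEq] at has
          omega
        · simp only [incH, List.sum_cons]
          omega
  rw [e, Set.ncard_coe_finset, Finset.card_image_of_injective _ incH_inj]
  rcases Nat.lt_or_ge 1 n with h | h
  · have e1 : n - 1 = (n - 2) + 1 := by omega
    rw [e1, card_WW]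
  · have e1 : n - 1 = 0 := by omega
    have e2 : n - 2 = 0 := by omega
    rw [e1, e2]
    obtain ⟨s, rfl⟩ : ∃ s, r = s + 1 := ⟨r - 1, by omega⟩
    simp [WW]

end Pool.Agent.MZG
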