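import Pool.Agent.MZG.Defs
import Pool.Agent.MZG.CNTR
import Pool.Agent.MZF.Flg
import Pool.Agent.MZA.Main

set_option autoImplicit false

/-!
# MZG: every depth, every weight, the final forms (from ODD and EVEN)
-/

namespace Pool.Agent.MZG

open Pool.Agent.Helper21 (mzv H zl Adm)
open Pool.Agent.MZA Pool.Agent.MZF

/-- the words of weight `n` and depth `r` with `mz w ∉ V` -/
def OutK {K : IntermediateField ℚ ℝ} (n r : ℕ) (V : Submodule K ℝ) : Set (List ℕ) :=
  {w | w ∈ Idx n ∧ w.length = r ∧ mz w ∉ V}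

/-- the inequality for the depth `r`, with the constants `M` and `n₀` -/
def Ineq (r M n₀ : ℕ) : Prop :=
  ∀ (K : IntermediateField ℚ ℝ) (V : Submodule K ℝ) (n : ℕ), n₀ ≤ n →
    (∀ v ∈ V, Real.pi ^ (2 * n) * v ∈ V * V * V → v = 0) → n ^ (r - 1) ≤ M * (OutK n r V).ncard

theorem fin_rs_mul {K : IntermediateField ℚ ℝ} (U W : Submodule K ℝ) :
    U.restrictScalars ℚ * W.restrictScalars ℚ ≤ (U * W).restrictScalars ℚ := by
  rw [Submodule.mul_le]
  intro a ha b hb
  rw [Submodule.restrictScalars_mem] at ha hb ⊢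
  exact Submodule.mul_mem_mul ha hb

theorem fin_rs_mul3 {K : IntermediateField ℚ ℝ} (V : Submodule K ℝ) :
    V.restrictScalars ℚ * V.restrictScalars ℚ * V.restrictScalars ℚ ≤
      (V * V * V).restrictScalars ℚ := by
  rw [Submodule.mul_le]
  intro a ha b hb
  have h := fin_rs_mul V V ha
  rw [Submodule.restrictScalars_mem] at h hb ⊢
  exact Submodule.mul_mem_mul h hb

/-- from the modules ODD and EVEN -/
theorem fin_ineq (hO : St_ODD) (hE : St_EVEN) (r : ℕ) (hr : 3 ≤ r) : ∃ M n₀ : ℕ, Ineq r M n₀ := by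
  obtain ⟨M₁, n₁, -, h1⟩ := hO (r - 1) (by omega)
  obtain ⟨M₂, n₂, -, h2⟩ := hE (r - 1) (by omega)
  have hr1 : r - 1 + 1 = r := by omega
  rw [hr1] at h1 h2
  refine ⟨max M₁ M₂, max n₁ n₂, ?_⟩
  intro K V n hn hV
  have hNP : NP (V.restrictScalars ℚ) n := by
    intro T hT hT0 h
    exact hT0 (hV T hT (fin_rs_mul3 V h))
  have e : OutK n r V = Out (V.restrictScalars ℚ) n r := by
    ext w
    constructor
    · rintro ⟨g1, g2, g3⟩
      refine ⟨g1, g2, ?_⟩
      rw [mz, main_mzv w ⟨g1.1, g1.2.1⟩] at g3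
      exact g3
    · rintro ⟨g1, g2, g3⟩
      refine ⟨g1, g2, ?_⟩
      rw [mz, main_mzv w ⟨g1.1, g1.2.1⟩]
      exact g3
  rw [e]
  rcases Nat.even_or_odd n with he | ho
  · exact (h2 _ n (le_of_max_le_right hn) he hNP).trans
      (Nat.mul_le_mul_right _ (le_max_right _ _))
  · exact (h1 _ n (le_of_max_le_left hn) ho hNP).trans
      (Nat.mul_le_mul_right _ (le_max_left _ _))

/-- the dimension of a product of two spaces -/
theorem fin_finrank_mul (K : IntermediateField ℚ ℝ) (U W : Submodule K ℝ) [Module.Finite K U]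
    [Module.Finite K W] : Module.finrank K (U * W : Submodule K ℝ) ≤
      Module.finrank K U * Module.finrank K W := by
  rw [← Submodule.mulMap_range, ← Module.finrank_tensorProduct]
  exact LinearMap.finrank_range_le _

theorem fin_fin_mul (K : IntermediateField ℚ ℝ) (U W : Submodule K ℝ) [Module.Finite K U]
    [Module.Finite K W] : Module.Finite K (U * W : Submodule K ℝ) := by
  rw [← Submodule.mulMap_range]
  infer_instance

/-- at most `k ^ 4` exceptional weights -/
theorem fin_exc_card (K : IntermediateField ℚ ℝ) (hK : Transcendental K Real.pi)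
    (V : Submodule K ℝ) [Module.Finite K V] (T : Finset ℕ)
    (hT : ∀ n ∈ T, ∃ v ∈ V, v ≠ 0 ∧ Real.pi ^ (2 * n) * v ∈ V * V * V) :
    T.card ≤ Module.finrank K V ^ 4 := by
  classical
  have i1 : Module.Finite K (V * V : Submodule K ℝ) := fin_fin_mul K V V
  have i2 : Module.Finite K (V * V * V : Submodule K ℝ) := fin_fin_mul K (V * V) V
  have h1 := thm_Flg K ℝ Real.pi hK V (V * V * V) (T.image (fun n => 2 * n)) (by
    intro N hN
    obtain ⟨n, hn, rfl⟩ := Finset.mem_image.1 hN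
    exact hT n hn)
  rw [Finset.card_image_of_injective _ (fun a b h => by
    have h' : 2 * a = 2 * b := h
    omega)] at h1
  have h2 := fin_finrank_mul K (V * V) V
  have h3 := fin_finrank_mul K V V
  calc T.card ≤ Module.finrank K V * Module.finrank K (V * V * V : Submodule K ℝ) := h1
    _ ≤ Module.finrank K V * (Module.finrank K V * Module.finrank K V * Module.finrank K V) :=
        Nat.mul_le_mul_left _ (h2.trans (Nat.mul_le_mul_right _ h3))
    _ = Module.finrank K V ^ 4 := by ring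

/-- finite-dimensional spaces: at most `k ^ 4` exceptional weights -/
theorem fin_space (K : IntermediateField ℚ ℝ) (hK : Transcendental K Real.pi) (V : Submodule K ℝ)
    (hV : Module.Finite K V) : ∃ E : Finset ℕ, E.card ≤ Module.finrank K V ^ 4 ∧ ∀ n : ℕ, n ∉ E →
      ∀ v ∈ V, Real.pi ^ (2 * n) * v ∈ V * V * V → v = 0 := by
  have hfin : {n : ℕ | ∃ v ∈ V, v ≠ 0 ∧ Real.pi ^ (2 * n) * v ∈ V * V * V}.Finite := by
    by_contra hcon
    have hinf : {n : ℕ | ∃ v ∈ V, v ≠ 0 ∧ Real.pi ^ (2 * n) * v ∈ V * V * V}.Infinite := hcon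
    obtain ⟨T, hT, hcard⟩ := hinf.exists_subset_card_eq (Module.finrank K V ^ 4 + 1)
    have h1 := fin_exc_card K hK V T (fun n hn => hT hn)
    omega
  refine ⟨hfin.toFinset, fin_exc_card K hK V _ (fun n hn => hfin.mem_toFinset.1 hn),
    fun n hE v hv h1 => ?_⟩
  by_contra hv0
  exact hE (hfin.mem_toFinset.2 ⟨v, hv, hv0, h1⟩)

/-- lines over the real algebraic numbers -/
theorem fin_line {r M n₀ : ℕ} (h : Ineq r M n₀) (x : ℝ) (n : ℕ) (hn : n₀ ≤ n)
    (hx : Transcendental ℚ (x / Real.pi ^ n)) :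
    n ^ (r - 1) ≤ M * {w : List ℕ | w ∈ Idx n ∧ w.length = r ∧
      ¬ ∃ a : ℝ, IsAlgebraic ℚ a ∧ mz w = a * x}.ncard := by
  have h := h (algebraicClosure ℚ ℝ) (Submodule.span (algebraicClosure ℚ ℝ) {x}) n hn (by
    intro v hv h
    rw [Submodule.span_mul_span, Submodule.span_mul_span, Set.singleton_mul_singleton,
      Set.singleton_mul_singleton, Submodule.mem_span_singleton] at h
    obtain ⟨a, rfl⟩ := Submodule.mem_span_singleton.1 hv
    obtain ⟨b, hb⟩ := h
    by_contra hne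
    have hx0 : x ≠ 0 := by
      rintro rfl
      exact hne (smul_zero _)
    have ha0 : (a : ℝ) ≠ 0 := by
      intro h0
      apply hne
      rw [Algebra.smul_def]
      change (a : ℝ) * x = 0
      rw [h0, zero_mul]
    have hpi : Real.pi ^ n ≠ 0 := pow_ne_zero _ Real.pi_ne_zero
    have h1 : (b : ℝ) * (x * x * x) = Real.pi ^ (2 * n) * ((a : ℝ) * x) := by
      rw [Algebra.smul_def, Algebra.smul_def] at hb
      exact hb
    have h2 : (b : ℝ) * (x / Real.pi ^ n) ^ 2 = a := by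
      have h3 : Real.pi ^ (2 * n) = Real.pi ^ n * Real.pi ^ n := by
        rw [two_mul, pow_add]
      rw [h3] at h1
      have h4 : (b : ℝ) * (x * x) = Real.pi ^ n * Real.pi ^ n * a := by
        have h5 : ((b : ℝ) * (x * x)) * x = (Real.pi ^ n * Real.pi ^ n * a) * x := by
          linarith
        exact mul_right_cancel₀ hx0 h5
      rw [div_pow, sq x, sq (Real.pi ^ n), ← mul_div_assoc, h4, mul_comm _ (a : ℝ),
        mul_div_assoc, div_self (mul_ne_zero hpi hpi), mul_one]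
    have hb0 : (b : ℝ) ≠ 0 := by
      intro h0
      rw [h0, zero_mul] at h2
      exact ha0 h2.symm
    have h3 : (x / Real.pi ^ n) ^ 2 = (b : ℝ)⁻¹ * a := by
      rw [← h2, inv_mul_cancel_left₀ hb0]
    apply hx
    refine IsAlgebraic.of_pow (n := 2) (by norm_num) ?_
    rw [h3]
    exact (mem_algebraicClosure_iff.1 b.2).inv.mul (mem_algebraicClosure_iff.1 a.2))
  have e : {w : List ℕ | w ∈ Idx n ∧ w.length = r ∧
      ¬ ∃ a : ℝ, IsAlgebraic ℚ a ∧ mz w = a * x} =
      OutK n r (Submodule.span (algebraicClosure ℚ ℝ) {x}) := by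
    ext w
    have h1 : (∃ a : ℝ, IsAlgebraic ℚ a ∧ mz w = a * x) ↔
        mz w ∈ Submodule.span (algebraicClosure ℚ ℝ) {x} := by
      rw [Submodule.mem_span_singleton]
      constructor
      · rintro ⟨a, ha, h2⟩
        refine ⟨⟨a, mem_algebraicClosure_iff.2 ha⟩, ?_⟩
        rw [h2, Algebra.smul_def]
        rfl
      · rintro ⟨a, h2⟩
        refine ⟨a, mem_algebraicClosure_iff.1 a.2, ?_⟩
        rw [← h2, Algebra.smul_def]
        rfl
    change (w ∈ Idx n ∧ w.length = r ∧ ¬ ∃ a : ℝ, IsAlgebraic ℚ a ∧ mz w = a * x) ↔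
      (w ∈ Idx n ∧ w.length = r ∧ mz w ∉ Submodule.span (algebraicClosure ℚ ℝ) {x})
    rw [h1]
  rw [e]
  exact h

/-- the case `x = 1` -/
theorem fin_one {r M n₀ : ℕ} (h : Ineq r M n₀) (hpi : Transcendental ℚ Real.pi) (n : ℕ)
    (hn : n₀ ≤ n) (hn1 : 1 ≤ n) :
    n ^ (r - 1) ≤ M * {w : List ℕ | w ∈ Idx n ∧ w.length = r ∧ Transcendental ℚ (mz w)}.ncard := by
  have h := fin_line h 1 n hn (by
    intro h1
    apply hpi
    refine IsAlgebraic.of_pow (n := n) (by omega) ?_
    have h2 := h1.inv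
    rwa [one_div, inv_inv] at h2)
  have e : {w : List ℕ | w ∈ Idx n ∧ w.length = r ∧ Transcendental ℚ (mz w)} =
      {w : List ℕ | w ∈ Idx n ∧ w.length = r ∧ ¬ ∃ a : ℝ, IsAlgebraic ℚ a ∧ mz w = a * 1} := by
    ext w
    constructor
    · rintro ⟨h1, h2, h3⟩
      refine ⟨h1, h2, ?_⟩
      rintro ⟨a, ha, h4⟩
      apply h3
      rw [h4, mul_one]
      exact ha
    · rintro ⟨h1, h2, h3⟩
      refine ⟨h1, h2, fun h4 => h3 ⟨_, h4, (mul_one _).symm⟩⟩
  rw [e]
  exact h

end Pool.Agent.MZG
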