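import Mathlib
import Pool.Agent.MZG.FIN

set_option autoImplicit false

/-!
# MZG: polynomials in `π` of degree `< 2 n / 3`
-/

namespace Pool.Agent.MZG

open Pool.Agent.Helper21 (mzv H zl Adm)
open Pool.Agent.MZA

/-- the polynomials in `π` of degree at most `a` with coefficients in `K` -/
noncomputable def PS (K : IntermediateField ℚ ℝ) (a : ℕ) : Submodule K ℝ where
  carrier := {v | ∃ p : Polynomial K, p.natDegree ≤ a ∧ Polynomial.aeval Real.pi p = v}
  add_mem' := by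
    rintro _ _ ⟨p, hp, rfl⟩ ⟨q, hq, rfl⟩
    exact ⟨p + q, (Polynomial.natDegree_add_le p q).trans (max_le hp hq), map_add _ _ _⟩
  zero_mem' := ⟨0, by simp, map_zero _⟩
  smul_mem' := by
    rintro c _ ⟨p, hp, rfl⟩
    exact ⟨c • p, (Polynomial.natDegree_smul_le c p).trans hp, map_smul _ _ _⟩

theorem mem_PS {K : IntermediateField ℚ ℝ} {a : ℕ} {v : ℝ} :
    v ∈ PS K a ↔ ∃ p : Polynomial K, p.natDegree ≤ a ∧ Polynomial.aeval Real.pi p = v := Iff.rfl

theorem PS_mul (K : IntermediateField ℚ ℝ) (a b : ℕ) : PS K a * PS K b ≤ PS K (a + b) := by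
  rw [Submodule.mul_le]
  rintro _ ⟨p, hp, rfl⟩ _ ⟨q, hq, rfl⟩
  exact ⟨p * q, Polynomial.natDegree_mul_le.trans (add_le_add hp hq), map_mul _ _ _⟩

/-- no exceptional weights for the polynomials in `π` of degree `< 2 n / 3` -/
theorem fin_poly {r M n₀ : ℕ} (h : Ineq r M n₀) (K : IntermediateField ℚ ℝ)
    (hK : Transcendental K Real.pi) (n : ℕ) (hn : n₀ ≤ n) (hn1 : 1 ≤ n) :
    n ^ (r - 1) ≤ M * {w : List ℕ | w ∈ Idx n ∧ w.length = r ∧
      ¬ ∃ p : Polynomial K, 3 * p.natDegree < 2 * n ∧ mz w = Polynomial.aeval Real.pi p}.ncard := by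
  have h0 := h K (PS K ((2 * n - 1) / 3)) n hn (by
    rintro _ ⟨p, hp, rfl⟩ h1
    have h2 : Real.pi ^ (2 * n) * Polynomial.aeval Real.pi p ∈ PS K (2 * n - 1) := by
      have h3 : PS K ((2 * n - 1) / 3) * PS K ((2 * n - 1) / 3) * PS K ((2 * n - 1) / 3) ≤
          PS K ((2 * n - 1) / 3 + (2 * n - 1) / 3 + (2 * n - 1) / 3) :=
        (mul_le_mul' (PS_mul K _ _) le_rfl).trans (PS_mul K _ _)
      obtain ⟨q, hq, hq2⟩ := h3 h1
      exact ⟨q, hq.trans (by omega), hq2⟩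
    obtain ⟨q, hq, hq2⟩ := h2
    have h4 : Polynomial.aeval Real.pi q =
        Polynomial.aeval Real.pi (Polynomial.X ^ (2 * n) * p) := by
      rw [hq2, map_mul, map_pow, Polynomial.aeval_X]
    have h5 : q = Polynomial.X ^ (2 * n) * p := (transcendental_iff_injective.1 hK) h4
    by_contra hne
    have hp0 : p ≠ 0 := by
      rintro rfl
      exact hne (map_zero _)
    rw [h5, Polynomial.natDegree_mul (pow_ne_zero _ Polynomial.X_ne_zero) hp0,
      Polynomial.natDegree_X_pow] at hq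
    omega)
  have e : {w : List ℕ | w ∈ Idx n ∧ w.length = r ∧
      ¬ ∃ p : Polynomial K, 3 * p.natDegree < 2 * n ∧ mz w = Polynomial.aeval Real.pi p} =
      OutK n r (PS K ((2 * n - 1) / 3)) := by
    ext w
    have h1 : (∃ p : Polynomial K, 3 * p.natDegree < 2 * n ∧ mz w = Polynomial.aeval Real.pi p) ↔
        mz w ∈ PS K ((2 * n - 1) / 3) := by
      rw [mem_PS]
      constructor
      · rintro ⟨p, hp, hw⟩
        exact ⟨p, by omega, hw.symm⟩
      · rintro ⟨p, hp, hw⟩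
        exact ⟨p, by omega, hw.symm⟩
    constructor
    · rintro ⟨g1, g2, g3⟩
      exact ⟨g1, g2, fun g4 => g3 (h1.2 g4)⟩
    · rintro ⟨g1, g2, g3⟩
      exact ⟨g1, g2, fun g4 => g3 (h1.1 g4)⟩
  rw [e]
  exact h0

end Pool.Agent.MZG
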