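import Pool.Agent.MZG.Defs

/-!
# MZG: the sums over injective tuples: module J0 and the splitting (helper16)
-/

set_option autoImplicit false

open Finset

namespace Pool.Agent.MZG

open Pool.Agent.Helper21 (mzv H zl Adm tendsto_H H_cons H_nil)

namespace J2A

/-- `(1 / (m + 1)) ^ a` -/
noncomputable def q (a m : ℕ) : ℝ := (1 / ((m : ℝ) + 1)) ^ a

/-- `∏ i, (1 / (n i + 1)) ^ x i` -/
noncomputable def w {k : ℕ} (x n : Fin k → ℕ) : ℝ := ∏ i, q (x i) (n i)

open Classical in
/-- the term of `J x`: `w x n` for injective `n` -/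
noncomputable def jt {k : ℕ} (x n : Fin k → ℕ) : ℝ := if Function.Injective n then w x n else 0

theorem q_pos (a m : ℕ) : 0 < q a m := by
  unfold q
  positivity

theorem q_nonneg (a m : ℕ) : 0 ≤ q a m := (q_pos a m).le

theorem q_add (a b m : ℕ) : q (a + b) m = q a m * q b m := by
  unfold q
  rw [pow_add]

theorem q_summable {a : ℕ} (ha : 2 ≤ a) : Summable (q a) := by
  have h := (summable_nat_add_iff 1).2 (Real.summable_one_div_nat_pow.2 (show 1 < a by omega))
  refine h.congr fun m => ?_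
  unfold q
  rw [one_div_pow]
  push_cast
  rfl

theorem w_pos {k : ℕ} (x n : Fin k → ℕ) : 0 < w x n := prod_pos fun _ _ => q_pos _ _

theorem w_cons {k : ℕ} (c : ℕ) (x : Fin k → ℕ) (m : ℕ) (n : Fin k → ℕ) :
    w (Fin.cons c x : Fin (k + 1) → ℕ) (Fin.cons m n : Fin (k + 1) → ℕ) = q c m * w x n := by
  unfold w
  rw [Fin.prod_univ_succ]
  simp only [Fin.cons_zero, Fin.cons_succ]

/-- the equivalence -/
def ce (k : ℕ) : ℕ × (Fin k → ℕ) ≃ (Fin (k + 1) → ℕ) := Fin.consEquiv (fun _ : Fin (k + 1) => ℕ)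

theorem ce_apply {k : ℕ} (p : ℕ × (Fin k → ℕ)) : ce k p = (Fin.cons p.1 p.2 : Fin (k + 1) → ℕ) := rfl

theorem cons_eta {k : ℕ} (x : Fin (k + 1) → ℕ) :
    x = (Fin.cons (x 0) (fun i => x i.succ) : Fin (k + 1) → ℕ) := by
  funext i
  refine Fin.cases ?_ (fun i => ?_) i
  · rw [Fin.cons_zero]
  · rw [Fin.cons_succ]

theorem w_summable : ∀ {k : ℕ} (x : Fin k → ℕ), (∀ i, 2 ≤ x i) → Summable (w x)
  | 0, x, _ => Summable.of_finite
  | k + 1, x, hx => by
    have h1 := w_summable (fun i : Fin k => x i.succ) (fun i => hx i.succ)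
    have h2 : Summable (fun p : ℕ × (Fin k → ℕ) => q (x 0) p.1 * w (fun i : Fin k => x i.succ) p.2) :=
      (q_summable (hx 0)).mul_of_nonneg h1 (fun m => q_nonneg _ m) (fun n => (w_pos _ n).le)
    have h3 : Summable (w x ∘ ce k) := by
      refine h2.congr fun p => ?_
      rw [Function.comp_apply, ce_apply, cons_eta x, w_cons]
      rfl
    exact (Equiv.summable_iff (ce k)).1 h3

theorem jt_nonneg {k : ℕ} (x n : Fin k → ℕ) : 0 ≤ jt x n := by
  unfold jt
  split_ifs
  · exact (w_pos x n).le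
  · exact le_rfl

theorem jt_le {k : ℕ} (x n : Fin k → ℕ) : jt x n ≤ w x n := by
  unfold jt
  split_ifs
  · exact le_rfl
  · exact (w_pos x n).le

theorem jt_summable {k : ℕ} (x : Fin k → ℕ) (hx : ∀ i, 2 ≤ x i) : Summable (jt x) :=
  Summable.of_nonneg_of_le (jt_nonneg x) (jt_le x) (w_summable x hx)

/-- `J` in terms of `jt` -/
theorem J_eq {k : ℕ} (x : Fin k → ℕ) : J x = ∑' n : Fin k → ℕ, jt x n := by
  classical
  have h1 : ∑' n : Fin k → ℕ, jt x n =
      ∑' n : {n : Fin k → ℕ // Function.Injective n}, w x n.1 := by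
    refine Eq.trans ?_ (tsum_subtype {n : Fin k → ℕ | Function.Injective n} (w x)).symm
    refine tsum_congr fun n => ?_
    unfold jt
    by_cases h : Function.Injective n
    · rw [if_pos h, Set.indicator_of_mem (show n ∈ {n : Fin k → ℕ | Function.Injective n} from h)]
    · rw [if_neg h, Set.indicator_of_notMem (show n ∉ {n : Fin k → ℕ | Function.Injective n} from h)]
  rw [h1]
  exact (Equiv.tsum_eq (Equiv.subtypeInjectiveEquivEmbedding (Fin k) ℕ)
    (fun n : Fin k ↪ ℕ => w x n)).symm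

/-- splitting off the first variable -/
theorem split {k : ℕ} (F : (Fin (k + 1) → ℕ) → ℝ) (hF : Summable F) :
    ∑' N, F N = ∑' n : Fin k → ℕ, ∑' m : ℕ, F (Fin.cons m n : Fin (k + 1) → ℕ) := by
  have h1 : Summable (fun p : (Fin k → ℕ) × ℕ => F (ce k (p.2, p.1))) := by
    have h2 : Summable (F ∘ ce k) := (Equiv.summable_iff (ce k)).2 hF
    exact (Equiv.summable_iff (Equiv.prodComm (Fin k → ℕ) ℕ)).2 h2
  have h3 : ∑' N, F N = ∑' p : (Fin k → ℕ) × ℕ, F (ce k (p.2, p.1)) := by
    rw [← Equiv.tsum_eq (ce k) F]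
    exact (Equiv.tsum_eq (Equiv.prodComm (Fin k → ℕ) ℕ) (fun p => F (ce k p))).symm
  rw [h3, h1.tsum_prod]
  rfl

/-- one more variable -/
theorem inner {k : ℕ} (c : ℕ) (hc : 2 ≤ c) (n : Fin k → ℕ) (hn : Function.Injective n) :
    ∑' m : ℕ, (if ∀ i, n i ≠ m then q c m else 0) = ∑' m, q c m - ∑ i, q c (n i) := by
  classical
  have h0 := q_summable hc
  have h1 : Summable (fun m : ℕ => if ∀ i, n i ≠ m then q c m else 0) :=
    Summable.of_nonneg_of_le (fun m => by split_ifs; exacts [q_nonneg _ _, le_rfl])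
      (fun m => by split_ifs; exacts [le_rfl, q_nonneg _ _]) h0
  have h2 : ∑' m, q c m - ∑' m : ℕ, (if ∀ i, n i ≠ m then q c m else 0) =
      ∑' m : ℕ, (if m ∈ univ.image n then q c m else 0) := by
    rw [← h0.tsum_sub h1]
    refine tsum_congr fun m => ?_
    by_cases h : ∀ i, n i ≠ m
    · rw [if_pos h, if_neg (by
        rw [mem_image]
        rintro ⟨i, -, hi⟩
        exact h i hi), sub_self]
    · rw [if_neg h, if_pos (by
        push Not at h
        obtain ⟨i, hi⟩ := h
        exact mem_image.2 ⟨i, mem_univ _, hi⟩), sub_zero]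
  have h3 : ∑' m : ℕ, (if m ∈ univ.image n then q c m else 0) = ∑ i, q c (n i) := by
    rw [tsum_eq_sum (s := univ.image n) (fun m hm => if_neg hm)]
    rw [sum_congr rfl fun m hm => if_pos hm, sum_image (fun a _ b _ h => hn h)]
  linarith

theorem w_update {k : ℕ} (x n : Fin k → ℕ) (i : Fin k) (c : ℕ) :
    w (Function.update x i (x i + c)) n = w x n * q c (n i) := by
  unfold w
  rw [← mul_prod_erase univ _ (mem_univ i), ← mul_prod_erase univ (fun j => q (x j) (n j))
    (mem_univ i), Function.update_self, q_add]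
  rw [prod_congr rfl fun j hj => by rw [Function.update_of_ne (ne_of_mem_erase hj)]]
  ring

theorem inner2 {k : ℕ} (c : ℕ) (x : Fin k → ℕ) (hc : 2 ≤ c) (n : Fin k → ℕ) :
    ∑' m : ℕ, jt (Fin.cons c x : Fin (k + 1) → ℕ) (Fin.cons m n : Fin (k + 1) → ℕ) =
      jt x n * ∑' m, q c m - ∑ i, jt (Function.update x i (x i + c)) n := by
  classical
  by_cases hn : Function.Injective n
  · have h1 : ∀ m : ℕ, jt (Fin.cons c x : Fin (k + 1) → ℕ) (Fin.cons m n : Fin (k + 1) → ℕ) =
        w x n * (if ∀ i, n i ≠ m then q c m else 0) := by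
      intro m
      unfold jt
      rw [w_cons]
      by_cases h : ∀ i, n i ≠ m
      · rw [if_pos h, if_pos]
        · ring
        · rw [Fin.cons_injective_iff]
          exact ⟨by rintro ⟨i, hi⟩; exact h i hi, hn⟩
      · rw [if_neg h, if_neg, mul_zero]
        rw [Fin.cons_injective_iff]
        rintro ⟨h2, -⟩
        apply h
        intro i hi
        exact h2 ⟨i, hi⟩
    rw [tsum_congr h1, tsum_mul_left, inner c hc n hn]
    have h2 : jt x n = w x n := if_pos hn
    have h3 : ∀ i, jt (Function.update x i (x i + c)) n = w x n * q c (n i) := fun i => by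
      rw [← w_update]
      exact if_pos hn
    rw [h2, sum_congr rfl fun i _ => h3 i, ← mul_sum]
    ring
  · have h1 : ∀ m : ℕ, jt (Fin.cons c x : Fin (k + 1) → ℕ) (Fin.cons m n : Fin (k + 1) → ℕ) = 0 := by
      intro m
      unfold jt
      rw [if_neg]
      rw [Fin.cons_injective_iff]
      exact fun h => hn h.2
    have h2 : ∀ y : Fin k → ℕ, jt y n = 0 := fun y => if_neg hn
    rw [tsum_congr h1, tsum_zero, h2, zero_mul, sum_congr rfl fun i _ => h2 _, sum_const_zero,
      sub_zero]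

theorem z_eq (a : ℕ) (ha : 2 ≤ a) : z a = ∑' m, q a m := by
  have h1 : ∀ b ∈ [a], 1 ≤ b := by
    intro b hb
    rw [List.mem_singleton] at hb
    omega
  have h2 : ∀ b t, [a] = b :: t → 2 ≤ b := by
    intro b t h
    have := (List.cons.inj h).1
    omega
  have h3 := tendsto_H [a] h1 h2
  have h4 := (q_summable ha).hasSum.tendsto_sum_nat
  have h5 : (fun n => ∑ m ∈ range n, q a m) = H [a] := by
    funext n
    rw [H_cons]
    refine sum_congr rfl fun m _ => ?_
    rw [H_nil, mul_one]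
    unfold q
    push_cast
    rfl
  rw [h5] at h4
  exact tendsto_nhds_unique h3 h4

end J2A

open J2A

/-- **MODULE J0** -/
theorem thm_J0 : St_J0 := by
  intro k x hx
  have h : Summable ((w x) ∘ fun n : Fin k ↪ ℕ => (n : Fin k → ℕ)) :=
    (w_summable x hx).comp_injective DFunLike.coe_injective
  exact h

/-- **MODULE J0** -/
theorem J0 : St_J0 := thm_J0

end Pool.Agent.MZG
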