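import Pool.Agent.MZG.J0

/-!
# MZG: `∑ S, (-M) ^ |S| J (x + 2 * 1_S)` as one sum (helper16)
-/

set_option autoImplicit false

open Finset

namespace Pool.Agent.MZG

open J2A

namespace J2A

theorem q_eq (a m : ℕ) : q a m = (1 / ((m : ℝ) + 1)) ^ a := rfl

theorem w_sh {k : ℕ} (x n : Fin k → ℕ) (S : Finset (Fin k)) :
    w (sh x S) n = w x n * ∏ i ∈ S, q 2 (n i) := by
  classical
  unfold w
  have h : ∀ i : Fin k, q (sh x S i) (n i) = q (x i) (n i) * (if i ∈ S then q 2 (n i) else 1) := by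
    intro i
    unfold sh
    split_ifs
    · rw [q_add]
    · rw [add_zero, mul_one]
  rw [prod_congr rfl fun i _ => h i, prod_mul_distrib, prod_ite_mem, univ_inter]

theorem sum_w_sh {k : ℕ} (x n : Fin k → ℕ) (M : ℝ) :
    ∑ S : Finset (Fin k), (-M) ^ S.card * w (sh x S) n = w x n * ∏ i, (1 - M * q 2 (n i)) := by
  classical
  have h2 : ∀ S : Finset (Fin k), (-M) ^ S.card * w (sh x S) n =
      w x n * (∏ i ∈ S, (-M * q 2 (n i))) := by
    intro S
    rw [w_sh, prod_mul_distrib, prod_const]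
    ring
  rw [sum_congr rfl fun S _ => h2 S, ← mul_sum]
  congr 1
  have h3 := prod_add (fun i => -M * q 2 (n i)) (fun _ => (1 : ℝ)) (univ : Finset (Fin k))
  rw [powerset_univ] at h3
  simp only [prod_const_one, mul_one] at h3
  rw [← h3]
  refine prod_congr rfl fun i _ => ?_
  ring

theorem w_sh_summable {k : ℕ} (x : Fin k → ℕ) (hx : ∀ i, 2 ≤ x i) (S : Finset (Fin k)) :
    Summable (fun n : Fin k ↪ ℕ => w (sh x S) n) := by
  have hup : ∀ i, 2 ≤ sh x S i := by
    intro i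
    have := hx i
    unfold sh
    omega
  exact (w_summable _ hup).comp_injective (i := fun n : Fin k ↪ ℕ => (n : Fin k → ℕ))
    DFunLike.coe_injective

end J2A

/-- **the polynomial** over the embeddings -/
theorem J_poly {k : ℕ} (x : Fin k → ℕ) (hx : ∀ i, 2 ≤ x i) (M : ℝ) :
    ∑ S : Finset (Fin k), (-M) ^ S.card * J (sh x S) =
      ∑' n : Fin k ↪ ℕ, ∏ i, ((1 / ((n i : ℝ) + 1)) ^ (x i) * (1 - M / ((n i : ℝ) + 1) ^ 2)) := by
  classical
  have h1 : ∀ S : Finset (Fin k), (-M) ^ S.card * J (sh x S) =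
      ∑' n : Fin k ↪ ℕ, (-M) ^ S.card * w (sh x S) n := fun S => by
    rw [tsum_mul_left]
    rfl
  rw [sum_congr rfl fun S _ => h1 S,
    ← Summable.tsum_finsetSum fun S _ => (w_sh_summable x hx S).mul_left _]
  refine tsum_congr fun n => ?_
  rw [sum_w_sh, w, ← prod_mul_distrib]
  refine prod_congr rfl fun i _ => ?_
  rw [q_eq, q_eq, one_div_pow, one_div_pow, mul_one_div]

theorem J_poly_summable {k : ℕ} (x : Fin k → ℕ) (hx : ∀ i, 2 ≤ x i) (M : ℝ) :
    Summable (fun n : Fin k ↪ ℕ =>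
      ∏ i, ((1 / ((n i : ℝ) + 1)) ^ (x i) * (1 - M / ((n i : ℝ) + 1) ^ 2))) := by
  classical
  have h : Summable (fun n : Fin k ↪ ℕ => ∑ S : Finset (Fin k), (-M) ^ S.card * w (sh x S) n) :=
    summable_sum fun S _ => (w_sh_summable x hx S).mul_left _
  refine h.congr fun n => ?_
  rw [sum_w_sh, w, ← prod_mul_distrib]
  refine prod_congr rfl fun i _ => ?_
  rw [q_eq, q_eq, one_div_pow, one_div_pow, mul_one_div]

/-- `J` is positive -/
theorem J_pos {k : ℕ} (x : Fin k → ℕ) (hx : ∀ i, 2 ≤ x i) : 0 < J x := by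
  have hs : Summable (fun n : Fin k ↪ ℕ => ∏ i, (1 / ((n i : ℝ) + 1)) ^ (x i)) := J0 k x hx
  exact hs.tsum_pos (fun n => (w_pos x n).le) (Fin.valEmbedding) (w_pos x _)

end Pool.Agent.MZG
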