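import Pool.Agent.MZG.Defs

set_option autoImplicit false

/-!
# Odd weights: the assembly
-/

namespace Pool.Agent.MZG

open Pool.Agent.Helper21 (mzv H zl Adm)
open Pool.Agent.MZA

namespace ODD64

/-- sums of sublists of a list given by a function -/
theorem sublist_sum {s : ℕ} (g : Fin s → ℕ) (l : List ℕ) (hl : l.Sublist (List.ofFn g)) :
    ∃ S : Finset (Fin s), l.sum = ∑ i ∈ S, g i := by
  induction s generalizing l with
  | zero =>
    rw [List.ofFn_zero, List.sublist_nil] at hl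
    exact ⟨∅, by simp [hl]⟩
  | succ s ih =>
    rw [List.ofFn_succ] at hl
    cases hl with
    | cons _ h =>
      obtain ⟨S, hS⟩ := ih (fun i => g i.succ) l h
      exact ⟨S.map (Fin.succEmb s), by rw [Finset.sum_map]; exact hS⟩
    | cons_cons _ h =>
      rename_i l1
      obtain ⟨S, hS⟩ := ih (fun i => g i.succ) l1 h
      refine ⟨Finset.cons 0 (S.map (Fin.succEmb s)) ?_, ?_⟩
      · simp
      · rw [Finset.sum_cons, Finset.sum_map, List.sum_cons, hS]
        rfl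

/-- the two hypotheses of `St_F` on one map -/
def GM (n k N : ℕ) (φ : (Fin k → ℕ) → (Fin k → ℕ)) : Prop :=
  (∀ p : Fin k → ℕ, (∀ i, 1 ≤ p i ∧ p i ≤ N) → (∀ i, 2 ≤ φ p i) ∧ ∑ i, φ p i + 2 ≤ n) ∧
  ∀ p p' : Fin k → ℕ, (∀ i, 1 ≤ p i ∧ p i ≤ N) → (∀ i, 1 ≤ p' i ∧ p' i ≤ N) → φ p = φ p' → p = p'

/-- the symmetric sum of a clean word is in `V` -/
theorem clean_J (hJ1 : St_J1) (V : Submodule ℚ ℝ) (n k : ℕ) (x : Fin k → ℕ) (hx : ∀ i, 2 ≤ x i)
    (hn : ∑ i, x i + 2 ≤ n) (hc : Clean V n x) :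
    J (Fin.cons (n - ∑ i, x i) x : Fin (k + 1) → ℕ) ∈ V := by
  rw [hJ1 (k + 1) _ (by
    intro i
    refine Fin.cases ?_ (fun j => ?_) i
    · simp only [Fin.cons_zero]
      omega
    · simp only [Fin.cons_succ]
      exact hx j)]
  exact V.sum_mem fun σ _ => hc σ

theorem clean_JL (hJ1 : St_J1) (hP : St_PERM) (V : Submodule ℚ ℝ) (n k : ℕ) (x : Fin k → ℕ)
    (hx : ∀ i, 2 ≤ x i) (hn : ∑ i, x i + 2 ≤ n) (hc : Clean V n x) (L : List ℕ)
    (hL : L.Perm ((n - ∑ i, x i) :: List.ofFn x)) : JL L ∈ V := by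
  rw [hP.1 L _ hL]
  have h1 : ((n - ∑ i, x i) :: List.ofFn x) =
      List.ofFn (Fin.cons (n - ∑ i, x i) x : Fin (k + 1) → ℕ) := by
    rw [List.ofFn_succ]
    simp
  rw [h1, hP.2]
  exact clean_J hJ1 V n k x hx hn hc

/-- the sum of a row -/
theorem row_sum {k : ℕ} (C : ℕ) (b : Fin (k + 1) → ℕ) (i : ℕ) (hb : ∀ m, C * i ≤ b m) :
    ∑ m, row C b i m = ∑ m, b m := by
  rw [Fin.sum_univ_succ, Fin.sum_univ_succ]
  have h1 : ∑ m : Fin k, row C b i m.succ + k * (C * i) = ∑ m : Fin k, b m.succ := by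
    have h2 : ∑ m : Fin k, (row C b i m.succ + C * i) = ∑ m : Fin k, b m.succ := by
      refine Finset.sum_congr rfl fun m _ => ?_
      unfold row
      rw [if_neg (Fin.succ_ne_zero m)]
      exact Nat.sub_add_cancel (hb _)
    rw [← h2, Finset.sum_add_distrib]
    simp
  have h3 : row C b i 0 = b 0 + k * C * i := by
    unfold row
    rw [if_pos rfl]
  rw [h3, ← h1]
  ring

theorem row_inj {k : ℕ} (C : ℕ) (b b' : Fin (k + 1) → ℕ) (i : ℕ) (hb : ∀ m, C * i ≤ b m)
    (hb' : ∀ m, C * i ≤ b' m) (h : row C b i = row C b' i) : b = b' := by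
  funext m
  have h1 := congrFun h m
  unfold row at h1
  have h2 := hb m
  have h3 := hb' m
  split_ifs at h1 with h4
  · omega
  · omega

theorem sh_sum {k : ℕ} (x : Fin k → ℕ) (S : Finset (Fin k)) :
    ∑ m, sh x S m = ∑ m, x m + 2 * S.card := by
  unfold sh
  rw [Finset.sum_add_distrib]
  simp
  ring

theorem sh_inj {k : ℕ} (x x' : Fin k → ℕ) (S : Finset (Fin k)) (h : sh x S = sh x' S) : x = x' := by
  funext m
  have h1 := congrFun h m
  unfold sh at h1
  omega

/-- the entries -/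
def ent (s H : ℕ) (ε : Bool) (p : Fin (s + 2) → ℕ) (i : Fin (s + 2)) : ℕ :=
  H + 2 * p i + if ε = true ∧ s ≤ (i : ℕ) then 1 else 0

/-- the sums -/
def uu (s n H : ℕ) (σ ε : Bool) (R : Finset (Fin (s + 2))) (p : Fin (s + 2) → ℕ) : ℕ :=
  if σ = true then n - ∑ i ∈ R, ent s H ε p i else ∑ i ∈ R, ent s H ε p i

/-- the index type of the maps -/
abbrev TT' (s : ℕ) : Type :=
  Bool ⊕ (Bool × Bool × Finset (Fin (s + 2)) × Fin (s + 3) × Finset (Fin (s + 2)))

open Classical in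
/-- the maps -/
noncomputable def phi (s n H h C : ℕ) (t : TT' s) (p : Fin (s + 2) → ℕ) : Fin (s + 2) → ℕ :=
  match t with
  | Sum.inl ε => ent s H ε p
  | Sum.inr (σ, ε, R, i, S) =>
    if hR : R.Nonempty then sh (row C (base h (R.min' hR) (uu s n H σ ε R p) p) i) S
    else ent s H false p

/-- the numbers -/
structure Num (s n N h H C G : ℕ) : Prop where
  hh : h = 2 * N
  hH : H = 4 * (s + 2) ^ 2 * h
  h1 : 1 ≤ N
  hn : (s + 2) * (H + h + 1) + H + 2 * (s + 2) + 4 ≤ n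
  hG : G + C * (s + 2) + 2 ≤ h

section

variable {s n N h H C G : ℕ}

theorem ent_bounds (hN : Num s n N h H C G) (ε : Bool) (p : Fin (s + 2) → ℕ)
    (hp : ∀ i, 1 ≤ p i ∧ p i ≤ N) (i : Fin (s + 2)) :
    H ≤ ent s H ε p i ∧ ent s H ε p i ≤ H + h + 1 := by
  have h1 := (hp i).2
  have h2 := hN.hh
  unfold ent
  split_ifs <;> constructor <;> omega

theorem sum_bounds (hN : Num s n N h H C G) (ε : Bool) (R : Finset (Fin (s + 2)))
    (p : Fin (s + 2) → ℕ) (hp : ∀ i, 1 ≤ p i ∧ p i ≤ N) :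
    ∑ i ∈ R, ent s H ε p i + H + 2 * (s + 2) + 4 ≤ n ∧
      (R.Nonempty → H ≤ ∑ i ∈ R, ent s H ε p i) := by
  constructor
  · have h1 : ∑ i ∈ R, ent s H ε p i ≤ ∑ i : Fin (s + 2), ent s H ε p i :=
      Finset.sum_le_univ_sum_of_nonneg (fun i => Nat.zero_le _)
    have h2 : ∑ i : Fin (s + 2), ent s H ε p i ≤ ∑ _i : Fin (s + 2), (H + h + 1) :=
      Finset.sum_le_sum fun i _ => (ent_bounds hN ε p hp i).2
    rw [Finset.sum_const, Finset.card_univ, Fintype.card_fin, smul_eq_mul] at h2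
    have := hN.hn
    omega
  · rintro ⟨i, hi⟩
    exact (ent_bounds hN ε p hp i).1.trans
      (Finset.single_le_sum (f := fun i => ent s H ε p i) (fun i _ => Nat.zero_le _) hi)

theorem H_big (hN : Num s n N h H C G) : 2 * (s + 2) + 4 ≤ H := by
  have h1 := hN.h1
  have h2 := hN.hh
  rw [hN.hH]
  have h3 : 1 ≤ h := by omega
  nlinarith

theorem u_bounds (hN : Num s n N h H C G) (σ ε : Bool) (R : Finset (Fin (s + 2))) (hR : R.Nonempty)
    (p : Fin (s + 2) → ℕ) (hp : ∀ i, 1 ≤ p i ∧ p i ≤ N) :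
    H ≤ uu s n H σ ε R p ∧ uu s n H σ ε R p + 2 * (s + 2) + 4 ≤ n := by
  obtain ⟨h1, h2⟩ := sum_bounds hN ε R p hp
  have h3 := h2 hR
  have h4 := H_big hN
  unfold uu
  split_ifs <;> constructor <;> omega

theorem base_facts (hB : St_BASE) (hN : Num s n N h H C G) (σ ε : Bool) (R : Finset (Fin (s + 2)))
    (hR : R.Nonempty) (p : Fin (s + 2) → ℕ) (hp : ∀ i, 1 ≤ p i ∧ p i ≤ N)
    (he : Even (uu s n H σ ε R p)) :
    ∑ m, base h (R.min' hR) (uu s n H σ ε R p) p m = uu s n H σ ε R p ∧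
      (∀ m, Even (base h (R.min' hR) (uu s n H σ ε R p) p m)) ∧
      (∀ m, G + C * (s + 2) + 2 ≤ base h (R.min' hR) (uu s n H σ ε R p) p m) ∧
      ∀ m m' : Fin (s + 2), m < m' → base h (R.min' hR) (uu s n H σ ε R p) p m' +
        (G + C * (s + 2) + 2) ≤ base h (R.min' hR) (uu s n H σ ε R p) p m := by
  refine hB (s + 1) (G + C * (s + 2) + 2) h _ (R.min' hR) p (by omega) hN.hG (fun i => ?_) he ?_
  · have := (hp i).2
    have := hN.hh
    omega
  · have h1 := (u_bounds hN σ ε R hR p hp).1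
    have e : 4 * (s + 1 + 1) ^ 2 * h = H := hN.hH.symm
    rw [e]
    exact h1

theorem ent_GM (hN : Num s n N h H C G) (ε : Bool) : GM n (s + 2) N (ent s H ε) := by
  refine ⟨fun p hp => ⟨fun i => ?_, ?_⟩, fun p p' _ _ he => ?_⟩
  · have h1 := (ent_bounds hN ε p hp i).1
    have h2 := H_big hN
    omega
  · have h1 := (sum_bounds hN ε Finset.univ p hp).1
    omega
  · funext i
    have h1 := congrFun he i
    unfold ent at h1
    omega

theorem phi_GM (hB : St_BASE) (hN : Num s n N h H C G) (σ ε : Bool) (R : Finset (Fin (s + 2)))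
    (i : Fin (s + 3)) (S : Finset (Fin (s + 2))) (hR : R.Nonempty)
    (he : ∀ p : Fin (s + 2) → ℕ, (∀ i, 1 ≤ p i ∧ p i ≤ N) → Even (uu s n H σ ε R p)) :
    GM n (s + 2) N (phi s n H h C (Sum.inr (σ, ε, R, i, S))) := by
  have hphi : phi s n H h C (Sum.inr (σ, ε, R, i, S)) = fun p =>
      sh (row C (base h (R.min' hR) (uu s n H σ ε R p) p) i) S := by
    funext p
    simp only [phi, dif_pos hR]
  rw [hphi]
  have hCi : C * (i : ℕ) ≤ C * (s + 2) := Nat.mul_le_mul_left _ (by omega)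
  refine ⟨fun p hp => ⟨fun m => ?_, ?_⟩, fun p p' hp hp' heq => ?_⟩
  · obtain ⟨-, -, h3, -⟩ := base_facts hB hN σ ε R hR p hp (he p hp)
    have h4 := h3 m
    show 2 ≤ sh (row C (base h (R.min' hR) (uu s n H σ ε R p) p) i) S m
    unfold sh row
    split_ifs <;> omega
  · obtain ⟨h1, -, h3, -⟩ := base_facts hB hN σ ε R hR p hp (he p hp)
    rw [sh_sum, row_sum C _ i (fun m => by have := h3 m; omega), h1]
    have h4 := (u_bounds hN σ ε R hR p hp).2
    have h5 : S.card ≤ s + 2 := by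
      have := Finset.card_le_univ S
      rwa [Fintype.card_fin] at this
    omega
  · obtain ⟨a1, -, a3, -⟩ := base_facts hB hN σ ε R hR p hp (he p hp)
    obtain ⟨b1, -, b3, -⟩ := base_facts hB hN σ ε R hR p' hp' (he p' hp')
    have h1 := sh_inj _ _ _ heq
    have h2 := row_inj C _ _ _ (fun m => by have := a3 m; omega) (fun m => by have := b3 m; omega) h1
    have h3 : ∀ m : Fin (s + 1), p ((R.min' hR).succAbove m) = p' ((R.min' hR).succAbove m) := by
      intro m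
      have h4 := congrFun h2 m.succ
      simp only [base, Fin.cons_succ] at h4
      omega
    have h5 : uu s n H σ ε R p = uu s n H σ ε R p' := by
      rw [← a1, ← b1, h2]
    have h6 : ∑ i ∈ R, ent s H ε p i = ∑ i ∈ R, ent s H ε p' i := by
      have c1 := (sum_bounds hN ε R p hp).1
      have c2 := (sum_bounds hN ε R p' hp').1
      unfold uu at h5
      split_ifs at h5 <;> omega
    have h7 : p (R.min' hR) = p' (R.min' hR) := by
      have hmem := R.min'_mem hR
      rw [← Finset.add_sum_erase R _ hmem, ← Finset.add_sum_erase R _ hmem] at h6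
      have h8 : ∑ i ∈ R.erase (R.min' hR), ent s H ε p i =
          ∑ i ∈ R.erase (R.min' hR), ent s H ε p' i := by
        refine Finset.sum_congr rfl fun j hj => ?_
        obtain ⟨m, hm⟩ := Fin.exists_succAbove_eq (Finset.ne_of_mem_erase hj)
        unfold ent
        rw [← hm, h3 m]
      rw [h8] at h6
      have h9 := Nat.add_right_cancel h6
      unfold ent at h9
      omega
    funext j
    by_cases hj : j = R.min' hR
    · rw [hj]
      exact h7
    · obtain ⟨m, hm⟩ := Fin.exists_succAbove_eq hj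
      rw [← hm]
      exact h3 m

open Classical in
/-- the maps, with a default -/
noncomputable def ff (s n N H h C : ℕ) (t : TT' s) : (Fin (s + 2) → ℕ) → Fin (s + 2) → ℕ :=
  if GM n (s + 2) N (phi s n H h C t) then phi s n H h C t else ent s H false

theorem ff_GM (hN : Num s n N h H C G) (t : TT' s) : GM n (s + 2) N (ff s n N H h C t) := by
  unfold ff
  split_ifs with h1
  · exact h1
  · exact ent_GM hN false

theorem ff_eq (t : TT' s) (h1 : GM n (s + 2) N (phi s n H h C t)) :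
    ff s n N H h C t = phi s n H h C t := by
  unfold ff
  rw [if_pos h1]

theorem gd (hB : St_BASE) (hN : Num s n N h H C G) (V : Submodule ℚ ℝ)
    (hGOOD : ∀ (b : Fin (s + 1 + 1) → ℕ), (∀ m, Even (b m)) → (∀ m, G ≤ b m) →
      (∀ m m' : Fin (s + 1 + 1), m < m' → b m' + G ≤ b m) → ∑ m, b m + 2 * (s + 1) + 6 ≤ n →
      (∀ i : ℕ, i ≤ s + 1 + 1 → ∀ S, Clean V n (sh (row C b i) S)) →
      z (∑ m, b m) * z (n - ∑ m, b m) ∈ V)
    (p : Fin (s + 2) → ℕ) (hp : ∀ i, 1 ≤ p i ∧ p i ≤ N)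
    (hclean : ∀ t : TT' s, Clean V n (ff s n N H h C t p)) (σ ε : Bool) (R : Finset (Fin (s + 2)))
    (hR : R.Nonempty)
    (he : ∀ p : Fin (s + 2) → ℕ, (∀ i, 1 ≤ p i ∧ p i ≤ N) → Even (uu s n H σ ε R p)) :
    Gd V n (n - uu s n H σ ε R p) := by
  obtain ⟨h1, h2, h3, h4⟩ := base_facts hB hN σ ε R hR p hp (he p hp)
  obtain ⟨u1, u2⟩ := u_bounds hN σ ε R hR p hp
  have hbig := H_big hN
  have h5 := hGOOD (base h (R.min' hR) (uu s n H σ ε R p) p) h2 (fun m => by have := h3 m; omega)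
    (fun m m' hm => by have := h4 m m' hm; omega) (by rw [h1]; omega) (fun i hi S => by
      have h6 := hclean (Sum.inr (σ, ε, R, ⟨i, by omega⟩, S))
      rw [ff_eq _ (phi_GM hB hN σ ε R ⟨i, by omega⟩ S hR he)] at h6
      simp only [phi, dif_pos hR] at h6
      exact h6)
  rw [h1] at h5
  obtain ⟨w, hw⟩ : ∃ w, w = uu s n H σ ε R p := ⟨_, rfl⟩
  have hev := he p hp
  rw [← hw] at h5 u1 u2 hev ⊢
  obtain ⟨j, hj⟩ := hev
  obtain ⟨q, hq0, hq⟩ := thm_Zev j (by omega)
  have hz : z w = q * Real.pi ^ w := by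
    unfold z
    rw [show w = 2 * j by omega]
    exact hq
  rw [hz] at h5
  have h7 := V.smul_mem q⁻¹ h5
  rw [Rat.smul_def, Rat.cast_inv] at h7
  have hqr : (q : ℝ) ≠ 0 := by exact_mod_cast hq0.ne'
  unfold Gd
  rw [show n - (n - w) = w by omega]
  convert h7 using 1
  field_simp

theorem ent_even (hN : Num s n N h H C G) (ε : Bool) (p : Fin (s + 2) → ℕ) (i : Fin (s + 2))
    (hi : ε = false ∨ (i : ℕ) < s) : Even (ent s H ε p i) := by
  have hH : Even H := by
    rw [hN.hH]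
    exact ⟨2 * (s + 2) ^ 2 * h, by ring⟩
  have hno : ¬ (ε = true ∧ s ≤ (i : ℕ)) := by
    rintro ⟨h1, h2⟩
    rcases hi with h3 | h3
    · rw [h1] at h3
      exact absurd h3 (by simp)
    · omega
  unfold ent
  rw [if_neg hno, add_zero]
  exact hH.add (even_two_mul _)

theorem ent_odd (hN : Num s n N h H C G) (p : Fin (s + 2) → ℕ) (i : Fin (s + 2))
    (hi : s ≤ (i : ℕ)) : Odd (ent s H true p i) := by
  have hH : Even H := by
    rw [hN.hH]
    exact ⟨2 * (s + 2) ^ 2 * h, by ring⟩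
  unfold ent
  rw [if_pos ⟨rfl, hi⟩]
  exact (hH.add (even_two_mul _)).add_one

theorem sum_even (hN : Num s n N h H C G) (ε : Bool) (p : Fin (s + 2) → ℕ)
    (R : Finset (Fin (s + 2))) (hi : ∀ i ∈ R, ε = false ∨ (i : ℕ) < s) :
    Even (∑ i ∈ R, ent s H ε p i) :=
  Finset.even_sum _ fun i h1 => ent_even hN ε p i (hi i h1)

theorem zn_step (hB : St_BASE) (hZN : St_ZN) (hJ1 : St_J1) (hP : St_PERM) (hN : Num s n N h H C G)
    (V : Submodule ℚ ℝ)
    (hGOOD : ∀ (b : Fin (s + 1 + 1) → ℕ), (∀ m, Even (b m)) → (∀ m, G ≤ b m) →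
      (∀ m m' : Fin (s + 1 + 1), m < m' → b m' + G ≤ b m) → ∑ m, b m + 2 * (s + 1) + 6 ≤ n →
      (∀ i : ℕ, i ≤ s + 1 + 1 → ∀ S, Clean V n (sh (row C b i) S)) →
      z (∑ m, b m) * z (n - ∑ m, b m) ∈ V)
    (p : Fin (s + 2) → ℕ) (hp : ∀ i, 1 ≤ p i ∧ p i ≤ N)
    (hclean : ∀ t : TT' s, Clean V n (ff s n N H h C t p)) : z n ∈ V := by
  have hbig := H_big hN
  have hsb := sum_bounds hN false Finset.univ p hp
  have hlow : ∀ i, 2 ≤ ent s H false p i := fun i => by
    have := (ent_bounds hN false p hp i).1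
    omega
  have hcl : Clean V n (ent s H false p) := by
    have h1 := hclean (Sum.inl false)
    rw [ff_eq _ (ent_GM hN false)] at h1
    exact h1
  have hsum : (List.ofFn (ent s H false p)).sum = ∑ i, ent s H false p i := List.sum_ofFn
  refine hZN V n (n - ∑ i, ent s H false p i) (List.ofFn (ent s H false p)) (by omega) ?_
    (by rw [hsum]; omega) ?_ ?_
  · intro y hy
    rw [List.mem_ofFn] at hy
    obtain ⟨i, rfl⟩ := hy
    exact ⟨hlow i, ent_even hN false p i (Or.inl rfl)⟩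
  · intro l hl hne
    obtain ⟨S, hS⟩ := sublist_sum _ l hl
    rw [hsum, hS] at hne
    have hR : (Sᶜ).Nonempty := by
      rw [Finset.nonempty_iff_ne_empty]
      intro h0
      rw [Finset.compl_eq_empty_iff] at h0
      rw [h0] at hne
      exact hne rfl
    have h1 := gd hB hN V hGOOD p hp hclean false false Sᶜ hR (fun p _ => by
      unfold uu
      rw [if_neg (by simp)]
      exact sum_even hN false p _ fun i _ => Or.inl rfl)
    have h2 : ∑ i ∈ S, ent s H false p i + ∑ i ∈ Sᶜ, ent s H false p i =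
        ∑ i, ent s H false p i := Finset.sum_add_sum_compl S _
    have h3 : uu s n H false false Sᶜ p = ∑ i ∈ Sᶜ, ent s H false p i := by
      unfold uu
      rw [if_neg (by simp)]
    rw [h3] at h1
    rw [hS]
    convert h1 using 2
    omega
  · refine clean_JL hJ1 hP V n (s + 2) (ent s H false p) hlow (by omega) hcl _ ?_
    exact List.perm_append_singleton _ _

/-- the first `s` coordinates -/
theorem cast_sum (g : Fin (s + 2) → ℕ) (S : Finset (Fin s)) :
    ∑ i ∈ S.map (Fin.castAddEmb 2), g i = ∑ i ∈ S, g (Fin.castAdd 2 i) := by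
  rw [Finset.sum_map]
  rfl

theorem mem_cast (S : Finset (Fin s)) (i : Fin (s + 2)) (hi : i ∈ S.map (Fin.castAddEmb 2)) :
    (i : ℕ) < s := by
  rw [Finset.mem_map] at hi
  obtain ⟨j, -, rfl⟩ := hi
  exact j.2

theorem ofFn_split (g : Fin (s + 2) → ℕ) : List.ofFn g =
    List.ofFn (fun i : Fin s => g (Fin.castAdd 2 i)) ++ [g (Fin.natAdd s 0), g (Fin.natAdd s 1)] := by
  rw [List.ofFn_add]
  congr 1

theorem tt_step (hB : St_BASE) (hZN : St_ZN) (hJ1 : St_J1) (hP : St_PERM) (hN : Num s n N h H C G)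
    (V : Submodule ℚ ℝ) (hodd : Odd n) (hNP : NP V n) (L : ℕ) (hL : L ≤ H)
    (hTT : ∀ (v₁ v₂ v₃ : ℕ) (x : List ℕ), x.length = s → (∀ y ∈ x, L ≤ y ∧ Even y) → L ≤ v₁ →
      L ≤ v₂ → L ≤ v₃ → Odd v₁ → Odd v₂ → Odd v₃ → x.sum + (v₁ + v₂ + v₃) = n →
      (∀ l : List ℕ, l.Sublist x → Gd V n (v₁ + l.sum) ∧ Gd V n (v₂ + l.sum) ∧
        Gd V n (v₃ + l.sum) ∧ Gd V n (v₁ + v₂ + v₃ + l.sum)) →
      JL (x ++ [v₁, v₂, v₃]) ∈ V → ∃ T ∈ V, T ≠ 0 ∧ Real.pi ^ (2 * n) * T ∈ V * V * V)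
    (hGOOD : ∀ (b : Fin (s + 1 + 1) → ℕ), (∀ m, Even (b m)) → (∀ m, G ≤ b m) →
      (∀ m m' : Fin (s + 1 + 1), m < m' → b m' + G ≤ b m) → ∑ m, b m + 2 * (s + 1) + 6 ≤ n →
      (∀ i : ℕ, i ≤ s + 1 + 1 → ∀ S, Clean V n (sh (row C b i) S)) →
      z (∑ m, b m) * z (n - ∑ m, b m) ∈ V)
    (p : Fin (s + 2) → ℕ) (hp : ∀ i, 1 ≤ p i ∧ p i ≤ N)
    (hclean : ∀ t : TT' s, Clean V n (ff s n N H h C t p)) : False := by
  have hzn := zn_step hB hZN hJ1 hP hN V hGOOD p hp hclean
  have hbig := H_big hN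
  have hsb := sum_bounds hN true Finset.univ p hp
  have hlow : ∀ i, H ≤ ent s H true p i := fun i => (ent_bounds hN true p hp i).1
  have hcl : Clean V n (ent s H true p) := by
    have h1 := hclean (Sum.inl true)
    rw [ff_eq _ (ent_GM hN true)] at h1
    exact h1
  obtain ⟨g, hg⟩ : ∃ g : Fin (s + 2) → ℕ, g = ent s H true p := ⟨_, rfl⟩
  have hsplit := ofFn_split g
  have htot : ∑ i, g i = ∑ i : Fin s, g (Fin.castAdd 2 i) + (g (Fin.natAdd s 0) +
      g (Fin.natAdd s 1)) := by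
    rw [Fin.sum_univ_add]
    congr 1
  have hv1 : ∀ p : Fin (s + 2) → ℕ, Odd (ent s H true p (Fin.natAdd s 0)) := fun p =>
    ent_odd hN p _ (by simp)
  have hv2 : ∀ p : Fin (s + 2) → ℕ, Odd (ent s H true p (Fin.natAdd s 1)) := fun p =>
    ent_odd hN p _ (by simp)
  have hev : ∀ (p : Fin (s + 2) → ℕ) (S : Finset (Fin s)),
      Even (∑ i ∈ S.map (Fin.castAddEmb 2), ent s H true p i) := fun p S =>
    sum_even hN true p _ fun i hi => Or.inr (mem_cast S i hi)
  have hx : (List.ofFn (fun i : Fin s => g (Fin.castAdd 2 i))).sum =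
      ∑ i : Fin s, g (Fin.castAdd 2 i) := List.sum_ofFn
  have hle := hsb.1
  rw [← hg] at hle hlow
  have n0 : (Fin.natAdd s 0 : Fin (s + 2)) ≠ Fin.natAdd s 1 := by
    intro h0
    have := congrArg Fin.val h0
    simp at this
  have hc0 : ∀ S : Finset (Fin s), (Fin.natAdd s 0 : Fin (s + 2)) ∉ S.map (Fin.castAddEmb 2) :=
    fun S h0 => by
      have := mem_cast S _ h0
      simp at this
  have hc1 : ∀ S : Finset (Fin s), (Fin.natAdd s 1 : Fin (s + 2)) ∉ S.map (Fin.castAddEmb 2) :=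
    fun S h0 => by
      have := mem_cast S _ h0
      simp at this
  have hex := hTT (g (Fin.natAdd s 0)) (g (Fin.natAdd s 1)) (n - ∑ i, g i)
    (List.ofFn (fun i : Fin s => g (Fin.castAdd 2 i))) (List.length_ofFn ..) ?_
    (hL.trans (hlow _)) (hL.trans (hlow _)) (by omega) (by rw [hg]; exact hv1 p)
    (by rw [hg]; exact hv2 p) ?_ (by rw [hx]; omega) ?_ ?_
  · obtain ⟨T, hT1, hT2, hT3⟩ := hex
    exact hNP T hT1 hT2 hT3
  · intro y hy
    rw [List.mem_ofFn] at hy
    obtain ⟨i, rfl⟩ := hy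
    refine ⟨hL.trans (hlow _), ?_⟩
    simp only [hg]
    exact ent_even hN true p _ (Or.inr (by simp))
  · have h1 := hev p Finset.univ
    rw [cast_sum, ← hg] at h1
    have h2 := hv1 p
    have h3 := hv2 p
    rw [← hg] at h2 h3
    rw [htot] at hle ⊢
    have h4 : Even (∑ i : Fin s, g (Fin.castAdd 2 i) + (g (Fin.natAdd s 0) +
      g (Fin.natAdd s 1))) := h1.add (h2.add_odd h3)
    rw [Nat.odd_sub (by omega)]
    exact ⟨fun _ => h4, fun _ => hodd⟩
  · intro l hl
    obtain ⟨S, hS⟩ := sublist_sum _ l hl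
    have hcompl : ∑ i ∈ S, g (Fin.castAdd 2 i) + ∑ i ∈ Sᶜ, g (Fin.castAdd 2 i) =
        ∑ i : Fin s, g (Fin.castAdd 2 i) := Finset.sum_add_sum_compl S _
    rw [hS]
    refine ⟨?_, ?_, ?_, ?_⟩
    · have h1 := gd hB hN V hGOOD p hp hclean true true
        (Finset.cons (Fin.natAdd s 0) (S.map (Fin.castAddEmb 2)) (hc0 S))
        (Finset.cons_nonempty _) (fun p' hp' => by
          unfold uu
          rw [if_pos rfl, Nat.even_sub' (by have := (sum_bounds hN true (Finset.cons (Fin.natAdd s 0) (S.map (Fin.castAddEmb 2)) (hc0 S)) p' hp').1; omega), Finset.sum_cons]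
          exact ⟨fun _ => (hv1 p').add_even (hev p' S), fun _ => hodd⟩)
      unfold uu at h1
      rw [if_pos rfl, Finset.sum_cons, cast_sum, ← hg] at h1
      convert h1 using 1
      omega
    · have h1 := gd hB hN V hGOOD p hp hclean true true
        (Finset.cons (Fin.natAdd s 1) (S.map (Fin.castAddEmb 2)) (hc1 S))
        (Finset.cons_nonempty _) (fun p' hp' => by
          unfold uu
          rw [if_pos rfl, Nat.even_sub' (by have := (sum_bounds hN true (Finset.cons (Fin.natAdd s 1) (S.map (Fin.castAddEmb 2)) (hc1 S)) p' hp').1; omega), Finset.sum_cons]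
          exact ⟨fun _ => (hv2 p').add_even (hev p' S), fun _ => hodd⟩)
      unfold uu at h1
      rw [if_pos rfl, Finset.sum_cons, cast_sum, ← hg] at h1
      convert h1 using 1
      omega
    · have hnm : (Fin.natAdd s 0 : Fin (s + 2)) ∉
          Finset.cons (Fin.natAdd s 1) (Sᶜ.map (Fin.castAddEmb 2)) (hc1 Sᶜ) := by
        rw [Finset.mem_cons, not_or]
        exact ⟨n0, hc0 Sᶜ⟩
      have h1 := gd hB hN V hGOOD p hp hclean false true
        (Finset.cons (Fin.natAdd s 0) (Finset.cons (Fin.natAdd s 1) (Sᶜ.map (Fin.castAddEmb 2))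
          (hc1 Sᶜ)) hnm)
        (Finset.cons_nonempty _) (fun p' hp' => by
          unfold uu
          rw [if_neg (by simp), Finset.sum_cons, Finset.sum_cons, ← add_assoc]
          exact ((hv1 p').add_odd (hv2 p')).add (hev p' Sᶜ))
      unfold uu at h1
      rw [if_neg (by simp), Finset.sum_cons, Finset.sum_cons, cast_sum, ← hg] at h1
      convert h1 using 1
      omega
    · by_cases hSu : S = Finset.univ
      · subst hSu
        unfold Gd
        have e : g (Fin.natAdd s 0) + g (Fin.natAdd s 1) + (n - ∑ i, g i) +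
            ∑ i : Fin s, g (Fin.castAdd 2 i) = n := by omega
        rw [e, Nat.sub_self, pow_zero, mul_one]
        exact hzn
      · have hne : (Sᶜ.map (Fin.castAddEmb 2)).Nonempty := by
          rw [Finset.map_nonempty, Finset.nonempty_iff_ne_empty]
          intro h0
          rw [Finset.compl_eq_empty_iff] at h0
          exact hSu h0
        have h1 := gd hB hN V hGOOD p hp hclean false true (Sᶜ.map (Fin.castAddEmb 2)) hne
          (fun p' hp' => by
            unfold uu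
            rw [if_neg (by simp)]
            exact hev p' Sᶜ)
        unfold uu at h1
        rw [if_neg (by simp), cast_sum, ← hg] at h1
        convert h1 using 1
        omega
  · have h1 := clean_JL hJ1 hP V n (s + 2) (ent s H true p)
      (fun i => by rw [← hg]; have := hlow i; omega) (by rw [← hg]; omega) hcl
      (List.ofFn (fun i : Fin s => g (Fin.castAdd 2 i)) ++
        [g (Fin.natAdd s 0), g (Fin.natAdd s 1), n - ∑ i, g i]) (by
        rw [← hg, hsplit]
        have e : List.ofFn (fun i : Fin s => g (Fin.castAdd 2 i)) ++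
            [g (Fin.natAdd s 0), g (Fin.natAdd s 1), n - ∑ i, g i] =
            (List.ofFn (fun i : Fin s => g (Fin.castAdd 2 i)) ++
            [g (Fin.natAdd s 0), g (Fin.natAdd s 1)]) ++ [n - ∑ i, g i] := by simp
        rw [e]
        exact List.perm_append_singleton _ _)
    exact h1

end

theorem num (s G C : ℕ) : ∃ n₀ : ℕ, ∀ n : ℕ, n₀ ≤ n → ∃ N h H : ℕ, Num s n N h H C G ∧
    n ≤ 64 * (s + 2) ^ 3 * N := by
  refine ⟨32 * (s + 2) ^ 3 * (G + C * (s + 2) + 2), fun n hn => ?_⟩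
  obtain ⟨D, hD⟩ : ∃ D, D = 32 * (s + 2) ^ 3 := ⟨_, rfl⟩
  obtain ⟨B, hB⟩ : ∃ B, B = G + C * (s + 2) + 2 := ⟨_, rfl⟩
  have hD0 : 0 < D := by rw [hD]; positivity
  rw [← hD, ← hB] at hn
  obtain ⟨N, hN⟩ : ∃ N, N = n / D := ⟨_, rfl⟩
  have h1 : D * N ≤ n := by rw [hN]; exact Nat.mul_div_le n D
  have h2 : n < D * (N + 1) := by rw [hN]; exact Nat.lt_mul_div_succ n hD0
  have h3 : B ≤ N := by
    rw [hN, Nat.le_div_iff_mul_le hD0]
    rw [mul_comm]
    exact hn
  have hN1 : 1 ≤ N := by omega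
  refine ⟨N, 2 * N, 4 * (s + 2) ^ 2 * (2 * N), ⟨rfl, rfl, hN1, ?_, by omega⟩, ?_⟩
  · refine le_trans ?_ h1
    rw [hD]
    obtain ⟨K, hK⟩ : ∃ K, K = s + 2 := ⟨_, rfl⟩
    rw [← hK]
    have hK2 : 2 ≤ K := by omega
    obtain ⟨c, hc⟩ : ∃ c, c = K ^ 3 * N := ⟨_, rfl⟩
    have e1 : K ^ 2 * N ≤ c := by
      rw [hc]
      exact Nat.mul_le_mul_right _ (Nat.pow_le_pow_right (by omega) (by norm_num))
    have e2 : K * N ≤ c := by
      rw [hc]
      refine Nat.mul_le_mul_right _ ?_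
      exact Nat.le_self_pow (by norm_num) K
    have e3 : K ≤ c := le_trans (Nat.le_mul_of_pos_right K (by omega)) e2
    have e4 : K ^ 3 * N = c := hc.symm
    have e5 : 4 ≤ c := by
      have : 2 ^ 3 ≤ K ^ 3 := Nat.pow_le_pow_left hK2 3
      have h9 : K ^ 3 ≤ c := by
        rw [hc]
        exact Nat.le_mul_of_pos_right _ (by omega)
      omega
    have e6 : K * (4 * K ^ 2 * (2 * N) + 2 * N + 1) + 4 * K ^ 2 * (2 * N) + 2 * K + 4 =
        8 * (K ^ 3 * N) + 8 * (K ^ 2 * N) + 2 * (K * N) + 3 * K + 4 := by ring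
    have e7 : 32 * K ^ 3 * N = 32 * (K ^ 3 * N) := by ring
    rw [e6, e7, e4]
    omega
  · have h4 : 64 * (s + 2) ^ 3 * N = D * N + D * N := by rw [hD]; ring
    have h5 : D * (N + 1) ≤ D * N + D * N := by
      rw [Nat.mul_add]
      exact Nat.add_le_add_left (Nat.mul_le_mul_left _ hN1) _
    omega

end ODD64

open ODD64 in
/-- MODULE ODD -/
theorem thm_ODD64 (hGOOD : St_GOOD) (hZN : St_ZN) (hTT : St_TT) (hP : St_PERM) (hJ1 : St_J1)
    (hF : St_F) (hB : St_BASE) : St_ODD := by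
  intro k hk
  obtain ⟨s, rfl⟩ : ∃ s, k = s + 2 := ⟨k - 2, by omega⟩
  obtain ⟨C, G, -, -, hG⟩ := hGOOD (s + 1) (by omega)
  obtain ⟨L, hL⟩ := hTT s
  obtain ⟨n₀, hn₀⟩ := num s (G + L) C
  refine ⟨(64 * (s + 2) ^ 3) ^ (s + 2) * ((s + 2 + 1).factorial * Fintype.card (TT' s)), n₀, ?_,
    fun V n hn hodd hNP => ?_⟩
  · have : 0 < Fintype.card (TT' s) := Fintype.card_pos
    have := Nat.factorial_pos (s + 2 + 1)
    positivity
  · obtain ⟨N, h, H, hN, hle⟩ := hn₀ n hn
    have hGOOD' : ∀ (b : Fin (s + 1 + 1) → ℕ), (∀ m, Even (b m)) → (∀ m, G + L ≤ b m) →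
        (∀ m m' : Fin (s + 1 + 1), m < m' → b m' + (G + L) ≤ b m) →
        ∑ m, b m + 2 * (s + 1) + 6 ≤ n →
        (∀ i : ℕ, i ≤ s + 1 + 1 → ∀ S, Clean V n (sh (row C b i) S)) →
        z (∑ m, b m) * z (n - ∑ m, b m) ∈ V := fun b h1 h2 h3 h4 h5 =>
      hG V n b h1 (fun m => by have := h2 m; omega) (fun m m' hm => by have := h3 m m' hm; omega)
        h4 h5
    have hLH : L ≤ H := by
      have h1 := hN.hG
      have h2 : h ≤ H := by
        rw [hN.hH]
        exact Nat.le_mul_of_pos_left _ (by positivity)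
      omega
    have h1 := hF V n (s + 2) N (TT' s) (ff s n N H h C) (fun t p hp => (ff_GM hN t).1 p hp)
      (fun t p p' hp hp' he => (ff_GM hN t).2 p p' hp hp' he) (fun p hp => by
        by_contra hcon
        push Not at hcon
        exact tt_step hB hZN hJ1 hP hN V hodd hNP L hLH (fun v₁ v₂ v₃ x => hL V n v₁ v₂ v₃ x)
          hGOOD' p hp hcon)
    calc n ^ (s + 2) ≤ (64 * (s + 2) ^ 3 * N) ^ (s + 2) := Nat.pow_le_pow_left hle _
      _ = (64 * (s + 2) ^ 3) ^ (s + 2) * N ^ (s + 2) := by rw [mul_pow]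
      _ ≤ (64 * (s + 2) ^ 3) ^ (s + 2) *
          ((s + 2 + 1).factorial * Fintype.card (TT' s) * (Out V n (s + 2 + 1)).ncard) :=
        Nat.mul_le_mul_left _ h1
      _ = _ := by ring

end Pool.Agent.MZG
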