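import Pool.Agent.MZG.OddA
import Pool.Agent.MZG.OddDefs

set_option autoImplicit false

/-!
# MZG / OddZ: `ζ(n) ∈ V` from one clean tuple of even numbers
-/

namespace Pool.Agent.MZG

open Pool.Agent.Helper21 (mzv H zl Adm)
open Pool.Agent.MZA

theorem oddz_sub : ∀ (s : ℕ) (g : Fin s → ℕ) (l : List ℕ), l.Sublist (List.ofFn g) →
    ∃ A : Finset (Fin s), l.sum = ∑ i ∈ A, g i := by
  intro s
  induction s with
  | zero =>
    intro g l hl
    refine ⟨∅, ?_⟩
    rw [List.ofFn_zero, List.sublist_nil] at hl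
    rw [hl]
    rfl
  | succ s ih =>
    intro g l hl
    rw [List.ofFn_succ, List.sublist_cons_iff] at hl
    rcases hl with hl | ⟨r, rfl, hl⟩
    · obtain ⟨A, hA⟩ := ih _ _ hl
      refine ⟨A.map (Fin.succEmb s), ?_⟩
      rw [hA, Finset.sum_map]
      rfl
    · obtain ⟨A, hA⟩ := ih _ _ hl
      refine ⟨insert 0 (A.map (Fin.succEmb s)), ?_⟩
      rw [Finset.sum_insert, Finset.sum_map, List.sum_cons, hA]
      · rfl
      · simp

theorem odd_zn (hZN : St_ZN) (hP : St_PERM) (h1 : St_J1) {V : Submodule ℚ ℝ} {n m E : ℕ}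
    (hE : Even E) (hE2 : 2 ≤ E) (p : Fin m → ℕ) (hs : ∑ i, (E + 2 * p i) + 2 ≤ n)
    (hc : Clean V n (fun i => E + 2 * p i))
    (hgd : ∀ B : Finset (Fin m), B.Nonempty → Gd V n (n - ∑ i ∈ B, (E + 2 * p i))) :
    z n ∈ V := by
  classical
  obtain ⟨x, hx⟩ : ∃ x : Fin m → ℕ, x = fun i => E + 2 * p i := ⟨_, rfl⟩
  have hxi : ∀ i, E + 2 * p i = x i := fun i => by rw [hx]
  simp only [hxi] at hs hc hgd
  have hx2 : ∀ i, 2 ≤ x i := fun i => by
    rw [← hxi]
    omega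
  have hxe : ∀ i, Even (x i) := fun i => by
    rw [← hxi]
    exact hE.add (even_two_mul _)
  have hsum : (List.ofFn x).sum = ∑ i, x i := List.sum_ofFn
  refine hZN V n (n - ∑ i, x i) (List.ofFn x) (by omega) ?_ ?_ ?_ ?_
  · intro y hy
    obtain ⟨i, rfl⟩ := (List.mem_ofFn' x y).1 hy
    exact ⟨hx2 i, hxe i⟩
  · rw [hsum]
    omega
  · intro l hl hne
    obtain ⟨A, hA⟩ := oddz_sub m x l hl
    rw [hsum, hA] at hne
    have hAn : (Aᶜ : Finset (Fin m)).Nonempty := by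
      rw [Finset.nonempty_iff_ne_empty]
      intro h
      apply hne
      rw [Finset.compl_eq_empty_iff] at h
      rw [h]
    have h2 := hgd Aᶜ hAn
    have h3 : ∑ i ∈ A, x i + ∑ i ∈ Aᶜ, x i = ∑ i, x i := Finset.sum_add_sum_compl A x
    have h4 : n - ∑ i, x i + l.sum = n - ∑ i ∈ Aᶜ, x i := by
      rw [hA]
      omega
    rw [h4]
    exact h2
  · refine odd_JL hP h1 V n m x hx2 hs hc _ ?_
    exact (List.perm_append_comm).trans (List.Perm.refl _)

end Pool.Agent.MZG
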