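import Pool.Agent.MZG.FIN
import Pool.Agent.MZG.F
import Pool.Agent.Helper21.PiTrans

set_option autoImplicit false

/-!
# MZG: pairs of multiple zeta values of two different weights
-/

namespace Pool.Agent.MZG

open Pool.Agent.Helper21 (mzv H zl Adm transcendental_pi)
open Pool.Agent.MZA

theorem pair_trans {n m : ℕ} (h : n ≠ m) : Transcendental ℚ (Real.pi ^ m / Real.pi ^ n) := by
  intro hcon
  have hpi : Real.pi ≠ 0 := Real.pi_ne_zero
  rcases lt_or_gt_of_ne h with hlt | hlt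
  · have e : Real.pi ^ m / Real.pi ^ n = Real.pi ^ (m - n) := by
      rw [div_eq_iff (pow_ne_zero _ hpi), ← pow_add]
      congr 1
      omega
    rw [e] at hcon
    exact transcendental_pi (IsAlgebraic.of_pow (n := m - n) (by omega) hcon)
  · have e : (Real.pi ^ m / Real.pi ^ n)⁻¹ = Real.pi ^ (n - m) := by
      rw [inv_div, div_eq_iff (pow_ne_zero _ hpi), ← pow_add]
      congr 1
      omega
    have h2 := hcon.inv
    rw [e] at h2
    exact transcendental_pi (IsAlgebraic.of_pow (n := n - m) (by omega) h2)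

theorem pair_indep {x y : ℝ} (hx : x ≠ 0) (h : ¬ ∃ a : ℝ, IsAlgebraic ℚ a ∧ y = a * x) :
    LinearIndependent (algebraicClosure ℚ ℝ) ![x, y] := by
  rw [LinearIndependent.pair_iff]
  intro s t hst
  have hst' : (s : ℝ) * x + (t : ℝ) * y = 0 := hst
  have ht : (t : ℝ) = 0 := by
    by_contra ht
    apply h
    refine ⟨-((t : ℝ)⁻¹ * s), ?_, ?_⟩
    · exact ((mem_algebraicClosure_iff.1 t.2).inv.mul (mem_algebraicClosure_iff.1 s.2)).neg
    · field_simp
      linarith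
  have hs : (s : ℝ) = 0 := by
    rw [ht, zero_mul, add_zero] at hst'
    exact (mul_eq_zero.1 hst').resolve_right hx
  exact ⟨Subtype.ext hs, Subtype.ext ht⟩

/-- **Pairs of weights.** -/
theorem pair_ineq {r s M₁ N₁ M₂ N₂ : ℕ} (h1 : Ineq r M₁ N₁) (h2 : Ineq s M₂ N₂) (n m : ℕ)
    (hn : N₁ ≤ n) (hm : N₂ ≤ m) (hnm : n ≠ m) :
    n ^ (r - 1) * m ^ (s - 1) ≤ M₁ * M₂ * {p : List ℕ × List ℕ |
      (p.1 ∈ Idx n ∧ p.1.length = r) ∧ (p.2 ∈ Idx m ∧ p.2.length = s) ∧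
        LinearIndependent (algebraicClosure ℚ ℝ) ![mz p.1, mz p.2]}.ncard := by
  classical
  have k1 := fin_line h1 (Real.pi ^ m) n hn (pair_trans hnm)
  set P₁ : Set (List ℕ) := {w : List ℕ | w ∈ Idx n ∧ w.length = r ∧
      ¬ ∃ a : ℝ, IsAlgebraic ℚ a ∧ mz w = a * Real.pi ^ m} with hP₁
  have fP₁ : P₁.Finite := (F_idx_finite n).subset fun _ hw => hw.1
  set P₂ : List ℕ → Set (List ℕ) := fun w => {w' : List ℕ | w' ∈ Idx m ∧ w'.length = s ∧
      ¬ ∃ a : ℝ, IsAlgebraic ℚ a ∧ mz w' = a * mz w} with hP₂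
  have fP₂ : ∀ w, (P₂ w).Finite := fun w => (F_idx_finite m).subset fun _ hw => hw.1
  have k2 : ∀ w ∈ P₁, m ^ (s - 1) ≤ M₂ * (P₂ w).ncard := by
    rintro w ⟨-, -, hw⟩
    refine fin_line h2 (mz w) m hm fun h => hw ⟨_, h, ?_⟩
    rw [div_mul_cancel₀ _ (pow_ne_zero _ Real.pi_ne_zero)]
  set S : Set (List ℕ × List ℕ) := {p : List ℕ × List ℕ |
      (p.1 ∈ Idx n ∧ p.1.length = r) ∧ (p.2 ∈ Idx m ∧ p.2.length = s) ∧
        LinearIndependent (algebraicClosure ℚ ℝ) ![mz p.1, mz p.2]} with hS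
  have fS : S.Finite := ((F_idx_finite n).prod (F_idx_finite m)).subset
    fun p hp => ⟨hp.1.1, hp.2.1.1⟩
  have hcard : (fP₁.toFinset.sigma fun w => (fP₂ w).toFinset).card ≤ fS.toFinset.card := by
    apply Finset.card_le_card_of_injOn (fun q => (q.1, q.2))
    · rintro ⟨w, w'⟩ hq
      simp only [Finset.coe_sigma, Set.Finite.coe_toFinset, Set.mem_sigma_iff] at hq
      obtain ⟨hw, hw'⟩ := hq
      simp only [Set.Finite.coe_toFinset]
      refine ⟨⟨hw.1, hw.2.1⟩, ⟨hw'.1, hw'.2.1⟩, pair_indep ?_ hw'.2.2⟩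
      intro h0
      exact hw.2.2 ⟨0, isAlgebraic_zero, by rw [zero_mul]; exact h0⟩
    · rintro ⟨a, b⟩ _ ⟨c, d⟩ _ h
      simp only [Prod.mk.injEq] at h
      obtain ⟨rfl, rfl⟩ := h
      rfl
  have e1 : P₁.ncard = fP₁.toFinset.card := Set.ncard_eq_toFinset_card _ fP₁
  have e2 : ∀ w, (P₂ w).ncard = (fP₂ w).toFinset.card := fun w => Set.ncard_eq_toFinset_card _ (fP₂ w)
  have e3 : S.ncard = fS.toFinset.card := Set.ncard_eq_toFinset_card _ fS
  rw [Finset.card_sigma] at hcard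
  have k3 : fP₁.toFinset.card * m ^ (s - 1) ≤ M₂ * S.ncard := by
    rw [e3]
    calc fP₁.toFinset.card * m ^ (s - 1) = ∑ _w ∈ fP₁.toFinset, m ^ (s - 1) := by
          rw [Finset.sum_const, smul_eq_mul]
      _ ≤ ∑ w ∈ fP₁.toFinset, M₂ * (fP₂ w).toFinset.card := by
          refine Finset.sum_le_sum fun w hw => ?_
          rw [← e2]
          exact k2 w (fP₁.mem_toFinset.1 hw)
      _ = M₂ * ∑ w ∈ fP₁.toFinset, (fP₂ w).toFinset.card := by rw [Finset.mul_sum]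
      _ ≤ M₂ * fS.toFinset.card := Nat.mul_le_mul_left _ hcard
  calc n ^ (r - 1) * m ^ (s - 1) ≤ M₁ * P₁.ncard * m ^ (s - 1) := Nat.mul_le_mul_right _ k1
    _ = M₁ * (fP₁.toFinset.card * m ^ (s - 1)) := by rw [e1, mul_assoc]
    _ ≤ M₁ * (M₂ * S.ncard) := Nat.mul_le_mul_left _ k3
    _ = M₁ * M₂ * S.ncard := by rw [mul_assoc]

end Pool.Agent.MZG
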