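import Pool.Agent.MZG.FIN

set_option autoImplicit false

/-!
# MZG: pairs of multiple zeta values of two different weights (helper46)
-/

namespace Pool.Agent.MZG

open Pool.Agent.Helper21 (mzv H zl Adm)
open Pool.Agent.MZA

/-- the indices of weight `n` and depth `r` -/
theorem pairs_fin (n r : ℕ) (hr : 2 ≤ r) : {w : List ℕ | w ∈ Idx n ∧ w.length = r}.Finite := by
  obtain ⟨s, rfl⟩ : ∃ s, r = s + 1 := ⟨r - 1, by omega⟩
  have e : {w : List ℕ | w ∈ Idx n ∧ w.length = s + 1} ⊆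
      ((WW (n - 1) (s + 1)).image incH : Finset (List ℕ)) := by
    intro w hw
    obtain ⟨⟨h1, h2, h3⟩, h4⟩ := hw
    rw [Finset.coe_image, Set.mem_image]
    cases w with
    | nil => simp at h4
    | cons b t =>
      have hb := h2 b t rfl
      rw [List.sum_cons] at h3
      refine ⟨(b - 1) :: t, (mem_WW _ _ _).2 ⟨?_, by simpa using h4,
        by rw [List.sum_cons]; omega⟩, ?_⟩
      · intro a ha
        rcases List.mem_cons.1 ha with h' | h'
        · omega
        · exact h1 a (List.mem_cons_of_mem _ h')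
      · simp only [incH, List.cons.injEq, and_true]
        omega
  exact (Finset.finite_toSet _).subset e

/-- `π ^ m / π ^ n` is transcendental -/
theorem pairs_pi (hpi : Transcendental ℚ Real.pi) {n m : ℕ} (hnm : n ≠ m) :
    Transcendental ℚ (Real.pi ^ m / Real.pi ^ n) := by
  have hp : Real.pi ≠ 0 := Real.pi_ne_zero
  intro h
  rcases Nat.lt_or_ge n m with h1 | h1
  · have e : Real.pi ^ m / Real.pi ^ n = Real.pi ^ (m - n) := by
      rw [div_eq_iff (pow_ne_zero _ hp), ← pow_add]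
      congr 1
      omega
    rw [e] at h
    exact hpi (IsAlgebraic.of_pow (n := m - n) (by omega) h)
  · have e : (Real.pi ^ m / Real.pi ^ n)⁻¹ = Real.pi ^ (n - m) := by
      rw [inv_div, div_eq_iff (pow_ne_zero _ hp), ← pow_add]
      congr 1
      omega
    have h2 := h.inv
    rw [e] at h2
    exact hpi (IsAlgebraic.of_pow (n := n - m) (by omega) h2)

/-- the pairs -/
def PairsI (n r m s : ℕ) : Set (List ℕ × List ℕ) :=
  {p | (p.1 ∈ Idx n ∧ p.1.length = r) ∧ (p.2 ∈ Idx m ∧ p.2.length = s) ∧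
    ∀ a b : ℝ, IsAlgebraic ℚ a → IsAlgebraic ℚ b → a * mz p.1 + b * mz p.2 = 0 → a = 0 ∧ b = 0}

theorem pairs_count {r s M₁ M₂ N₁ N₂ : ℕ} (hr : 2 ≤ r) (hs : 2 ≤ s)
    (h₁ : Ineq r M₁ N₁) (h₂ : Ineq s M₂ N₂) (hpi : Transcendental ℚ Real.pi) (n m : ℕ)
    (hn : N₁ ≤ n) (hm : N₂ ≤ m) (hnm : n ≠ m) :
    n ^ (r - 1) * m ^ (s - 1) ≤ M₁ * M₂ * (PairsI n r m s).ncard := by
  classical
  -- first entries
  set S : Set (List ℕ) := {w | w ∈ Idx n ∧ w.length = r ∧
    ¬ ∃ a : ℝ, IsAlgebraic ℚ a ∧ mz w = a * Real.pi ^ m} with hS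
  have hSfin : S.Finite := (pairs_fin n r hr).subset (fun w hw => ⟨hw.1, hw.2.1⟩)
  have hS1 : n ^ (r - 1) ≤ M₁ * S.ncard := fin_line h₁ (Real.pi ^ m) n hn (pairs_pi hpi hnm)
  -- second entries
  let T : List ℕ → Set (List ℕ) := fun v => {w | w ∈ Idx m ∧ w.length = s ∧
    ¬ ∃ a : ℝ, IsAlgebraic ℚ a ∧ mz w = a * mz v}
  have hTfin : ∀ v, (T v).Finite := fun v =>
    (pairs_fin m s hs).subset (fun w hw => ⟨hw.1, hw.2.1⟩)
  have hT1 : ∀ v ∈ S, m ^ (s - 1) ≤ M₂ * (T v).ncard := by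
    intro v hv
    refine fin_line h₂ (mz v) m hm ?_
    intro halg
    apply hv.2.2
    refine ⟨mz v / Real.pi ^ m, halg, ?_⟩
    rw [div_mul_cancel₀ _ (pow_ne_zero _ Real.pi_ne_zero)]
  have hPfin : (PairsI n r m s).Finite := by
    refine ((pairs_fin n r hr).prod (pairs_fin m s hs)).subset ?_
    rintro ⟨v, w⟩ ⟨h1, h2, -⟩
    exact ⟨h1, h2⟩
  let F : Finset (List ℕ × List ℕ) := hSfin.toFinset.biUnion
    (fun v => (hTfin v).toFinset.image (fun w => (v, w)))
  have hF : (F : Set (List ℕ × List ℕ)) ⊆ PairsI n r m s := by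
    intro p hp
    rw [Finset.mem_coe, Finset.mem_biUnion] at hp
    obtain ⟨v, hv, hp⟩ := hp
    obtain ⟨w, hw, rfl⟩ := Finset.mem_image.1 hp
    rw [Set.Finite.mem_toFinset] at hv hw
    refine ⟨⟨hv.1, hv.2.1⟩, ⟨hw.1, hw.2.1⟩, ?_⟩
    intro a b ha hb h
    simp only at h
    have hv0 : mz v ≠ 0 := by
      intro h0
      exact hv.2.2 ⟨0, isAlgebraic_zero, by rw [h0, zero_mul]⟩
    have hb0 : b = 0 := by
      by_contra hb0
      apply hw.2.2
      refine ⟨-(a / b), (ha.mul hb.inv).neg, ?_⟩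
      field_simp
      linarith
    refine ⟨?_, hb0⟩
    rw [hb0, zero_mul, add_zero] at h
    exact (mul_eq_zero.1 h).resolve_right hv0
  have hcard : F.card = ∑ v ∈ hSfin.toFinset, (T v).ncard := by
    rw [Finset.card_biUnion]
    · refine Finset.sum_congr rfl fun v _ => ?_
      rw [Finset.card_image_of_injective _ (fun a b h => (Prod.mk.inj h).2),
        Set.ncard_eq_toFinset_card _ (hTfin v)]
    · intro v _ v' _ hne
      rw [Function.onFun, Finset.disjoint_left]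
      intro p hp hp'
      obtain ⟨w, -, rfl⟩ := Finset.mem_image.1 hp
      obtain ⟨w', -, h⟩ := Finset.mem_image.1 hp'
      exact hne (Prod.mk.inj h).1.symm
  have h1 : F.card ≤ (PairsI n r m s).ncard := by
    rw [← Set.ncard_coe_finset]
    exact Set.ncard_le_ncard hF hPfin
  have h2 : S.ncard * m ^ (s - 1) ≤ M₂ * F.card := by
    rw [hcard, Finset.mul_sum]
    calc S.ncard * m ^ (s - 1) = ∑ v ∈ hSfin.toFinset, m ^ (s - 1) := by
          rw [Finset.sum_const, smul_eq_mul, Set.ncard_eq_toFinset_card _ hSfin]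
      _ ≤ _ := Finset.sum_le_sum fun v hv => hT1 v ((Set.Finite.mem_toFinset _).1 hv)
  calc n ^ (r - 1) * m ^ (s - 1) ≤ M₁ * S.ncard * m ^ (s - 1) := Nat.mul_le_mul_right _ hS1
    _ = M₁ * (S.ncard * m ^ (s - 1)) := by ring
    _ ≤ M₁ * (M₂ * F.card) := Nat.mul_le_mul_left _ h2
    _ ≤ M₁ * (M₂ * (PairsI n r m s).ncard) :=
        Nat.mul_le_mul_left _ (Nat.mul_le_mul_left _ h1)
    _ = _ := by ring

/-- two different weights: linearly independent pairs over the real algebraic numbers -/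
theorem PAIRS {r s M₁ M₂ N₁ N₂ : ℕ} (hr : 2 ≤ r) (hs : 2 ≤ s)
    (h₁ : Ineq r M₁ N₁) (h₂ : Ineq s M₂ N₂) (hpi : Transcendental ℚ Real.pi) (n m : ℕ)
    (hn : N₁ ≤ n) (hm : N₂ ≤ m) (hnm : n ≠ m) :
    n ^ (r - 1) * m ^ (s - 1) ≤ M₁ * M₂ * {p : List ℕ × List ℕ |
      (p.1 ∈ Idx n ∧ p.1.length = r) ∧ (p.2 ∈ Idx m ∧ p.2.length = s) ∧
        LinearIndependent (algebraicClosure ℚ ℝ) ![mz p.1, mz p.2]}.ncard := by
  have e : {p : List ℕ × List ℕ | (p.1 ∈ Idx n ∧ p.1.length = r) ∧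
      (p.2 ∈ Idx m ∧ p.2.length = s) ∧
        LinearIndependent (algebraicClosure ℚ ℝ) ![mz p.1, mz p.2]} = PairsI n r m s := by
    ext p
    have h : LinearIndependent (algebraicClosure ℚ ℝ) ![mz p.1, mz p.2] ↔
        ∀ a b : ℝ, IsAlgebraic ℚ a → IsAlgebraic ℚ b → a * mz p.1 + b * mz p.2 = 0 →
          a = 0 ∧ b = 0 := by
      rw [LinearIndependent.pair_iff]
      constructor
      · intro h a b ha hb hab
        obtain ⟨h1, h2⟩ := h ⟨a, mem_algebraicClosure_iff.2 ha⟩ ⟨b, mem_algebraicClosure_iff.2 hb⟩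
          (by
            rw [Algebra.smul_def, Algebra.smul_def]
            exact hab)
        exact ⟨congrArg Subtype.val h1, congrArg Subtype.val h2⟩
      · intro h a b hab
        rw [Algebra.smul_def, Algebra.smul_def] at hab
        obtain ⟨h1, h2⟩ := h a b (mem_algebraicClosure_iff.1 a.2) (mem_algebraicClosure_iff.1 b.2)
          hab
        exact ⟨Subtype.ext h1, Subtype.ext h2⟩
    change (_ ∧ _ ∧ _) ↔ (_ ∧ _ ∧ _)
    rw [h]
  rw [e]
  exact pairs_count hr hs h₁ h₂ hpi n m hn hm hnm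

end Pool.Agent.MZG
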