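import Mathlib
import Pool.Agent.MZG.Defs

set_option autoImplicit false

/-!
# MZG, module TROP: tropical pigeonhole (helper65)
-/

namespace Pool.Agent.MZG

/-- one row: two indices are comparable with the largest term -/
theorem trop_row {N : ℕ} (w a : Fin N → ℝ) (T : Fin N → ℝ) (hw : ∀ j, 0 < w j)
    (hT : ∀ j, |T j - w j| ≤ w j / 2) {j₀ : Fin N} (ha : a j₀ ≠ 0) (h : ∑ j, a j * T j = 0) :
    ∃ j₁ j₂ : Fin N, j₁ ≠ j₂ ∧ (∀ j, |a j| * w j ≤ (3 * N) * (|a j₁| * w j₁)) ∧
      ∀ j, |a j| * w j ≤ (3 * N) * (|a j₂| * w j₂) := by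
  obtain ⟨m, -, hm⟩ := Finset.exists_max_image Finset.univ (fun j => |a j| * w j)
    ⟨j₀, Finset.mem_univ _⟩
  have hm' : ∀ j, |a j| * w j ≤ |a m| * w m := fun j => hm j (Finset.mem_univ _)
  have hpos : 0 < |a m| * w m := (mul_pos (abs_pos.2 ha) (hw j₀)).trans_le (hm' j₀)
  have hN : (1 : ℝ) ≤ N := by
    have : 1 ≤ N := by
      have := j₀.isLt
      omega
    exact_mod_cast this
  -- a second comparable index
  have hex : ∃ m' : Fin N, m' ≠ m ∧ |a m| * w m ≤ (3 * N) * (|a m'| * w m') := by
    by_contra hcon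
    push Not at hcon
    have h1 : a m * T m = - ∑ j ∈ Finset.univ.erase m, a j * T j := by
      rw [← Finset.add_sum_erase _ _ (Finset.mem_univ m)] at h
      linarith
    have hTl : w m / 2 ≤ |T m| := by
      have := (abs_le.1 (hT m)).1
      exact le_trans (by linarith) (le_abs_self _)
    have h2 : |a m| * w m / 2 ≤ |a m * T m| := by
      rw [abs_mul]
      have := mul_le_mul_of_nonneg_left hTl (abs_nonneg (a m))
      linarith
    have h3 : |a m * T m| ≤ ∑ j ∈ Finset.univ.erase m, |a m| * w m / (2 * N) := by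
      rw [h1, abs_neg]
      refine (Finset.abs_sum_le_sum_abs _ _).trans (Finset.sum_le_sum fun j hj => ?_)
      have hj' := hcon j (Finset.ne_of_mem_erase hj)
      rw [abs_mul]
      have hTu : |T j| ≤ 3 / 2 * w j := by
        have h4 := abs_le.1 (hT j)
        rw [abs_le]
        constructor <;> linarith [hw j]
      have h5 := mul_le_mul_of_nonneg_left hTu (abs_nonneg (a j))
      rw [le_div_iff₀ (by positivity)]
      nlinarith
    rw [Finset.sum_const, Finset.card_erase_of_mem (Finset.mem_univ m), Finset.card_univ,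
      Fintype.card_fin, nsmul_eq_mul] at h3
    have h6 : ((N - 1 : ℕ) : ℝ) = N - 1 := by
      have : 1 ≤ N := by exact_mod_cast hN
      push_cast [Nat.cast_sub this]
      ring
    rw [h6] at h3
    have h7 : ((N : ℝ) - 1) * (|a m| * w m / (2 * N)) < |a m| * w m / 2 := by
      rw [mul_div_assoc', div_lt_div_iff₀ (by positivity) (by norm_num)]
      nlinarith
    linarith
  obtain ⟨m', hne, hm''⟩ := hex
  have hA : ∀ j, |a j| * w j ≤ (3 * N) * (|a m| * w m) := fun j => by
    have := hm' j
    nlinarith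
  exact ⟨m', m, hne, fun j => (hm' j).trans hm'', hA⟩

theorem TROP : St_TROP := by
  intro N ρ hρ
  obtain ⟨n, hn⟩ := pow_unbounded_of_one_lt ((3 * (N : ℝ)) ^ 2) hρ
  set C := 2 * (n + 1) with hC
  have hCρ : (3 * (N : ℝ)) ^ 2 < ρ ^ C := hn.trans_le (pow_le_pow_right₀ hρ.le (by omega))
  refine ⟨C, by omega, ⟨n + 1, by omega⟩, ?_⟩
  intro v B η μ hv hB hsep hη h
  by_contra hcon
  push Not at hcon
  obtain ⟨j₀, hj₀⟩ := hcon
  have hN0 : 0 < N := by
    have := j₀.isLt
    omega
  have hN1 : (1 : ℝ) ≤ N := by exact_mod_cast hN0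
  set a : Fin N → ℝ := fun j => B j * μ j with ha
  have ha0 : a j₀ ≠ 0 := mul_ne_zero (hB j₀) hj₀
  have hrow : ∀ i : Fin N, ∃ j₁ j₂ : Fin N, j₁ ≠ j₂ ∧
      (∀ j, |a j| * v j ^ (C * (i : ℕ)) ≤ (3 * N) * (|a j₁| * v j₁ ^ (C * (i : ℕ)))) ∧
      ∀ j, |a j| * v j ^ (C * (i : ℕ)) ≤ (3 * N) * (|a j₂| * v j₂ ^ (C * (i : ℕ))) := by
    intro i
    apply trop_row (fun j => v j ^ (C * (i : ℕ))) a
      (fun j => v j ^ (C * (i : ℕ)) * (1 + η i j)) (fun j => pow_pos (hv j) _) _ ha0
    · rw [← h i]
      apply Finset.sum_congr rfl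
      intro j _
      simp only [ha]
      ring
    · intro j
      have h1 : v j ^ (C * (i : ℕ)) * (1 + η i j) - v j ^ (C * (i : ℕ)) =
          v j ^ (C * (i : ℕ)) * η i j := by ring
      have h2 : 0 < v j ^ (C * (i : ℕ)) := pow_pos (hv j) _
      rw [h1, abs_mul, abs_of_pos h2]
      nlinarith [hη i j]
  have hlt_or : ∀ j l, j ≠ l → v j < v l ∨ v l < v j := by
    intro j l hjl
    rcases hsep j l hjl with h1 | h1
    · left
      nlinarith [hv j]
    · right
      nlinarith [hv l]
  have hgap : ∀ j l, v j < v l → (3 * (N : ℝ)) ^ 2 * v j ^ C < v l ^ C := by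
    intro j l hjl
    have hne : j ≠ l := by
      rintro rfl
      exact lt_irrefl _ hjl
    have h1 : ρ * v j ≤ v l := by
      rcases hsep j l hne with h1 | h1
      · exact h1
      · nlinarith [hv l, hv j]
    have h2 : (ρ * v j) ^ C ≤ v l ^ C :=
      pow_le_pow_left₀ (by nlinarith [hv j]) h1 C
    rw [mul_pow] at h2
    have h3 : 0 < v j ^ C := pow_pos (hv j) _
    nlinarith
  have key : ∀ i : ℕ, i < N → ∃ b : Fin N,
      i + 1 ≤ (Finset.univ.filter fun j => v j < v b).card ∧
      ∀ j, |a j| * v j ^ (C * i) ≤ (3 * N) * (|a b| * v b ^ (C * i)) := by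
    intro i
    induction i with
    | zero =>
      intro h0
      obtain ⟨j₁, j₂, hne, h1, h2⟩ := hrow ⟨0, h0⟩
      rcases hlt_or j₁ j₂ hne with h3 | h3
      · refine ⟨j₂, ?_, h2⟩
        exact Finset.card_pos.2 ⟨j₁, by simpa using h3⟩
      · refine ⟨j₁, ?_, h1⟩
        exact Finset.card_pos.2 ⟨j₂, by simpa using h3⟩
    | succ i ih =>
      intro hi
      obtain ⟨b, hb, hbj⟩ := ih (by omega)
      have hb0 : 0 < |a b| * v b ^ (C * i) := by
        have h3 : 0 < |a j₀| * v j₀ ^ (C * i) := mul_pos (abs_pos.2 ha0) (pow_pos (hv j₀) _)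
        have h4 := hbj j₀
        by_contra h5
        push Not at h5
        nlinarith
      -- a comparable index of the new row is not below b
      have hge : ∀ l : Fin N, (∀ j, |a j| * v j ^ (C * (i + 1)) ≤
          (3 * N) * (|a l| * v l ^ (C * (i + 1)))) → v b ≤ v l := by
        intro l hl
        by_contra hlt
        push Not at hlt
        have h5 := hl b
        have h6 := hbj l
        have hs : ∀ j, v j ^ (C * (i + 1)) = v j ^ (C * i) * v j ^ C := by
          intro j
          rw [← pow_add]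
          congr 1
        rw [hs b, hs l] at h5
        have h7 := hgap l b hlt
        have hp1 : 0 < v l ^ C := pow_pos (hv l) _
        have h8 : |a l| * (v l ^ (C * i) * v l ^ C) ≤
            (3 * N) * (|a b| * v b ^ (C * i)) * v l ^ C := by
          calc |a l| * (v l ^ (C * i) * v l ^ C) = (|a l| * v l ^ (C * i)) * v l ^ C := by ring
            _ ≤ _ := mul_le_mul_of_nonneg_right h6 hp1.le
        have h10 : (3 * (N : ℝ)) * (|a l| * (v l ^ (C * i) * v l ^ C)) ≤
            (3 * (N : ℝ)) * ((3 * N) * (|a b| * v b ^ (C * i)) * v l ^ C) :=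
          mul_le_mul_of_nonneg_left h8 (by positivity)
        have h9 : |a b| * v b ^ (C * i) * v b ^ C ≤
            |a b| * v b ^ (C * i) * ((3 * (N : ℝ)) ^ 2 * v l ^ C) := by
          calc |a b| * v b ^ (C * i) * v b ^ C = |a b| * (v b ^ (C * i) * v b ^ C) := by ring
            _ ≤ (3 * N) * (|a l| * (v l ^ (C * i) * v l ^ C)) := h5
            _ ≤ _ := h10
            _ = _ := by ring
        have h11 := le_of_mul_le_mul_left h9 hb0
        linarith
      obtain ⟨j₁, j₂, hne, h1, h2⟩ := hrow ⟨i + 1, hi⟩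
      have hcard : ∀ l l' : Fin N, v b ≤ v l → v l < v l' →
          i + 1 + 1 ≤ (Finset.univ.filter fun j => v j < v l').card := by
        intro l l' hl hl'
        have h3 : insert l (Finset.univ.filter fun j => v j < v b) ⊆
            Finset.univ.filter fun j => v j < v l' := by
          intro j hj
          rw [Finset.mem_insert, Finset.mem_filter] at hj
          rw [Finset.mem_filter]
          refine ⟨Finset.mem_univ _, ?_⟩
          rcases hj with rfl | hj
          · exact hl'
          · exact (hj.2.trans_le hl).trans hl'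
        have h4 : l ∉ Finset.univ.filter fun j => v j < v b := by
          rw [Finset.mem_filter]
          rintro ⟨-, h5⟩
          linarith
        have h5 := Finset.card_le_card h3
        rw [Finset.card_insert_of_notMem h4] at h5
        omega
      rcases hlt_or j₁ j₂ hne with h3 | h3
      · exact ⟨j₂, hcard j₁ j₂ (hge j₁ h1) h3, h2⟩
      · exact ⟨j₁, hcard j₂ j₁ (hge j₂ h2) h3, h1⟩
  obtain ⟨b, hb, -⟩ := key (N - 1) (by omega)
  have h1 : (Finset.univ.filter fun j => v j < v b) ⊆ Finset.univ.erase b := by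
    intro j hj
    rw [Finset.mem_filter] at hj
    rw [Finset.mem_erase]
    refine ⟨?_, Finset.mem_univ _⟩
    rintro rfl
    exact lt_irrefl _ hj.2
  have h2 := Finset.card_le_card h1
  rw [Finset.card_erase_of_mem (Finset.mem_univ b), Finset.card_univ, Fintype.card_fin] at h2
  omega

end Pool.Agent.MZG
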