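import Pool.Agent.MZG.PAIRS

set_option autoImplicit false

/-!
# MZG: tuples of multiple zeta values of several weights (helper46)
-/

namespace Pool.Agent.MZG

open Pool.Agent.Helper21 (mzv H zl Adm)
open Pool.Agent.MZA
open Finset

/-- tuples of words of weights `n i` and depths `r i`, independent modulo `V` -/
def TupI {K : IntermediateField ℚ ℝ} (V : Submodule K ℝ) {l : ℕ} (r n : Fin l → ℕ) :
    Set (Fin l → List ℕ) :=
  {w | (∀ i, w i ∈ Idx (n i) ∧ (w i).length = r i) ∧
    LinearIndependent K (fun i => V.mkQ (mz (w i)))}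

theorem tup_fin {K : IntermediateField ℚ ℝ} (V : Submodule K ℝ) {l : ℕ} (r n : Fin l → ℕ)
    (hr : ∀ i, 2 ≤ r i) : (TupI V r n).Finite := by
  refine (Set.Finite.pi' fun i => pairs_fin (n i) (r i) (hr i)).subset ?_
  rintro w ⟨h1, -⟩ i
  exact h1 i

/-- the space generated by `V` and the values of the words -/
noncomputable def ext {K : IntermediateField ℚ ℝ} (V : Submodule K ℝ) {l : ℕ} (w : Fin l → List ℕ) :
    Submodule K ℝ := V ⊔ Submodule.span K (Set.range fun i => mz (w i))

theorem ext_fin {K : IntermediateField ℚ ℝ} (V : Submodule K ℝ) [Module.Finite K V] {l : ℕ}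
    (w : Fin l → List ℕ) : Module.Finite K (ext V w) ∧
      Module.finrank K (ext V w) ≤ Module.finrank K V + l := by
  have i1 : Module.Finite K (Submodule.span K (Set.range fun i => mz (w i))) :=
    FiniteDimensional.span_of_finite K (Set.finite_range _)
  constructor
  · unfold ext
    infer_instance
  · have h1 := Submodule.finrank_add_le_finrank_add_finrank V
      (Submodule.span K (Set.range fun i => mz (w i)))
    have h2 := finrank_range_le_card (R := K) (fun i => mz (w i))
    rw [Fintype.card_fin] at h2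
    unfold ext
    exact h1.trans (Nat.add_le_add_left h2 _)

theorem tup_indep {K : IntermediateField ℚ ℝ} (V : Submodule K ℝ) {l : ℕ} (w : Fin l → List ℕ)
    (v : List ℕ) (h : LinearIndependent K (fun i => V.mkQ (mz (w i)))) (hv : mz v ∉ ext V w) :
    LinearIndependent K (fun i => V.mkQ (mz ((Fin.snoc w v : Fin (l + 1) → List ℕ) i))) := by
  have e : (fun i => V.mkQ (mz ((Fin.snoc w v : Fin (l + 1) → List ℕ) i))) =
      (Fin.snoc (fun i => V.mkQ (mz (w i))) (V.mkQ (mz v)) : Fin (l + 1) → ℝ ⧸ V) := by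
    funext i
    refine Fin.lastCases ?_ (fun j => ?_) i
    · rw [Fin.snoc_last, Fin.snoc_last]
    · rw [Fin.snoc_castSucc, Fin.snoc_castSucc]
  rw [e, linearIndependent_finSnoc]
  refine ⟨h, fun h1 => hv ?_⟩
  have e2 : (Set.range fun i => V.mkQ (mz (w i))) = V.mkQ '' (Set.range fun i => mz (w i)) := by
    rw [← Set.range_comp]
    rfl
  rw [e2, ← Submodule.map_span] at h1
  have h2 : mz v ∈ Submodule.comap V.mkQ
      (Submodule.map V.mkQ (Submodule.span K (Set.range fun i => mz (w i)))) := h1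
  rwa [Submodule.comap_map_mkQ] at h2

/-- extend the tuples in `G` by one word of weight `m` -/
theorem tup_step {K : IntermediateField ℚ ℝ} (V : Submodule K ℝ) {l : ℕ} (r : Fin (l + 1) → ℕ)
    (hr : ∀ i, 2 ≤ r i) (n : Fin l → ℕ) (m : ℕ) (G : Finset (Fin l → List ℕ))
    (hG : ∀ w ∈ G, w ∈ TupI V (fun i => r i.castSucc) n) (M t : ℕ)
    (hM : ∀ w ∈ G, t ≤ M * (OutK m (r (Fin.last l)) (ext V w)).ncard) :
    G.card * t ≤ M * (TupI V r (Fin.snoc n m : Fin (l + 1) → ℕ)).ncard := by
  classical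
  have hfin : ∀ w : Fin l → List ℕ, (OutK m (r (Fin.last l)) (ext V w)).Finite := fun w =>
    (pairs_fin m (r (Fin.last l)) (hr _)).subset (fun v hv => ⟨hv.1, hv.2.1⟩)
  let F : Finset (Fin (l + 1) → List ℕ) := G.biUnion (fun w =>
    (hfin w).toFinset.image (fun v => (Fin.snoc w v : Fin (l + 1) → List ℕ)))
  have hF : (F : Set (Fin (l + 1) → List ℕ)) ⊆ TupI V r (Fin.snoc n m : Fin (l + 1) → ℕ) := by
    intro p hp
    rw [Finset.mem_coe, Finset.mem_biUnion] at hp
    obtain ⟨w, hw, hp⟩ := hp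
    obtain ⟨v, hv, rfl⟩ := Finset.mem_image.1 hp
    rw [Set.Finite.mem_toFinset] at hv
    obtain ⟨h1, h2⟩ := hG w hw
    refine ⟨?_, tup_indep V w v h2 hv.2.2⟩
    intro i
    refine Fin.lastCases ?_ (fun j => ?_) i
    · rw [Fin.snoc_last, Fin.snoc_last]
      exact ⟨hv.1, hv.2.1⟩
    · rw [Fin.snoc_castSucc, Fin.snoc_castSucc]
      exact h1 j
  have hcard : F.card = ∑ w ∈ G, (OutK m (r (Fin.last l)) (ext V w)).ncard := by
    rw [Finset.card_biUnion]
    · refine Finset.sum_congr rfl fun w _ => ?_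
      rw [Finset.card_image_of_injective, Set.ncard_eq_toFinset_card _ (hfin w)]
      intro a b h
      have h1 := congrFun h (Fin.last l)
      simpa only [Fin.snoc_last] using h1
    · intro w _ w' _ hne
      rw [Function.onFun, Finset.disjoint_left]
      intro p hp hp'
      obtain ⟨v, -, rfl⟩ := Finset.mem_image.1 hp
      obtain ⟨v', -, h⟩ := Finset.mem_image.1 hp'
      apply hne
      funext i
      have h1 := congrFun h i.castSucc
      simpa only [Fin.snoc_castSucc] using h1.symm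
  have h1 : F.card ≤ (TupI V r (Fin.snoc n m : Fin (l + 1) → ℕ)).ncard := by
    rw [← Set.ncard_coe_finset]
    exact Set.ncard_le_ncard hF (tup_fin V r _ hr)
  calc G.card * t = ∑ w ∈ G, t := by rw [Finset.sum_const, smul_eq_mul]
    _ ≤ ∑ w ∈ G, M * (OutK m (r (Fin.last l)) (ext V w)).ncard := Finset.sum_le_sum hM
    _ = M * F.card := by rw [hcard, Finset.mul_sum]
    _ ≤ _ := Nat.mul_le_mul_left _ h1

/-- double counting -/
theorem tup_markov {α : Type*} (G : Finset α) (E : α → Finset ℕ) (B : ℕ)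
    (hE : ∀ w ∈ G, (E w).card ≤ B) (S : Finset ℕ)
    (hS : ∀ m ∈ S, G.card < 2 * (G.filter (fun w => m ∈ E w)).card) : S.card ≤ 2 * B := by
  classical
  rcases Nat.eq_zero_or_pos G.card with h0 | h0
  · have hG : G = ∅ := Finset.card_eq_zero.1 h0
    have : S = ∅ := by
      by_contra hne
      obtain ⟨m, hm⟩ := Finset.nonempty_iff_ne_empty.2 hne
      have h1 := hS m hm
      rw [hG] at h1
      simp at h1
    rw [this]
    simp
  · have h1 : G.card * S.card ≤ G.card * (2 * B) := by
      calc G.card * S.card = ∑ m ∈ S, G.card := by rw [Finset.sum_const, smul_eq_mul, mul_comm]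
        _ ≤ ∑ m ∈ S, 2 * (G.filter (fun w => m ∈ E w)).card :=
            Finset.sum_le_sum fun m hm => (hS m hm).le
        _ = 2 * ∑ m ∈ S, ∑ w ∈ G, (if m ∈ E w then 1 else 0) := by
            rw [← Finset.mul_sum]
            congr 1
            exact Finset.sum_congr rfl fun m _ => Finset.card_filter _ _
        _ = 2 * ∑ w ∈ G, (S.filter (fun m => m ∈ E w)).card := by
            rw [Finset.sum_comm]
            congr 1
            exact Finset.sum_congr rfl fun w _ => (Finset.card_filter _ _).symm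
        _ ≤ 2 * ∑ w ∈ G, B := by
            refine Nat.mul_le_mul_left _ (Finset.sum_le_sum fun w hw => ?_)
            refine (Finset.card_le_card ?_).trans (hE w hw)
            intro m hm
            exact (Finset.mem_filter.1 hm).2
        _ = G.card * (2 * B) := by
            rw [Finset.sum_const, smul_eq_mul]
            ring
    exact Nat.le_of_mul_le_mul_left h1 h0

/-- there are too few tuples for the weights `n` -/
def BadT {K : IntermediateField ℚ ℝ} (M : ℕ → ℕ) (V : Submodule K ℝ) {l : ℕ} (r n : Fin l → ℕ) :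
    Prop := ¬ (∏ i, n i ^ (r i - 1) ≤ (∏ i, 2 * M (r i)) * (TupI V r n).ncard)

theorem tup_last {K : IntermediateField ℚ ℝ} (hK : Transcendental K Real.pi) (M N : ℕ → ℕ)
    (hI : ∀ r, 3 ≤ r → Ineq r (M r) (N r)) (V : Submodule K ℝ) [Module.Finite K V] {l : ℕ}
    (r : Fin (l + 1) → ℕ) (hr : ∀ i, 3 ≤ r i) (n : Fin l → ℕ)
    (hn : ¬ BadT M V (fun i => r i.castSucc) n) (S : Finset ℕ)
    (hS : ∀ m ∈ S, N (r (Fin.last l)) ≤ m ∧ BadT M V r (Fin.snoc n m : Fin (l + 1) → ℕ)) :
    S.card ≤ 2 * (Module.finrank K V + l) ^ 4 := by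
  classical
  have hr2 : ∀ i, 2 ≤ r i := fun i => (by norm_num : 2 ≤ 3).trans (hr i)
  have hfin := tup_fin V (fun i => r i.castSucc) n (fun i => hr2 _)
  set G := hfin.toFinset with hG
  have hE : ∀ w : Fin l → List ℕ, ∃ E : Finset ℕ, E.card ≤ (Module.finrank K V + l) ^ 4 ∧
      ∀ m : ℕ, m ∉ E → ∀ v ∈ ext V w, Real.pi ^ (2 * m) * v ∈ ext V w * ext V w * ext V w →
        v = 0 := by
    intro w
    obtain ⟨h1, h2⟩ := ext_fin V w
    obtain ⟨E, h3, h4⟩ := fin_space K hK (ext V w) h1
    exact ⟨E, h3.trans (Nat.pow_le_pow_left h2 4), h4⟩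
  choose E hE1 hE2 using hE
  refine tup_markov G E _ (fun w _ => hE1 w) S (fun m hm => ?_)
  obtain ⟨hNm, hbad⟩ := hS m hm
  by_contra hcon
  apply hbad
  rw [BadT, not_not] at hn
  have h1 := tup_step V r hr2 n m (G.filter (fun w => m ∉ E w))
    (fun w hw => (Set.Finite.mem_toFinset hfin).1 (Finset.mem_filter.1 hw).1)
    (M (r (Fin.last l))) (m ^ (r (Fin.last l) - 1))
    (fun w hw => hI _ (hr _) K (ext V w) m hNm (hE2 w m (Finset.mem_filter.1 hw).2))
  have h2 : G.card ≤ 2 * (G.filter (fun w => m ∉ E w)).card := by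
    have h3 := Finset.card_filter_add_card_filter_not (s := G) (fun w => m ∈ E w)
    omega
  have hGc : G.card = (TupI V (fun i => r i.castSucc) n).ncard := by
    rw [hG, Set.ncard_eq_toFinset_card _ hfin]
  rw [← hGc] at hn
  rw [Fin.prod_univ_castSucc, Fin.prod_univ_castSucc]
  simp only [Fin.snoc_castSucc, Fin.snoc_last]
  calc (∏ i : Fin l, n i ^ (r i.castSucc - 1)) * m ^ (r (Fin.last l) - 1)
      ≤ ((∏ i : Fin l, 2 * M (r i.castSucc)) * G.card) * m ^ (r (Fin.last l) - 1) :=
        Nat.mul_le_mul_right _ hn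
    _ ≤ ((∏ i : Fin l, 2 * M (r i.castSucc)) * (2 * (G.filter (fun w => m ∉ E w)).card)) *
          m ^ (r (Fin.last l) - 1) :=
        Nat.mul_le_mul_right _ (Nat.mul_le_mul_left _ h2)
    _ = (∏ i : Fin l, 2 * M (r i.castSucc)) * 2 *
          ((G.filter (fun w => m ∉ E w)).card * m ^ (r (Fin.last l) - 1)) := by ring
    _ ≤ (∏ i : Fin l, 2 * M (r i.castSucc)) * 2 *
          (M (r (Fin.last l)) * (TupI V r (Fin.snoc n m : Fin (l + 1) → ℕ)).ncard) :=
        Nat.mul_le_mul_left _ h1
    _ = _ := by ring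

/-- the bad tuples of weights up to `X` -/
theorem tup_count {K : IntermediateField ℚ ℝ} (hK : Transcendental K Real.pi) (M N : ℕ → ℕ)
    (hN : ∀ r, 1 ≤ N r) (hI : ∀ r, 3 ≤ r → Ineq r (M r) (N r)) (V : Submodule K ℝ)
    [Module.Finite K V] (X : ℕ) : ∀ (l : ℕ) (r : Fin l → ℕ), (∀ i, 3 ≤ r i) →
      {n : Fin l → ℕ | (∀ i, N (r i) ≤ n i ∧ n i ≤ X) ∧ BadT M V r n}.ncard ≤
        2 * l * (Module.finrank K V + l) ^ 4 * X ^ (l - 1) := by
  classical
  intro l
  induction l with
  | zero =>
    intro r hr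
    have e : {n : Fin 0 → ℕ | (∀ i, N (r i) ≤ n i ∧ n i ≤ X) ∧ BadT M V r n} = ∅ := by
      ext n
      refine iff_of_false ?_ (Set.notMem_empty _)
      rintro ⟨-, h⟩
      apply h
      simp only [Finset.univ_eq_empty, Finset.prod_empty, one_mul]
      have h1 : TupI V r n = Set.univ := by
        ext w
        simp only [Set.mem_univ, iff_true]
        exact ⟨fun i => i.elim0, linearIndependent_empty_type⟩
      rw [h1, Set.ncard_univ]
      simp
    rw [e]
    simp
  | succ l ih =>
    intro r hr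
    set r' : Fin l → ℕ := fun i => r i.castSucc with hr'
    -- boxes
    set Box : Finset (Fin l → ℕ) := Fintype.piFinset (fun _ => Finset.Icc 1 X) with hBox
    have hBoxc : Box.card = X ^ l := by
      rw [hBox, Fintype.card_piFinset]
      simp
    let S : (Fin l → ℕ) → Finset ℕ := fun n => (Finset.Icc 1 X).filter (fun m =>
      N (r (Fin.last l)) ≤ m ∧ BadT M V r (Fin.snoc n m : Fin (l + 1) → ℕ))
    let B₀ : Finset (Fin l → ℕ) := Box.filter (fun n =>
      (∀ i, N (r' i) ≤ n i ∧ n i ≤ X) ∧ BadT M V r' n)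
    let B₁ : Finset (Fin l → ℕ) := Box.filter (fun n => ¬ BadT M V r' n)
    have hsub : {n : Fin (l + 1) → ℕ | (∀ i, N (r i) ≤ n i ∧ n i ≤ X) ∧ BadT M V r n} ⊆
        (((B₀ ∪ B₁).biUnion (fun n => (S n).image (fun m => (Fin.snoc n m : Fin (l + 1) → ℕ))) :
          Finset (Fin (l + 1) → ℕ)) : Set (Fin (l + 1) → ℕ)) := by
      rintro n ⟨h1, h2⟩
      rw [Finset.mem_coe, Finset.mem_biUnion]
      have e : (Fin.snoc (Fin.init n) (n (Fin.last l)) : Fin (l + 1) → ℕ) = n :=
        Fin.snoc_init_self n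
      have hb : Fin.init n ∈ Box := by
        rw [hBox, Fintype.mem_piFinset]
        intro i
        rw [Finset.mem_Icc]
        exact ⟨(hN _).trans (h1 i.castSucc).1, (h1 i.castSucc).2⟩
      refine ⟨Fin.init n, ?_, ?_⟩
      · rw [Finset.mem_union, Finset.mem_filter, Finset.mem_filter]
        by_cases hbad : BadT M V r' (Fin.init n)
        · exact Or.inl ⟨hb, fun i => h1 i.castSucc, hbad⟩
        · exact Or.inr ⟨hb, hbad⟩
      · rw [Finset.mem_image]
        refine ⟨n (Fin.last l), ?_, e⟩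
        rw [Finset.mem_filter, Finset.mem_Icc]
        refine ⟨⟨(hN _).trans (h1 _).1, (h1 _).2⟩, (h1 _).1, ?_⟩
        rw [e]
        exact h2
    have h0 : {n : Fin (l + 1) → ℕ | (∀ i, N (r i) ≤ n i ∧ n i ≤ X) ∧ BadT M V r n}.ncard ≤
        ∑ n ∈ B₀ ∪ B₁, (S n).card := by
      refine (Set.ncard_le_ncard hsub (Finset.finite_toSet _)).trans ?_
      rw [Set.ncard_coe_finset]
      refine Finset.card_biUnion_le.trans (Finset.sum_le_sum fun n _ => Finset.card_image_le)
    have hS0 : ∀ n, (S n).card ≤ X := by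
      intro n
      refine (Finset.card_filter_le _ _).trans ?_
      rw [Nat.card_Icc]
      omega
    have hS1 : ∀ n ∈ B₁, (S n).card ≤ 2 * (Module.finrank K V + l) ^ 4 := by
      intro n hn
      refine tup_last hK M N hI V r hr n (Finset.mem_filter.1 hn).2 (S n) (fun m hm => ?_)
      exact (Finset.mem_filter.1 hm).2
    have hB₀ : B₀.card ≤ 2 * l * (Module.finrank K V + l) ^ 4 * X ^ (l - 1) := by
      refine le_trans ?_ (ih r' (fun i => hr _))
      rw [← Set.ncard_coe_finset]
      refine Set.ncard_le_ncard ?_ ?_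
      · intro n hn
        rw [Finset.mem_coe, Finset.mem_filter] at hn
        exact hn.2
      · refine (Finset.finite_toSet Box).subset ?_
        rintro n ⟨h1, -⟩
        rw [Finset.mem_coe, hBox, Fintype.mem_piFinset]
        intro i
        rw [Finset.mem_Icc]
        exact ⟨(hN _).trans (h1 i).1, (h1 i).2⟩
    have hB₁ : B₁.card ≤ X ^ l := by
      rw [← hBoxc]
      exact Finset.card_filter_le _ _
    have h3 : ∑ n ∈ B₀ ∪ B₁, (S n).card ≤ B₀.card * X + B₁.card * (2 * (Module.finrank K V + l) ^ 4) := by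
      calc ∑ n ∈ B₀ ∪ B₁, (S n).card ≤ ∑ n ∈ B₀, (S n).card + ∑ n ∈ B₁, (S n).card :=
            by
              rw [← Finset.sum_union_inter]
              exact Nat.le_add_right _ _
        _ ≤ ∑ n ∈ B₀, X + ∑ n ∈ B₁, 2 * (Module.finrank K V + l) ^ 4 :=
            Nat.add_le_add (Finset.sum_le_sum fun n _ => hS0 n) (Finset.sum_le_sum hS1)
        _ = _ := by rw [Finset.sum_const, Finset.sum_const, smul_eq_mul, smul_eq_mul]
    have h4 : B₀.card * X ≤ 2 * l * (Module.finrank K V + l) ^ 4 * X ^ l := by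
      rcases Nat.eq_zero_or_pos l with hl | hl
      · subst hl
        have : B₀.card = 0 := by simpa using hB₀
        rw [this]
        simp
      · calc B₀.card * X ≤ 2 * l * (Module.finrank K V + l) ^ 4 * X ^ (l - 1) * X :=
              Nat.mul_le_mul_right _ hB₀
          _ = 2 * l * (Module.finrank K V + l) ^ 4 * X ^ l := by
              rw [mul_assoc, ← pow_succ]
              congr 2
              omega
    have h5 : (Module.finrank K V + l) ^ 4 ≤ (Module.finrank K V + (l + 1)) ^ 4 :=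
      Nat.pow_le_pow_left (by omega) 4
    calc _ ≤ ∑ n ∈ B₀ ∪ B₁, (S n).card := h0
      _ ≤ B₀.card * X + B₁.card * (2 * (Module.finrank K V + l) ^ 4) := h3
      _ ≤ 2 * l * (Module.finrank K V + l) ^ 4 * X ^ l +
          X ^ l * (2 * (Module.finrank K V + l) ^ 4) :=
          Nat.add_le_add h4 (Nat.mul_le_mul_right _ hB₁)
      _ = 2 * (l + 1) * (Module.finrank K V + l) ^ 4 * X ^ l := by ring
      _ ≤ 2 * (l + 1) * (Module.finrank K V + (l + 1)) ^ 4 * X ^ l :=
          Nat.mul_le_mul_right _ (Nat.mul_le_mul_left _ h5)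
      _ = 2 * (l + 1) * (Module.finrank K V + (l + 1)) ^ 4 * X ^ (l + 1 - 1) := by
          rw [Nat.add_sub_cancel]

end Pool.Agent.MZG
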