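import Pool.Agent.MZG.FIN
import Pool.Agent.MZG.F

set_option autoImplicit false

/-!
# MZG / TUPS: independent tuples of multiple zeta values of different weights (helper16)
-/

namespace Pool.Agent.MZG

open Pool.Agent.Helper21 (mzv H zl Adm)
open Pool.Agent.MZA Pool.Agent.MZF
open Finset

variable {K : IntermediateField ℚ ℝ}

/-- `x 0, x 1, ..` are linearly independent over `K` modulo `V` -/
def IndepK (V : Submodule K ℝ) {l : ℕ} (x : Fin l → ℝ) : Prop :=
  ∀ c : Fin l → K, ∑ i, (c i : ℝ) * x i ∈ V → ∀ i, c i = 0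

/-- the tuples of indices of weights `n i` and depth `r` whose multiple zeta values are independent
modulo `V` -/
def Tup (r : ℕ) (V : Submodule K ℝ) {l : ℕ} (n : Fin l → ℕ) : Set (Fin l → List ℕ) :=
  {w | (∀ i, w i ∈ Idx (n i) ∧ (w i).length = r) ∧ IndepK V (fun i => mz (w i))}

/-- the constant: `C(0, k) = 0`, `C(l + 1, k) = k ^ 4 + 2 C(l, k + 1)` -/
def CC : ℕ → ℕ → ℕ
  | 0, _ => 0
  | l + 1, k => k ^ 4 + 2 * CC l (k + 1)

/-- the box -/
def bx (n₀ X l : ℕ) : Finset (Fin l → ℕ) := Fintype.piFinset fun _ => Icc n₀ X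

theorem mem_bx {n₀ X l : ℕ} {n : Fin l → ℕ} : n ∈ bx n₀ X l ↔ ∀ i, n₀ ≤ n i ∧ n i ≤ X := by
  simp [bx]

theorem card_bx {n₀ X : ℕ} (h : 1 ≤ n₀) (l : ℕ) : (bx n₀ X l).card ≤ X ^ l := by
  unfold bx
  rw [Fintype.card_piFinset, prod_const, card_univ, Fintype.card_fin, Nat.card_Icc]
  exact Nat.pow_le_pow_left (by omega) _

theorem Tup_finite (r : ℕ) (V : Submodule K ℝ) {l : ℕ} (n : Fin l → ℕ) : (Tup r V n).Finite :=
  (Set.Finite.pi' fun i => F_idx_finite (n i)).subset fun _ hw i => (hw.1 i).1

theorem OutK_finite (r : ℕ) (V : Submodule K ℝ) (n : ℕ) : (OutK n r V).Finite :=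
  (F_idx_finite n).subset fun _ hw => hw.1

/-- one more index in front -/
theorem Tup_cons {r : ℕ} {V : Submodule K ℝ} {l : ℕ} {a : ℕ} {n : Fin l → ℕ} {w : List ℕ}
    {u : Fin l → List ℕ} (hw : w ∈ OutK a r V) (hu : u ∈ Tup r (V ⊔ Submodule.span K {mz w}) n) :
    (Fin.cons w u : Fin (l + 1) → List ℕ) ∈ Tup r V (Fin.cons a n : Fin (l + 1) → ℕ) := by
  refine ⟨fun i => ?_, ?_⟩
  · refine Fin.cases ?_ (fun i => ?_) i
    · simp only [Fin.cons_zero]
      exact ⟨hw.1, hw.2.1⟩
    · simp only [Fin.cons_succ]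
      exact hu.1 i
  · intro c hc
    rw [Fin.sum_univ_succ] at hc
    simp only [Fin.cons_zero, Fin.cons_succ] at hc
    have h1 : ∑ i : Fin l, (c i.succ : ℝ) * mz (u i) ∈ V ⊔ Submodule.span K {mz w} := by
      have h2 : (c 0 : ℝ) * mz w ∈ V ⊔ Submodule.span K {mz w} :=
        Submodule.mem_sup_right (Submodule.mem_span_singleton.2 ⟨c 0, by
          rw [Algebra.smul_def]
          rfl⟩)
      have h3 : ((c 0 : ℝ) * mz w + ∑ i : Fin l, (c i.succ : ℝ) * mz (u i)) - (c 0 : ℝ) * mz w ∈
          V ⊔ Submodule.span K {mz w} := Submodule.sub_mem _ (Submodule.mem_sup_left hc) h2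
      rwa [add_sub_cancel_left] at h3
    have h4 := hu.2 (fun i => c i.succ) h1
    have h0 : c 0 = 0 := by
      by_contra hne
      apply hw.2.2
      have h5 : ∑ i : Fin l, (c i.succ : ℝ) * mz (u i) = 0 := by
        refine sum_eq_zero fun i _ => ?_
        rw [h4 i]
        simp
      rw [h5, add_zero] at hc
      have h6 := V.smul_mem (c 0)⁻¹ hc
      rw [Algebra.smul_def] at h6
      have h7 : (algebraMap K ℝ (c 0)⁻¹) * ((c 0 : ℝ) * mz w) = mz w := by
        have h8 : (algebraMap K ℝ (c 0)⁻¹) = ((c 0 : ℝ))⁻¹ := by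
          rw [map_inv₀]
          rfl
        rw [h8, inv_mul_cancel_left₀]
        exact fun h => hne (Subtype.ext h)
      rwa [h7] at h6
    intro i
    refine Fin.cases h0 (fun i => ?_) i
    exact h4 i

/-- the number of independent tuples -/
theorem Tup_sum (r : ℕ) (V : Submodule K ℝ) {l : ℕ} (a : ℕ) (n : Fin l → ℕ) :
    ∑ w ∈ (OutK_finite r V a).toFinset, (Tup r (V ⊔ Submodule.span K {mz w}) n).ncard ≤
      (Tup r V (Fin.cons a n : Fin (l + 1) → ℕ)).ncard := by
  classical
  have h1 : ∀ w, (Tup r (V ⊔ Submodule.span K {mz w}) n).ncard =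
      ((Tup_finite r (V ⊔ Submodule.span K {mz w}) n).toFinset).card := fun w =>
    Set.ncard_eq_toFinset_card _ _
  rw [sum_congr rfl fun w _ => h1 w, ← card_sigma,
    Set.ncard_eq_toFinset_card _ (Tup_finite r V (Fin.cons a n : Fin (l + 1) → ℕ))]
  apply card_le_card_of_injOn (fun q => (Fin.cons q.1 q.2 : Fin (l + 1) → List ℕ))
  · intro q hq
    rw [mem_coe, mem_sigma, Set.Finite.mem_toFinset, Set.Finite.mem_toFinset] at hq
    rw [mem_coe, Set.Finite.mem_toFinset]
    exact Tup_cons hq.1 hq.2
  · rintro ⟨w, u⟩ _ ⟨w', u'⟩ _ h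
    have h2 : (Fin.cons w u : Fin (l + 1) → List ℕ) = Fin.cons w' u' := h
    obtain ⟨h3, h4⟩ := Fin.cons_inj.1 h2
    subst h3
    subst h4
    rfl

open Classical in
/-- the bad tuples of weights -/
noncomputable def BD (r M n₀ X : ℕ) (V : Submodule K ℝ) (l : ℕ) : Finset (Fin l → ℕ) :=
  (bx n₀ X l).filter fun n => (2 * M) ^ l * (Tup r V n).ncard < ∏ i, n i ^ (r - 1)

theorem BD_zero (r M n₀ X : ℕ) (V : Submodule K ℝ) : BD r M n₀ X V 0 = ∅ := by
  classical
  unfold BD
  rw [filter_eq_empty_iff]
  intro n _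
  have h1 : (Tup r V n) = {fun i => i.elim0} := by
    ext w
    constructor
    · intro _
      exact Subsingleton.elim _ _
    · intro _
      exact ⟨fun i => i.elim0, fun _ _ i => i.elim0⟩
  rw [h1, Set.ncard_singleton]
  simp

/-- **the tuples** -/
theorem tup_main {r M n₀ : ℕ} (hn₀ : 1 ≤ n₀) (hI : Ineq r M n₀) (K : IntermediateField ℚ ℝ)
    (hK : Transcendental K Real.pi) (X l : ℕ) : ∀ (k : ℕ) (V : Submodule K ℝ), Module.Finite K V →
      Module.finrank K V ≤ k → X * (BD r M n₀ X V l).card ≤ CC l k * X ^ l := by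
  classical
  induction l with
  | zero =>
    intro k V _ _
    rw [BD_zero]
    simp
  | succ l ih =>
    intro k V hV hk
    obtain ⟨E, hE, hE2⟩ := fin_space K hK V hV
    set W : ℕ → Finset (List ℕ) := fun a => (OutK_finite r V a).toFinset with hW
    set Vw : List ℕ → Submodule K ℝ := fun w => V ⊔ Submodule.span K {mz w} with hVw
    have hVwf : ∀ w, Module.Finite K (Vw w) := fun w => by
      rw [hVw]
      infer_instance
    have hVwk : ∀ w, Module.finrank K (Vw w) ≤ k + 1 := fun w => by
      have h1 := Submodule.finrank_add_le_finrank_add_finrank V (Submodule.span K {mz w})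
      have h2 := finrank_span_le_card (R := K) ({mz w} : Set ℝ)
      simp only [Set.toFinset_singleton, card_singleton] at h2
      exact h1.trans (Nat.add_le_add hk h2)
    -- the second kind of bad tuples
    set B2 : ℕ → Finset (Fin l → ℕ) := fun a => (bx n₀ X l).filter fun n =>
      (W a).card < 2 * ((W a).filter fun w => n ∈ BD r M n₀ X (Vw w) l).card with hB2
    have hB2c : ∀ a, 0 < (W a).card → X * (B2 a).card ≤ 2 * CC l (k + 1) * X ^ l := by
      intro a ha
      have h1 : (B2 a).card * (W a).card ≤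
          ∑ n ∈ bx n₀ X l, 2 * ((W a).filter fun w => n ∈ BD r M n₀ X (Vw w) l).card := by
        rw [← smul_eq_mul, ← sum_const]
        refine (sum_le_sum (s := B2 a) fun n hn => ?_).trans
          (sum_le_sum_of_subset (filter_subset _ _))
        exact (mem_filter.1 hn).2.le
      have h2 : ∑ n ∈ bx n₀ X l, 2 * ((W a).filter fun w => n ∈ BD r M n₀ X (Vw w) l).card =
          2 * ∑ w ∈ W a, (BD r M n₀ X (Vw w) l).card := by
        rw [← mul_sum]
        congr 1
        simp only [card_filter]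
        rw [sum_comm]
        refine sum_congr rfl fun w _ => ?_
        have hsub : BD r M n₀ X (Vw w) l ⊆ bx n₀ X l := by
          unfold BD
          exact filter_subset _ _
        rw [← card_filter, filter_mem_eq_inter, inter_eq_right.2 hsub]
      have h3 : X * ∑ w ∈ W a, (BD r M n₀ X (Vw w) l).card ≤ (W a).card * (CC l (k + 1) * X ^ l) := by
        rw [mul_sum, ← smul_eq_mul (a := (W a).card), ← sum_const]
        exact sum_le_sum fun w _ => ih (k + 1) (Vw w) (hVwf w) (hVwk w)
      have h4 : (W a).card * (X * (B2 a).card) ≤ (W a).card * (2 * CC l (k + 1) * X ^ l) := by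
        calc (W a).card * (X * (B2 a).card) = X * ((B2 a).card * (W a).card) := by ring
          _ ≤ X * (2 * ∑ w ∈ W a, (BD r M n₀ X (Vw w) l).card) := by
              rw [← h2]
              exact Nat.mul_le_mul_left _ h1
          _ = 2 * (X * ∑ w ∈ W a, (BD r M n₀ X (Vw w) l).card) := by ring
          _ ≤ 2 * ((W a).card * (CC l (k + 1) * X ^ l)) := Nat.mul_le_mul_left _ h3
          _ = _ := by ring
      exact Nat.le_of_mul_le_mul_left h4 ha
    -- the inclusion
    have hcard : (BD r M n₀ X V (l + 1)).card ≤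
        ((Icc n₀ X).sigma fun a => if a ∈ E then bx n₀ X l else B2 a).card := by
      apply card_le_card_of_injOn
        (fun N : Fin (l + 1) → ℕ => (⟨N 0, fun i => N i.succ⟩ : Σ _ : ℕ, Fin l → ℕ))
      · intro N hN
        obtain ⟨hN1, hN2⟩ := mem_filter.1 hN
        rw [mem_bx] at hN1
        rw [mem_coe, mem_sigma]
        refine ⟨mem_Icc.2 (hN1 0), ?_⟩
        have htail : (fun i : Fin l => N i.succ) ∈ bx n₀ X l := mem_bx.2 fun i => hN1 i.succ
        show (fun i : Fin l => N i.succ) ∈ if N 0 ∈ E then bx n₀ X l else B2 (N 0)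
        by_cases hNE : N 0 ∈ E
        · rw [if_pos hNE]
          exact htail
        · rw [if_neg hNE]
          refine mem_filter.2 ⟨htail, ?_⟩
          by_contra hcon
          rw [not_lt] at hcon
          have heta : N = (Fin.cons (N 0) (fun i => N i.succ) : Fin (l + 1) → ℕ) := by
            funext i
            refine Fin.cases ?_ (fun i => ?_) i
            · rw [Fin.cons_zero]
            · rw [Fin.cons_succ]
          have g1 := hI K V (N 0) (hN1 0).1 (hE2 (N 0) hNE)
          rw [Set.ncard_eq_toFinset_card _ (OutK_finite r V (N 0))] at g1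
          have g2 := Tup_sum r V (N 0) (fun i => N i.succ)
          rw [← heta] at g2
          set P : ℕ := ∏ i : Fin l, N i.succ ^ (r - 1) with hP
          -- the good `w`
          set Gd : Finset (List ℕ) := (W (N 0)).filter fun w =>
            ¬ (fun i : Fin l => N i.succ) ∈ BD r M n₀ X (Vw w) l with hGd
          have g3 : (W (N 0)).card ≤ 2 * Gd.card := by
            have h7 : ((W (N 0)).filter fun w =>
                (fun i : Fin l => N i.succ) ∈ BD r M n₀ X (Vw w) l).card + Gd.card =
                  (W (N 0)).card := by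
              rw [hGd]
              convert card_filter_add_card_filter_not (s := W (N 0))
                (fun w => (fun i : Fin l => N i.succ) ∈ BD r M n₀ X (Vw w) l)
            omega
          have g4 : ∀ w ∈ Gd, P ≤ (2 * M) ^ l * (Tup r (Vw w) (fun i => N i.succ)).ncard := by
            intro w hw
            have h5 := (mem_filter.1 hw).2
            by_contra hlt
            rw [not_le] at hlt
            exact h5 (mem_filter.2 ⟨htail, hlt⟩)
          have g5 : Gd.card * P ≤ (2 * M) ^ l * (Tup r V N).ncard := by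
            calc Gd.card * P = ∑ _w ∈ Gd, P := by rw [sum_const, smul_eq_mul]
              _ ≤ ∑ w ∈ Gd, (2 * M) ^ l * (Tup r (Vw w) (fun i => N i.succ)).ncard :=
                  sum_le_sum g4
              _ = (2 * M) ^ l * ∑ w ∈ Gd, (Tup r (Vw w) (fun i => N i.succ)).ncard := by
                  rw [mul_sum]
              _ ≤ (2 * M) ^ l * ∑ w ∈ W (N 0), (Tup r (Vw w) (fun i => N i.succ)).ncard :=
                  Nat.mul_le_mul_left _ (sum_le_sum_of_subset (filter_subset _ _))
              _ ≤ (2 * M) ^ l * (Tup r V N).ncard := Nat.mul_le_mul_left _ g2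
          rw [Fin.prod_univ_succ] at hN2
          have g6 : N 0 ^ (r - 1) * P ≤ (2 * M) ^ (l + 1) * (Tup r V N).ncard := by
            calc N 0 ^ (r - 1) * P ≤ (M * (W (N 0)).card) * P := Nat.mul_le_mul_right _ g1
              _ ≤ (M * (2 * Gd.card)) * P :=
                  Nat.mul_le_mul_right _ (Nat.mul_le_mul_left _ g3)
              _ = (2 * M) * (Gd.card * P) := by ring
              _ ≤ (2 * M) * ((2 * M) ^ l * (Tup r V N).ncard) := Nat.mul_le_mul_left _ g5
              _ = _ := by rw [pow_succ]; ring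
          exact absurd hN2 (not_lt.2 g6)
      · intro N _ N' _ h
        have h1 : N 0 = N' 0 := congrArg Sigma.fst h
        have h3 : N 0 = N' 0 ∧ (fun i : Fin l => N i.succ) = fun i => N' i.succ := by
          simpa using h
        have h2 := h3.2
        funext i
        refine Fin.cases h1 (fun i => ?_) i
        exact congrFun h2 i
    rw [card_sigma] at hcard
    have hW0 : ∀ a ∈ Icc n₀ X, a ∉ E → 0 < (W a).card := by
      intro a ha haE
      have g1 := hI K V a (mem_Icc.1 ha).1 (hE2 a haE)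
      rw [Set.ncard_eq_toFinset_card _ (OutK_finite r V a)] at g1
      by_contra h0
      have h0' : (W a).card = 0 := by omega
      have h1 : 0 < a ^ (r - 1) := Nat.pow_pos (by have := (mem_Icc.1 ha).1; omega)
      have h2 : ((OutK_finite r V a).toFinset).card = 0 := h0'
      rw [h2] at g1
      omega
    have hterm : ∀ a ∈ Icc n₀ X, X * (if a ∈ E then bx n₀ X l else B2 a).card ≤
        (if a ∈ E then X ^ (l + 1) else 0) + 2 * CC l (k + 1) * X ^ l := by
      intro a ha
      by_cases haE : a ∈ E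
      · rw [if_pos haE, if_pos haE]
        have := Nat.mul_le_mul_left X (card_bx (X := X) hn₀ l)
        rw [pow_succ, mul_comm (X ^ l) X]
        omega
      · rw [if_neg haE, if_neg haE, zero_add]
        exact hB2c a (hW0 a ha haE)
    calc X * (BD r M n₀ X V (l + 1)).card ≤
        X * ∑ a ∈ Icc n₀ X, (if a ∈ E then bx n₀ X l else B2 a).card := Nat.mul_le_mul_left _ hcard
      _ = ∑ a ∈ Icc n₀ X, X * (if a ∈ E then bx n₀ X l else B2 a).card := by rw [mul_sum]
      _ ≤ ∑ a ∈ Icc n₀ X, ((if a ∈ E then X ^ (l + 1) else 0) + 2 * CC l (k + 1) * X ^ l) :=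
          sum_le_sum hterm
      _ = ((Icc n₀ X).filter (· ∈ E)).card * X ^ (l + 1) +
          (Icc n₀ X).card * (2 * CC l (k + 1) * X ^ l) := by
          rw [sum_add_distrib, ← sum_filter, sum_const, sum_const, smul_eq_mul, smul_eq_mul]
      _ ≤ k ^ 4 * X ^ (l + 1) + X * (2 * CC l (k + 1) * X ^ l) := by
          refine Nat.add_le_add (Nat.mul_le_mul_right _ ?_) (Nat.mul_le_mul_right _ ?_)
          · refine (card_le_card (fun a ha => (mem_filter.1 ha).2 :
              (Icc n₀ X).filter (· ∈ E) ⊆ E)).trans (hE.trans (Nat.pow_le_pow_left hk 4))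
          · rw [Nat.card_Icc]
            omega
      _ = CC (l + 1) k * X ^ (l + 1) := by
          rw [CC, pow_succ]
          ring

/-- the final form -/
theorem tup_final {r M n₀ : ℕ} (hn₀ : 1 ≤ n₀) (hI : Ineq r M n₀) (K : IntermediateField ℚ ℝ)
    (hK : Transcendental K Real.pi) (V : Submodule K ℝ) (hV : Module.Finite K V) (X l : ℕ)
    (hl : 1 ≤ l) : {n : Fin l → ℕ | (∀ i, n₀ ≤ n i ∧ n i ≤ X) ∧
      (2 * M) ^ l * (Tup r V n).ncard < ∏ i, n i ^ (r - 1)}.ncard ≤
        CC l (Module.finrank K V) * X ^ (l - 1) := by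
  classical
  have e : {n : Fin l → ℕ | (∀ i, n₀ ≤ n i ∧ n i ≤ X) ∧
      (2 * M) ^ l * (Tup r V n).ncard < ∏ i, n i ^ (r - 1)} = ↑(BD r M n₀ X V l) := by
    ext n
    unfold BD
    rw [coe_filter]
    simp only [Set.mem_ofPred_eq, mem_bx]
  rw [e, Set.ncard_coe_finset]
  rcases Nat.eq_zero_or_pos X with hX | hX
  · have h0 : BD r M n₀ X V l = ∅ := by
      unfold BD
      rw [filter_eq_empty_iff]
      intro n hn
      rw [mem_bx] at hn
      have := hn ⟨0, by omega⟩
      omega
    rw [h0, card_empty]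
    exact Nat.zero_le _
  · have h := tup_main hn₀ hI K hK X l (Module.finrank K V) V hV le_rfl
    have h2 : CC l (Module.finrank K V) * X ^ l =
        X * (CC l (Module.finrank K V) * X ^ (l - 1)) := by
      obtain ⟨s, rfl⟩ : ∃ s, l = s + 1 := ⟨l - 1, by omega⟩
      rw [Nat.add_sub_cancel, pow_succ]
      ring
    rw [h2] at h
    exact Nat.le_of_mul_le_mul_left h hX

end Pool.Agent.MZG
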